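import Pool.Agent.H48.TC.Col
import Pool.Agent.H89.TT.NoS

/-!
# TC: the geometry at several places, affine frames, statement
-/

set_option autoImplicit false

namespace Pool.TC

open Finset Real MvPolynomial
open Pool.Agent.H49.Ent Pool.Agent.H32.Dense Pool.STK Pool.STAT Pool.MIC.Frm Pool.MIC7 Pool.FRM
open Pool.GSD Pool.TCO
open Pool.BFL (Pb)
open Pool.P4 (bb GoodS FrP)

/-- **The geometry at several places of a column, affine frames.** The cell is larger than the room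
`M₁` of the places. -/
def GeoQA : Prop :=
  ∀ (n d K : ℕ) (th : ℝ) (gam : ℕ → ℝ) (C₁ : ℝ), 1 ≤ n → 1 ≤ C₁ → (∀ l, 0 ≤ gam l) →
    ∃ (K' : ℕ) (C : ℝ), 1 ≤ C ∧
    ∀ (y r r2 r' r'' a M₁ : ℕ) (e : ℝ), 0 < e → ∃ (M : ℕ) (κ : ℝ) (z₀ : ℕ), M₁ ≤ M ∧ 0 < κ ∧
    ∀ (J a₀ w₀ z j Q : ℕ) (pl : ℕ → ℕ) (D : NDat2) (q : D.Ω → ℝ), z₀ ≤ z →
      (∀ m ≤ Q, Plc n d th gam y r r2 r' r'' a M₁ (pl m) j) → (∀ m ≤ Q, pl 0 ≤ pl m) →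
      D.Ok2 n K J a₀ w₀ z M (fun _ => 1) gam κ C₁ q → D.TmU J w₀ z κ q → D.Strt →
      D.Slp n J z M q → D.NoSl n J w₀ z M 1 C₁ κ q →
      ∃ (E : D.Ω → Prop) (P : ℕ → D.Γ × D.Γ → ℕ → PN) (V : D.Ω → ℕ → PN),
        Pb q (fun ω => ¬ E ω) ≤ e ∧ OwnFr D n K' z M₁ C E V ∧
        (∀ m ≤ Q, ∀ ω, E ω → 0 < q ω ∧ GoodS D n K' w₀ z M₁ C ω ∧
          FrP D n K' z (pl m) j r C (P m (bb D (pl m) j r ω)) ω) ∧
        (∀ m ≤ Q, ∀ ω, E ω → ∀ l, 1 ≤ l → ∃ A : PN, A.vars ⊆ {0} ∧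
          P m (bb D (pl m) j r ω) l = P 0 (bb D (pl 0) j r ω) l + A) ∧
        (∀ m ≤ Q, ∀ v l, (P m v l).totalDegree ≤ 1) ∧
        ∀ m ≤ Q,
          Geo D n d K' J w₀ z (pl m) j r r2 r' r'' th gam C (exp (C * z) / 2 ^ (y * z)) q E (P m)
            ⟨Sm D n (pl 0) (pl m) j r (sl th gam n) E (P 0) V,
              Sm D n (pl 0) (pl m) j r (sl0 th gam n) E (P 0) V⟩ ∧
          Dep D n d J w₀ z M₁ (pl m) j r C q E (P m)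

end Pool.TC
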