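import Pool.Agent.H14.P4.Thin

/-!
# TC: cells with a threshold, paths of any degree, definitions

All base slopes `lam = 1`. Base place `(i, j)`, context `bb = (c i j, c (i - 1) (j - r))`, closed frame
`P (bb)`, natural units of `(i, j)` as in P4. The threshold is `th ≤ gam n`: the slow coordinates `sl`
have `gam l < th`, the group `gr` has `th ≤ gam l`. The slow coordinates `sl0` (`gam l < 1`) are
constant on the line, the coordinates `sl1` (`1 ≤ gam l < th`) and the group have paths over the frame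
which are polynomials of degree `≤ d` in the time.

The places `L2 = (i + r2, j - r)`, `L = (i + r', j - r)`, `L'' = (i + r'', j - r)` (line side),
`R2 = (i - r2, j + r)`, `R = (i - r', j + r)`, `R'' = (i - r'', j + r)` (visible side).
`L2` knows `sl0` and the nonconstant part of the paths of `sl1`; `L` knows the paths of all the slow
coordinates and the nonconstant part of the paths of the group; `L''` knows the line. `R2` knows the own sheets of `sl1` over `sl0`, `R` knows the own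
sheets of the group over all the slow coordinates.
-/

set_option autoImplicit false

namespace Pool.TC

open Finset Real MvPolynomial
open Pool.Agent.H49.Ent Pool.Agent.H32.Dense Pool.STK Pool.STAT Pool.MIC.Frm Pool.MIC7 Pool.FRM
open Pool.GSD
open Pool.BFL (Pb)
open Pool.P4 (t0 rt pp PthC FraC bb ze zt z0 cl1 dg dgp Ry cb LLC tq)

/-! ### Slow coordinates and steps -/

/-- Slow coordinates. The others, with the target, are the group. -/
def sl (th : ℝ) (gam : ℕ → ℝ) (n l : ℕ) : Prop := 1 ≤ l ∧ l < n ∧ gam l < th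

/-- The group. -/
def gr (th : ℝ) (gam : ℕ → ℝ) (n l : ℕ) : Prop := 1 ≤ l ∧ l ≤ n ∧ th ≤ gam l

/-- Slow coordinates which are constant on the line. -/
def sl0 (th : ℝ) (gam : ℕ → ℝ) (n l : ℕ) : Prop := sl th gam n l ∧ gam l < 1

/-- Slow coordinates which move on the line. -/
def sl1 (th : ℝ) (gam : ℕ → ℝ) (n l : ℕ) : Prop := sl th gam n l ∧ 1 ≤ gam l

theorem sl_iff {th : ℝ} {gam : ℕ → ℝ} {n : ℕ} (l : ℕ) :
    sl th gam n l ↔ sl0 th gam n l ∨ sl1 th gam n l := by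
  constructor
  · intro h
    rcases lt_or_ge (gam l) 1 with h1 | h1
    · exact Or.inl ⟨h, h1⟩
    · exact Or.inr ⟨h, h1⟩
  · rintro (h | h)
    · exact h.1
    · exact h.1

theorem sl0_sl1 {th : ℝ} {gam : ℕ → ℝ} {n l : ℕ} (h : sl0 th gam n l) (h1 : sl1 th gam n l) :
    False := absurd h.2 (not_lt.2 h1.2)

theorem sl_gr {th : ℝ} {gam : ℕ → ℝ} {n l : ℕ} (h : sl th gam n l) (h1 : gr th gam n l) : False :=
  absurd h.2.2 (not_lt.2 h1.2.2)

/-- The steps: `y` is the margin. -/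
structure Stp (n d : ℕ) (th : ℝ) (gam : ℕ → ℝ) (y r r2 r' r'' a : ℕ) : Prop where
  d1 : 1 ≤ d
  gn : th ≤ gam n
  s1 : ∀ l, sl th gam n l → gam l * r + y ≤ r'
  s2 : ∀ l, gr th gam n l → r' + y ≤ gam l * r
  s3 : ∀ l, 1 ≤ l → l ≤ n → (gam l - (d + 1)) * r + y ≤ 0
  s3g : ∀ l, gr th gam n l → (gam l - 1) * r + y ≤ r'
  s4 : ∀ l, 1 ≤ l → l ≤ n → 2 * gam l * r + y ≤ r''
  s5 : r2 ≤ r'
  s6 : r' ≤ r''
  s7 : y ≤ a
  t0 : ∀ l, sl0 th gam n l → gam l * r + y ≤ r2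
  t1 : ∀ l, sl1 th gam n l → r2 + y ≤ gam l * r
  t2 : ∀ l, sl1 th gam n l → (gam l - 1) * r + y ≤ r2
  t3 : ∀ l, sl0 th gam n l → (gam l - 1) * r + y ≤ 0

/-! ### The line and the own slopes -/

section

variable (D : NDat2) (J w i j r d : ℕ) (P : D.Γ × D.Γ → ℕ → PN)

/-- The coordinates of the line at the relative time `x` of the window of length `2 ^ (-w)`. -/
noncomputable def zx (x : ℝ) (ω : D.Ω) (l : ℕ) : ℝ :=
  zt D i j r P (t0 D J w ω + x * (1 / 2 ^ w)) ω l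

/-- The path over the frame in the window of length `2 ^ (-w)`: interpolation at the relative times
`m / d`. -/
noncomputable def pth (ω : D.Ω) (l : ℕ) : Polynomial ℝ :=
  Lagrange.interpolate (Finset.range (d + 1)) (fun m : ℕ => (m : ℝ) / d)
    fun m => zx D J w i j r P ((m : ℝ) / d) ω l

/-- The coefficients of the path. -/
noncomputable def bs (s : ℕ) (ω : D.Ω) (l : ℕ) : ℝ := (pth D J w i j r d P ω l).coeff s

end

/-- The slopes: `S` the own slopes of the group over the slow coordinates, `El` the own slopes of the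
moving slow coordinates over the constant ones. -/
structure Slo (D : NDat2) : Type where
  S : D.Ω → ℕ → ℕ → ℝ
  El : D.Ω → ℕ → ℕ → ℝ

open Classical in
/-- The height over the own sheet with the slopes `S` over the coordinates `Sl`. -/
noncomputable def hs (D : NDat2) (n i j r : ℕ) (P : D.Γ × D.Γ → ℕ → PN) (Sl : ℕ → Prop)
    (S : D.Ω → ℕ → ℕ → ℝ) (ω : D.Ω) (u : ℕ) : ℝ :=
  ze D i j r P ω u - ∑ k ∈ (range n).filter Sl, S ω u k * ze D i j r P ω k

/-- The height of the group over the own sheet. -/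
noncomputable def nn (D : NDat2) (n i j r : ℕ) (th : ℝ) (gam : ℕ → ℝ) (P : D.Γ × D.Γ → ℕ → PN)
    (S : D.Ω → ℕ → ℕ → ℝ) (ω : D.Ω) (u : ℕ) : ℝ := hs D n i j r P (sl th gam n) S ω u

/-- The height of a moving slow coordinate over the own sheet. -/
noncomputable def la (D : NDat2) (n i j r : ℕ) (th : ℝ) (gam : ℕ → ℝ) (P : D.Γ × D.Γ → ℕ → PN)
    (El : D.Ω → ℕ → ℕ → ℝ) (ω : D.Ω) (l : ℕ) : ℝ := hs D n i j r P (sl0 th gam n) El ω l

open Classical in
/-- **The geometry of a cell** in a context `bb`, on the event `E`. All the windows of length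
`2 ^ (-w)`, `w₀ + j z ≤ w ≤ w₀ + (j + 1) z`. -/
structure Geo (D : NDat2) (n d K' J w₀ z i j r r2 r' r'' : ℕ) (th : ℝ) (gam : ℕ → ℝ) (C τ : ℝ)
    (q : D.Ω → ℝ) (E : D.Ω → Prop) (P : D.Γ × D.Γ → ℕ → PN) (S : Slo D) : Prop where
  -- the frame
  tri : ∀ v, TriN (P v)
  deg : ∀ v l, (P v l).totalDegree ≤ K'
  near : ∀ ω, 0 < q ω → E ω → ∀ i' ≤ i, ∀ l ≤ n,
    nrm (D.g i' j) (1 / 2) (chr (P (bb D i j r ω)) (D.Φ i' j ω l - P (bb D i j r ω) l)) ≤
      exp (C * z) / 2 ^ D.g i' j l ∧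
    nrm (D.g (i' - 1) (j - r)) (1 / 2)
      (chr (P (bb D i j r ω)) (D.Φ (i' - 1) (j - r) ω l - P (bb D i j r ω) l)) ≤
      exp (C * z) / 2 ^ D.g (i' - 1) (j - r) l
  -- bounds
  bz : ∀ ω, 0 < q ω → E ω → ∀ l, 1 ≤ l → l ≤ n → |ze D i j r P ω l| ≤ exp (C * z)
  bt : ∀ ω, 0 < q ω → E ω → ∀ l, 1 ≤ l → l ≤ n → ∀ w, w₀ + j * z ≤ w → w ≤ w₀ + (j + 1) * z →
    |z0 D J w i j r P ω l| ≤ exp (C * z) ∧
      ∀ s, 1 ≤ s → s ≤ d → |bs D J w i j r d P s ω l| ≤ exp (C * z)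
  bS : ∀ ω u k, |S.S ω u k| ≤ exp (C * z)
  bEl : ∀ ω u k, |S.El ω u k| ≤ exp (C * z)
  tS : ∀ ω u k, u ≤ k → S.S ω u k = 0
  tE : ∀ ω u k, u ≤ k → S.El ω u k = 0
  -- the line
  slow0 : ∀ ω, 0 < q ω → E ω → ∀ l, sl0 th gam n l → ∀ w, w₀ + j * z ≤ w →
    w ≤ w₀ + (j + 1) * z → |ze D i j r P ω l - z0 D J w i j r P ω l| ≤ τ ∧
      ∀ s, 1 ≤ s → s ≤ d → |bs D J w i j r d P s ω l| ≤ τ
  path : ∀ ω, 0 < q ω → E ω → ∀ l, 1 ≤ l → l ≤ n → ∀ w, w₀ + j * z ≤ w →
    w ≤ w₀ + (j + 1) * z → |ze D i j r P ω l - (z0 D J w i j r P ω l +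
      ∑ s ∈ Finset.Icc 1 d, rt D J w ω ^ s * bs D J w i j r d P s ω l)| ≤ τ
  pathx : ∀ ω, 0 < q ω → E ω → ∀ l, 1 ≤ l → l ≤ n → ∀ w, w₀ + j * z ≤ w →
    w ≤ w₀ + (j + 1) * z → ∀ x : ℝ, 0 ≤ x → x ≤ 1 →
      |zx D J w i j r P x ω l - (z0 D J w i j r P ω l +
        ∑ s ∈ Finset.Icc 1 d, x ^ s * bs D J w i j r d P s ω l)| ≤ τ
  -- the context at `L2`: the constant coordinates, the nonconstant part of the moving ones
  left2 : ∀ ω ω', 0 < q ω → 0 < q ω' → E ω → E ω' → bb D i j r ω = bb D i j r ω' →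
    D.c (i + r2) (j - r) ω = D.c (i + r2) (j - r) ω' → ∀ w, w₀ + j * z ≤ w →
    w ≤ w₀ + (j + 1) * z → D.T ω / 2 ^ (J - w) = D.T ω' / 2 ^ (J - w) →
    (∀ l, sl0 th gam n l → |z0 D J w i j r P ω l - z0 D J w i j r P ω' l| ≤ τ) ∧
    ∀ l, sl1 th gam n l → ∀ s, 1 ≤ s → s ≤ d →
      |bs D J w i j r d P s ω l - bs D J w i j r d P s ω' l| ≤ τ
  -- the context at `L`: the slow coordinates, the nonconstant part of the group
  left : ∀ ω ω', 0 < q ω → 0 < q ω' → E ω → E ω' → bb D i j r ω = bb D i j r ω' →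
    D.c (i + r') (j - r) ω = D.c (i + r') (j - r) ω' → ∀ w, w₀ + j * z ≤ w →
    w ≤ w₀ + (j + 1) * z → D.T ω / 2 ^ (J - w) = D.T ω' / 2 ^ (J - w) →
    (∀ l, sl th gam n l → |z0 D J w i j r P ω l - z0 D J w i j r P ω' l| ≤ τ ∧
      ∀ s, 1 ≤ s → s ≤ d → |bs D J w i j r d P s ω l - bs D J w i j r d P s ω' l| ≤ τ) ∧
    ∀ l, gr th gam n l → ∀ s, 1 ≤ s → s ≤ d →
      |bs D J w i j r d P s ω l - bs D J w i j r d P s ω' l| ≤ τ
  -- the context at `L''`: the line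
  left3 : ∀ ω ω', 0 < q ω → 0 < q ω' → E ω → E ω' → bb D i j r ω = bb D i j r ω' →
    D.c (i + r'') (j - r) ω = D.c (i + r'') (j - r) ω' → ∀ w, w₀ + j * z ≤ w →
    w ≤ w₀ + (j + 1) * z → D.T ω / 2 ^ (J - w) = D.T ω' / 2 ^ (J - w) →
    ∀ l, 1 ≤ l → l ≤ n → |z0 D J w i j r P ω l - z0 D J w i j r P ω' l| ≤ τ ∧
      ∀ s, 1 ≤ s → s ≤ d → |bs D J w i j r d P s ω l - bs D J w i j r d P s ω' l| ≤ τ
  -- the label at `R`: the own sheet
  right : ∀ ω ω', 0 < q ω → 0 < q ω' → E ω → E ω' → bb D i j r ω = bb D i j r ω' →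
    D.T ω = D.T ω' → D.s (i - r') (j + r) ω = D.s (i - r') (j + r) ω' →
    ∀ u, gr th gam n u → |nn D n i j r th gam P S.S ω u - nn D n i j r th gam P S.S ω' u| ≤ τ ∧
      ∀ k, sl th gam n k → |S.S ω u k - S.S ω' u k| ≤ τ
  -- the label at `R''`: the own slopes
  right2 : ∀ ω ω', 0 < q ω → 0 < q ω' → E ω → E ω' → bb D i j r ω = bb D i j r ω' →
    D.T ω = D.T ω' → D.s (i - r'') (j + r) ω = D.s (i - r'') (j + r) ω' →
    (∀ u, gr th gam n u → ∀ k, sl th gam n k → |S.S ω u k - S.S ω' u k| ≤ τ) ∧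
    ∀ l, sl1 th gam n l → ∀ k, sl0 th gam n k → |S.El ω l k - S.El ω' l k| ≤ τ
  -- the label at `R2`: the own sheets of the moving slow coordinates
  leaf : ∀ ω ω', 0 < q ω → 0 < q ω' → E ω → E ω' → bb D i j r ω = bb D i j r ω' →
    D.T ω = D.T ω' → D.s (i - r2) (j + r) ω = D.s (i - r2) (j + r) ω' →
    ∀ l, sl1 th gam n l → |la D n i j r th gam P S.El ω l - la D n i j r th gam P S.El ω' l| ≤ τ ∧
      ∀ k, sl0 th gam n k → |S.El ω l k - S.El ω' l k| ≤ τ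
  -- the own sheet at `R` is affine over the slow coordinates
  sheet : ∀ ω, 0 < q ω → E ω → ∀ Bx : ℝ, 1 ≤ Bx → ∀ b : ℕ → ℝ, b 0 = D.X ω 0 →
    (∀ k, sl th gam n k → |nat (D.g i j) (P (bb D i j r ω)) b k| ≤ exp (Bx * z)) →
    (∀ u, gr th gam n u → b u = eval b (D.Ψ (i - r') (j + r) ω u)) →
    ∀ u, gr th gam n u → |nat (D.g i j) (P (bb D i j r ω)) b u -
      (nn D n i j r th gam P S.S ω u + ∑ k ∈ (range n).filter (sl th gam n),
        S.S ω u k * nat (D.g i j) (P (bb D i j r ω)) b k)| ≤ exp (C * Bx * z) * τ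
  -- the coordinates over the frame and over the visible labels at `(i, j)`
  toV : ∀ ω ω', 0 < q ω → 0 < q ω' → E ω → E ω' → bb D i j r ω = bb D i j r ω' →
    D.T ω = D.T ω' → ∀ l, 1 ≤ l → l ≤ n → ∀ δ : ℝ, 0 ≤ δ →
    (∀ k, 1 ≤ k → k ≤ l → |ze D i j r P ω k - ze D i j r P ω' k| ≤ δ) →
    |2 ^ D.g i j l * D.sh i j ω l - 2 ^ D.g i j l * D.sh i j ω' l| ≤ exp (C * z) * δ
  ofV : ∀ ω ω', 0 < q ω → 0 < q ω' → E ω → E ω' → bb D i j r ω = bb D i j r ω' →
    D.T ω = D.T ω' → ∀ l, 1 ≤ l → l ≤ n → ∀ δ : ℝ, 0 ≤ δ →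
    (∀ k, 1 ≤ k → k ≤ l →
      |2 ^ D.g i j k * D.sh i j ω k - 2 ^ D.g i j k * D.sh i j ω' k| ≤ δ) →
    |ze D i j r P ω l - ze D i j r P ω' l| ≤ exp (C * z) * δ

/-- **Deeper contexts** `(i', j)`, `i ≤ i' < M`, in the units of `(i, j)`: they know the line to the
depth `i' - i`, and the coordinates over the frame and over their visible labels are equivalent. -/
structure Dep (D : NDat2) (n d J w₀ z M i j r : ℕ) (C : ℝ) (q : D.Ω → ℝ) (E : D.Ω → Prop)
    (P : D.Γ × D.Γ → ℕ → PN) : Prop where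
  ctx : ∀ i', i ≤ i' → i' < M → ∀ ω ω', 0 < q ω → 0 < q ω' → E ω → E ω' →
    bb D i j r ω = bb D i j r ω' → D.c i' j ω = D.c i' j ω' → ∀ w, w₀ + j * z ≤ w →
    w ≤ w₀ + (j + 1) * z → D.T ω / 2 ^ (J - w) = D.T ω' / 2 ^ (J - w) → ∀ l, 1 ≤ l → l ≤ n →
    |z0 D J w i j r P ω l - z0 D J w i j r P ω' l| ≤ exp (C * z) / 2 ^ ((i' - i) * z) ∧
    ∀ s, 1 ≤ s → s ≤ d → |bs D J w i j r d P s ω l - bs D J w i j r d P s ω' l| ≤
      exp (C * z) / 2 ^ ((i' - i) * z)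
  toV : ∀ i', i ≤ i' → i' < M → ∀ ω ω', 0 < q ω → 0 < q ω' → E ω → E ω' →
    bb D i j r ω = bb D i j r ω' → D.c i' j ω = D.c i' j ω' → D.T ω = D.T ω' → ∀ l, 1 ≤ l →
    l ≤ n → ∀ δ : ℝ, 0 ≤ δ →
    (∀ k, 1 ≤ k → k ≤ l → |ze D i j r P ω k - ze D i j r P ω' k| ≤ δ) →
    |2 ^ D.g i j l * D.sh i' j ω l - 2 ^ D.g i j l * D.sh i' j ω' l| ≤ exp (C * z) * δ
  ofV : ∀ i', i ≤ i' → i' < M → ∀ ω ω', 0 < q ω → 0 < q ω' → E ω → E ω' →
    bb D i j r ω = bb D i j r ω' → D.c i' j ω = D.c i' j ω' → D.T ω = D.T ω' → ∀ l, 1 ≤ l →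
    l ≤ n → ∀ δ : ℝ, 0 ≤ δ →
    (∀ k, 1 ≤ k → k ≤ l →
      |2 ^ D.g i j k * D.sh i' j ω k - 2 ^ D.g i j k * D.sh i' j ω' k| ≤ δ) →
    |ze D i j r P ω l - ze D i j r P ω' l| ≤ exp (C * z) * δ

/-! ### The digits -/

/-- The unit of the group. -/
noncomputable def Rg (z : ℕ) (C : ℝ) : ℝ := 2 * exp (2 * C * z)

/-- `X` digits, truncated at `m`. -/
noncomputable def dgm (X : ℕ) (m x : ℝ) : ℤ := ⌊2 ^ X * (m * cl1 (x / m))⌋

/-- The data of the line except the heights of the group: context, slow coordinates at the left end,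
coefficients of the moving slow coordinates, coefficients of the group. -/
abbrev VT (G : Type) (c k0 k1 d : ℕ) : Type :=
  ((G × G) × ℕ) × ((Fin (k0 + k1) → ℤ) × ((Fin k1 → Fin d → ℤ) × (Fin c → Fin d → ℤ)))

/-- The data of the line: heights of the group at the left end, the other data. -/
abbrev LT (G : Type) (c k0 k1 d : ℕ) : Type := (Fin c → ℤ) × VT G c k0 k1 d

/-- The abstract time: context, time, own slopes. -/
abbrev TT (G : Type) (c k0 k1 : ℕ) : Type :=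
  ((G × G) × ℕ) × (ℕ × (Fin c → Fin (k0 + k1) → ℤ))

section

variable {c k0 k1 : ℕ} (D : NDat2) (J w z i j r d X : ℕ) (C : ℝ) (P : D.Γ × D.Γ → ℕ → PN)
  (S : Slo D) (ys : Fin (k0 + k1) → ℕ) (gs : Fin c → ℕ)

/-- The heights of the group at the left end of the window. -/
noncomputable def nuv (ω : D.Ω) (u : Fin c) : ℤ := dg X (z0 D J w i j r P ω (gs u) / Rg z C)

/-- The coefficients of the paths of the group. -/
noncomputable def bev (ω : D.Ω) (u : Fin c) (s : Fin d) : ℤ :=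
  dg X (bs D J w i j r d P (s + 1) ω (gs u) / Rg z C)

/-- The slow coordinates at the left end of the window. -/
noncomputable def yv (ω : D.Ω) (a : Fin (k0 + k1)) : ℤ :=
  dgp X ((z0 D J w i j r P ω (ys a) + Ry z C) / (2 * Ry z C))

/-- The coefficients of the paths of the moving slow coordinates. -/
noncomputable def mv (ω : D.Ω) (l : Fin k1) (s : Fin d) : ℤ :=
  dg X (bs D J w i j r d P (s + 1) ω (ys (Fin.natAdd k0 l)) / (2 * Ry z C))

/-- The constant slow coordinates. -/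
noncomputable def y0v (ω : D.Ω) (a : Fin k0) : ℤ := yv D J w z i j r X C P ys ω (Fin.castAdd k1 a)

/-- The moving slow coordinates at the left end. -/
noncomputable def y1v (ω : D.Ω) (l : Fin k1) : ℤ := yv D J w z i j r X C P ys ω (Fin.natAdd k0 l)

/-- The own slopes. -/
noncomputable def Sv (ω : D.Ω) (u : Fin c) (a : Fin (k0 + k1)) : ℤ :=
  dg X (S.S ω (gs u) (ys a) * (2 * Ry z C) / Rg z C)

/-- The own slopes of the moving slow coordinates. -/
noncomputable def Elv (ω : D.Ω) (l : Fin k1) (a : Fin k0) : ℤ :=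
  ⌊2 ^ X * S.El ω (ys (Fin.natAdd k0 l)) (ys (Fin.castAdd k1 a))⌋

/-- The height of the group over the own sheet. -/
noncomputable def hv (n : ℕ) (th : ℝ) (gam : ℕ → ℝ) (ω : D.Ω) (u : Fin c) : ℤ :=
  dgm X (k0 + k1 + 1 : ℕ) (nn D n i j r th gam P S.S ω (gs u) / Rg z C)

/-- The data of the line, except the heights of the group. -/
noncomputable def vv (ω : D.Ω) : VT D.Γ c k0 k1 d :=
  (cb D J w i j r ω, (yv D J w z i j r X C P ys ω, (mv D J w z i j r d X C P ys ω,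
    bev D J w z i j r d X C P gs ω)))

/-- The data of the line. -/
noncomputable def lv (ω : D.Ω) : LT D.Γ c k0 k1 d :=
  (nuv D J w z i j r X C P gs ω, vv D J w z i j r d X C P ys gs ω)

/-- The abstract time. -/
noncomputable def tv (ω : D.Ω) : TT D.Γ c k0 k1 :=
  (cb D J w i j r ω, (D.T ω, Sv D z X C S ys gs ω))

end

section

variable {G : Type} {c k0 k1 d : ℕ} (J w X : ℕ)

/-- The relative time of an abstract time, in `[0, 1)`, `X` digits. -/
noncomputable def tx (t : TT G c k0 k1) : ℝ := (tq J w X t.2.1 : ℝ) / 2 ^ X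

/-- The path of the group without the height at the left end, in units `2 ^ (-X)`. -/
noncomputable def pg (t : TT G c k0 k1) (v : VT G c k0 k1 d) (u : Fin c) : ℝ :=
  ∑ s : Fin d, tx J w X t ^ ((s : ℕ) + 1) * v.2.2.2 u s

/-- The nonconstant part of the path of a moving slow coordinate, in units `2 ^ (-X)`. -/
noncomputable def pm (t : TT G c k0 k1) (v : VT G c k0 k1 d) (l : Fin k1) : ℝ :=
  ∑ s : Fin d, tx J w X t ^ ((s : ℕ) + 1) * v.2.2.1 l s

/-- The height of the group over the own sheet at the abstract time `t`, without the height at the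
left end, in units `2 ^ (-X)`. -/
noncomputable def hR (t : TT G c k0 k1) (v : VT G c k0 k1 d) (u : Fin c) : ℝ :=
  pg J w X t v u - ∑ a, (t.2.2 u a : ℝ) / 2 ^ X * v.2.1 a + ∑ a, (t.2.2 u a : ℝ) / 2 -
    ∑ l, (t.2.2 u (Fin.natAdd k0 l) : ℝ) / 2 ^ X * pm J w X t v l

end

section

variable {c k0 k1 : ℕ} (D : NDat2) (J w z i j r d X : ℕ) (C : ℝ) (P : D.Γ × D.Γ → ℕ → PN)
  (S : Slo D) (ys : Fin (k0 + k1) → ℕ) (gs : Fin c → ℕ)

/-- The height of the group over the own sheet, from the digits. -/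
noncomputable def hF (ω : D.Ω) (u : Fin c) : ℤ :=
  nuv D J w z i j r X C P gs ω u + ⌊hR J w X (tv D J w z i j r X C S ys gs ω)
    (vv D J w z i j r d X C P ys gs ω) u⌋

end

end Pool.TC
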