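import Pool.Agent.H48.TC.Qa

/-!
# TC: the second picture

The own slopes of the group over the moving slow coordinates are, at the samples, polynomials of
degree `d` in the time with coefficients known from a few digits `jq`. `qb`: the slow variables are
the constant slow coordinates, the context knows `jq`; degree `2 d`. `qb_ok`: its hypotheses.
-/

set_option autoImplicit false

namespace Pool.TC

open Finset Real
open Pool.Agent.H49.Ent Pool.Agent.H32.Dense Pool.STK Pool.STAT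
open Pool.BFL (Pb)
open Pool.BD64 (QHd pol)
open Pool.P4 (t0 rt pp PthC FraC bb ze zt z0 cl1 dg dgp Ry cb LLC tq GoodS FrP err
  dg_near dg_abs dgp_near dgp_abs c_up Ry_pos rt_near)
open Pool.P4E (few_vec use_gen)

section

variable {G JT : Type} {c k0 k1 d : ℕ} (J w X : ℕ) (jr : JT → Fin (d + 1) → Fin c → Fin k1 → ℝ)

/-- The position of a moving slow coordinate as a polynomial in the time. -/
noncomputable def Yc (v : VT G c k0 k1 d) (l : Fin k1) (s : Fin (d + 1)) : ℝ :=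
  Fin.cases (motive := fun _ => ℝ) ((v.2.1 (Fin.natAdd k0 l) : ℝ) - 2 ^ X / 2)
    (fun s => (v.2.2.1 l s : ℝ)) s

/-- The coefficients of the second picture. -/
noncomputable def beB (v : JT × VT G c k0 k1 d) (m : Fin (2 * d + 1)) (u : Fin c) : ℝ :=
  ∑ s : Fin d, (if (s : ℕ) + 1 = (m : ℕ) then (v.2.2.2.2 u s : ℝ) / 2 ^ X else 0) -
    ∑ l : Fin k1, ∑ s : Fin (d + 1), ∑ s' : Fin (d + 1),
      (if (s : ℕ) + (s' : ℕ) = (m : ℕ) then jr v.1 s u l * (Yc X v.2 l s' / 2 ^ X) else 0)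

/-- The known part of the height. -/
noncomputable def aB (t : TT G c k0 k1) (u : Fin c) : ℝ :=
  ∑ a : Fin k0, (t.2.2 u (Fin.castAdd k1 a) : ℝ) / 2

/-- The formula of the second picture. -/
noncomputable def fB (t : TT G c k0 k1) (v : JT × VT G c k0 k1 d) (u : Fin c) : ℝ :=
  pol X (beB X jr v) (tq J w X t.2.1 : ℕ) u - ∑ a : Fin k0,
    (t.2.2 u (Fin.castAdd k1 a) : ℝ) / 2 ^ X * v.2.2.1 (Fin.castAdd k1 a) + aB t u

theorem sum_ind {n a : ℕ} (ha : a < n) (g x : ℝ) :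
    ∑ m : Fin n, (if a = (m : ℕ) then g else 0) * x ^ (m : ℕ) = g * x ^ a := by
  rw [Finset.sum_eq_single (⟨a, ha⟩ : Fin n)]
  · simp
  · intro b _ hb
    have : a ≠ (b : ℕ) := fun e => hb (Fin.ext e.symm)
    rw [if_neg this, zero_mul]
  · intro h
    exact absurd (Finset.mem_univ _) h

variable {J w X jr}

/-- The position of a moving slow coordinate. -/
theorem Yc_sum (t : TT G c k0 k1) (v : VT G c k0 k1 d) (l : Fin k1) :
    ∑ s : Fin (d + 1), Yc X v l s * tx J w X t ^ (s : ℕ) =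
      (v.2.1 (Fin.natAdd k0 l) : ℝ) - 2 ^ X / 2 + pm J w X t v l := by
  rw [Fin.sum_univ_succ]
  unfold Yc pm
  simp only [Fin.cases_zero, Fin.cases_succ, Fin.val_zero, pow_zero, mul_one, Fin.val_succ]
  congr 1
  exact Finset.sum_congr rfl fun s _ => by ring

theorem pol_beB (v : JT × VT G c k0 k1 d) (t : TT G c k0 k1) (u : Fin c) :
    pol X (beB X jr v) (tq J w X t.2.1 : ℕ) u = pg J w X t v.2 u -
      ∑ l : Fin k1, (∑ s : Fin (d + 1), jr v.1 s u l * tx J w X t ^ (s : ℕ)) *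
        ((v.2.2.1 (Fin.natAdd k0 l) : ℝ) - 2 ^ X / 2 + pm J w X t v.2 l) := by
  have hX : (0 : ℝ) < 2 ^ X := by positivity
  have ex : (((tq J w X t.2.1 : ℕ) : ℤ) : ℝ) / 2 ^ X = tx J w X t := by
    unfold tx
    push_cast
    rfl
  unfold pol
  rw [ex]
  obtain ⟨x, hx⟩ : ∃ x, x = tx J w X t := ⟨_, rfl⟩
  have e1 : ∑ m : Fin (2 * d + 1), (∑ s : Fin d,
      (if (s : ℕ) + 1 = (m : ℕ) then (v.2.2.2.2 u s : ℝ) / 2 ^ X else 0)) * x ^ (m : ℕ) * 2 ^ X =
      pg J w X t v.2 u := by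
    have f1 : ∀ m : Fin (2 * d + 1), (∑ s : Fin d,
        (if (s : ℕ) + 1 = (m : ℕ) then (v.2.2.2.2 u s : ℝ) / 2 ^ X else 0)) * x ^ (m : ℕ) *
          2 ^ X = ∑ s : Fin d, (if (s : ℕ) + 1 = (m : ℕ) then (v.2.2.2.2 u s : ℝ) / 2 ^ X
            else 0) * x ^ (m : ℕ) * 2 ^ X := fun m => by
      rw [Finset.sum_mul, Finset.sum_mul]
    rw [Finset.sum_congr rfl fun m _ => f1 m, Finset.sum_comm]
    unfold pg
    refine Finset.sum_congr rfl fun s _ => ?_
    rw [← Finset.sum_mul, sum_ind (by have := s.2; omega), ← hx]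
    field_simp
  have e2 : ∑ m : Fin (2 * d + 1), (∑ l : Fin k1, ∑ s : Fin (d + 1), ∑ s' : Fin (d + 1),
      (if (s : ℕ) + (s' : ℕ) = (m : ℕ) then jr v.1 s u l * (Yc X v.2 l s' / 2 ^ X) else 0)) *
        x ^ (m : ℕ) * 2 ^ X =
      ∑ l : Fin k1, (∑ s : Fin (d + 1), jr v.1 s u l * x ^ (s : ℕ)) *
        ∑ s' : Fin (d + 1), Yc X v.2 l s' * x ^ (s' : ℕ) := by
    have f1 : ∀ m : Fin (2 * d + 1), (∑ l : Fin k1, ∑ s : Fin (d + 1), ∑ s' : Fin (d + 1),
      (if (s : ℕ) + (s' : ℕ) = (m : ℕ) then jr v.1 s u l * (Yc X v.2 l s' / 2 ^ X) else 0)) *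
        x ^ (m : ℕ) * 2 ^ X = ∑ l : Fin k1, ∑ s : Fin (d + 1), ∑ s' : Fin (d + 1),
      (if (s : ℕ) + (s' : ℕ) = (m : ℕ) then jr v.1 s u l * (Yc X v.2 l s' / 2 ^ X) else 0) *
        x ^ (m : ℕ) * 2 ^ X := fun m => by
      simp only [Finset.sum_mul]
    rw [Finset.sum_congr rfl fun m _ => f1 m, Finset.sum_comm]
    refine Finset.sum_congr rfl fun l _ => ?_
    rw [Finset.sum_comm, Finset.sum_mul]
    refine Finset.sum_congr rfl fun s _ => ?_
    rw [Finset.sum_comm, Finset.mul_sum]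
    refine Finset.sum_congr rfl fun s' _ => ?_
    rw [← Finset.sum_mul, sum_ind (by have := s.2; have := s'.2; omega), pow_add]
    field_simp
  have e3 : ∀ m : Fin (2 * d + 1), beB X jr v m u * x ^ (m : ℕ) * 2 ^ X =
      (∑ s : Fin d, (if (s : ℕ) + 1 = (m : ℕ) then (v.2.2.2.2 u s : ℝ) / 2 ^ X else 0)) *
        x ^ (m : ℕ) * 2 ^ X - (∑ l : Fin k1, ∑ s : Fin (d + 1), ∑ s' : Fin (d + 1),
      (if (s : ℕ) + (s' : ℕ) = (m : ℕ) then jr v.1 s u l * (Yc X v.2 l s' / 2 ^ X) else 0)) *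
        x ^ (m : ℕ) * 2 ^ X := fun m => by
    unfold beB
    ring
  rw [← hx, Finset.sum_congr rfl fun m _ => e3 m, Finset.sum_sub_distrib, e1, e2]
  congr 1
  refine Finset.sum_congr rfl fun l _ => ?_
  rw [hx, Yc_sum]

/-- The formula at one sample. -/
theorem fB_near {N' : ℝ} (hN : 0 ≤ N') {t : TT G c k0 k1} {v : JT × VT G c k0 k1 d}
    (h0 : 0 ≤ tx J w X t) (h1 : tx J w X t ≤ 1) (hv : BV X v.2) (u : Fin c)
    (hj : ∀ l : Fin k1, |(t.2.2 u (Fin.natAdd k0 l) : ℝ) / 2 ^ X -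
      ∑ s : Fin (d + 1), jr v.1 s u l * tx J w X t ^ (s : ℕ)| ≤ N' / 2 ^ X) :
    |fB J w X jr t v u - hR J w X t v.2 u| ≤ N' * (1 + d) * k1 := by
  have hX : (0 : ℝ) < 2 ^ X := by positivity
  have e1 : fB J w X jr t v u - hR J w X t v.2 u =
      ∑ l : Fin k1, ((t.2.2 u (Fin.natAdd k0 l) : ℝ) / 2 ^ X -
        ∑ s : Fin (d + 1), jr v.1 s u l * tx J w X t ^ (s : ℕ)) *
        ((v.2.2.1 (Fin.natAdd k0 l) : ℝ) - 2 ^ X / 2 + pm J w X t v.2 l) := by
    have f1 : ∑ l : Fin k1, ((t.2.2 u (Fin.natAdd k0 l) : ℝ) / 2 ^ X -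
        ∑ s : Fin (d + 1), jr v.1 s u l * tx J w X t ^ (s : ℕ)) *
        ((v.2.2.1 (Fin.natAdd k0 l) : ℝ) - 2 ^ X / 2 + pm J w X t v.2 l) =
        ∑ l : Fin k1, (t.2.2 u (Fin.natAdd k0 l) : ℝ) / 2 ^ X * v.2.2.1 (Fin.natAdd k0 l) -
        ∑ l : Fin k1, (t.2.2 u (Fin.natAdd k0 l) : ℝ) / 2 +
        ∑ l : Fin k1, (t.2.2 u (Fin.natAdd k0 l) : ℝ) / 2 ^ X * pm J w X t v.2 l -
        ∑ l : Fin k1, (∑ s : Fin (d + 1), jr v.1 s u l * tx J w X t ^ (s : ℕ)) *
        ((v.2.2.1 (Fin.natAdd k0 l) : ℝ) - 2 ^ X / 2 + pm J w X t v.2 l) := by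
      rw [← Finset.sum_sub_distrib, ← Finset.sum_add_distrib, ← Finset.sum_sub_distrib]
      refine Finset.sum_congr rfl fun l _ => ?_
      have g1 : (t.2.2 u (Fin.natAdd k0 l) : ℝ) / 2 =
        (t.2.2 u (Fin.natAdd k0 l) : ℝ) / 2 ^ X * (2 ^ X / 2) := by field_simp
      rw [g1]
      ring
    rw [f1]
    unfold fB aB hR
    rw [pol_beB, Fin.sum_univ_add (f := fun a => (t.2.2 u a : ℝ) / 2 ^ X * (v.2.2.1 a : ℝ)),
      Fin.sum_univ_add (f := fun a => (t.2.2 u a : ℝ) / 2)]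
    ring
  rw [e1]
  refine (Pool.P5.sum_bd (e := N' * (1 + d)) fun l => ?_)
  have h2 : |(v.2.2.1 (Fin.natAdd k0 l) : ℝ) - 2 ^ X / 2 + pm J w X t v.2 l| ≤
      2 ^ X * (1 + d) := by
    have g1 := pm_bd h0 h1 hv l
    obtain ⟨g2, g3⟩ := hv.y (Fin.natAdd k0 l)
    have g2' : (0 : ℝ) ≤ v.2.2.1 (Fin.natAdd k0 l) := by exact_mod_cast g2
    have g3' : (v.2.2.1 (Fin.natAdd k0 l) : ℝ) ≤ 2 ^ X := by exact_mod_cast g3.le
    rw [abs_le] at g1 ⊢
    constructor <;> nlinarith [g1.1, g1.2]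
  rw [abs_mul]
  calc _ ≤ (N' / 2 ^ X) * (2 ^ X * (1 + d)) := mul_le_mul (hj l) h2 (abs_nonneg _) (by positivity)
    _ = _ := by field_simp

/-- The bound of the coefficients. -/
noncomputable def cE (d k1 : ℕ) (N : ℝ) : ℝ := d + N * (d + 1) * (d + 1) * k1

theorem cE_nn (d k1 : ℕ) {N : ℝ} (hN : 0 ≤ N) : 0 ≤ cE d k1 N := by
  unfold cE
  positivity

theorem Yc_bd {v : VT G c k0 k1 d} (hv : BV X v) (l : Fin k1) (s : Fin (d + 1)) :
    |Yc X v l s / 2 ^ X| ≤ 1 := by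
  have hX : (0 : ℝ) < 2 ^ X := by positivity
  rw [abs_div, abs_of_pos hX, div_le_one hX]
  unfold Yc
  refine Fin.cases ?_ (fun s => ?_) s
  · rw [Fin.cases_zero]
    obtain ⟨g2, g3⟩ := hv.y (Fin.natAdd k0 l)
    have g2' : (0 : ℝ) ≤ v.2.1 (Fin.natAdd k0 l) := by exact_mod_cast g2
    have g3' : (v.2.1 (Fin.natAdd k0 l) : ℝ) ≤ 2 ^ X := by exact_mod_cast g3.le
    rw [abs_le]
    constructor <;> linarith
  · rw [Fin.cases_succ]
    exact hv.m l s

theorem beB_bd {N : ℝ} (hN : 0 ≤ N) (hjr : ∀ jt s u l, |jr jt s u l| ≤ N)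
    {v : JT × VT G c k0 k1 d} (hv : BV X v.2) (m : Fin (2 * d + 1)) (u : Fin c) :
    |beB X jr v m u| ≤ cE d k1 N := by
  unfold beB cE
  have h1 : |∑ s : Fin d, (if (s : ℕ) + 1 = (m : ℕ) then (v.2.2.2.2 u s : ℝ) / 2 ^ X else 0)| ≤
      1 * (d : ℕ) := Pool.P5.sum_bd fun s => by
    split_ifs
    · exact div_bd (hv.b u s)
    · rw [abs_zero]
      exact zero_le_one
  have h2 : |∑ l : Fin k1, ∑ s : Fin (d + 1), ∑ s' : Fin (d + 1),
      (if (s : ℕ) + (s' : ℕ) = (m : ℕ) then jr v.1 s u l * (Yc X v.2 l s' / 2 ^ X) else 0)| ≤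
      (N * ((d + 1 : ℕ) : ℝ) * ((d + 1 : ℕ) : ℝ)) * (k1 : ℕ) :=
    Pool.P5.sum_bd fun l => Pool.P5.sum_bd fun s => Pool.P5.sum_bd fun s' => by
      split_ifs
      · rw [abs_mul]
        calc _ ≤ N * 1 := mul_le_mul (hjr _ _ _ _) (Yc_bd hv l s') (abs_nonneg _) hN
          _ = _ := mul_one _
      · rw [abs_zero]
        exact hN
  push_cast at h1 h2
  refine (abs_sub _ _).trans ?_
  linarith

end

section

variable {c k0 k1 : ℕ} (D : NDat2) (J w z i j r d X : ℕ) (C : ℝ) (P : D.Γ × D.Γ → ℕ → PN)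
  (S : Slo D) (ys : Fin (k0 + k1) → ℕ) (gs : Fin c → ℕ)

/-- **The second picture.** -/
noncomputable def qb (p : D.Ω → ℝ) (ρ : D.Ω → D.Ω) {JT : Type} (jq : D.Ω → JT)
    (jr : JT → Fin (d + 1) → Fin c → Fin k1 → ℝ) : QHd c k0 (2 * d) where
  Ω := D.Ω
  iΩ := D.fin
  B := ((D.Γ × D.Γ) × ℕ) × JT
  Vt := JT × VT D.Γ c k0 k1 d
  Tt := TT D.Γ c k0 k1
  p := p
  b := fun ω => (cb D J w i j r ω, jq ω)
  nu := fun ω => nuv D J w z i j r X C P gs (ρ ω)
  v := fun ω => (jq ω, vv D J w z i j r d X C P ys gs (ρ ω))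
  th := tv D J w z i j r X C S ys gs
  tau := fun t => (tq J w X t.2.1 : ℕ)
  E := fun t a u => (t.2.2 u (Fin.castAdd k1 a) : ℝ) / 2 ^ X
  y := fun v a => v.2.2.1 (Fin.castAdd k1 a)
  be := fun v => beB X jr v
  g := fun t v u => ⌊fB J w X jr t v u⌋
  a0 := fun t u => aB t u
  b0 := fun _ _ => 0

end

section

variable {D : NDat2} {n d K K' J a₀ w₀ z M w i j r r2 r' r'' y a X : ℕ} {th : ℝ}
  {lam gam : ℕ → ℝ} {κ C₁ C : ℝ} {q : D.Ω → ℝ} {E : D.Ω → Prop} {P : D.Γ × D.Γ → ℕ → PN}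
  {S : Slo D} {c k0 k1 : ℕ} {ys : Fin (k0 + k1) → ℕ} {gs : Fin c → ℕ}
  {i' : ℕ} {p : D.Ω → ℝ} {ρ : D.Ω → D.Ω} {JT : Type} {jq : D.Ω → JT}
  {jr : JT → Fin (d + 1) → Fin c → Fin k1 → ℝ}

/-- The constant of the bounds. -/
noncomputable def cBb (d k0 k1 : ℕ) (N : ℝ) : ℝ := 3 + cE d k1 N * (2 * d + 2) + 2 * k0

theorem cBb_ge (d k0 k1 : ℕ) {N : ℝ} (hN : 0 ≤ N) :
    3 ≤ cBb d k0 k1 N ∧ cE d k1 N ≤ cBb d k0 k1 N := by
  have h1 := cE_nn d k1 hN
  unfold cBb
  have h2 : 0 ≤ cE d k1 N * (2 * d) := by positivity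
  have h3 : (0 : ℝ) ≤ k0 := Nat.cast_nonneg _
  constructor <;> nlinarith

/-- The height of the second picture is bounded, at all samples. -/
theorem qb_bd {N : ℝ} (hN : 0 ≤ N) (hjr : ∀ jt s u l, |jr jt s u l| ≤ N) (hwX : w + X ≤ J)
    (ω : D.Ω) (u : Fin c) :
    |((qb (c := c) (k0 := k0) (k1 := k1) D J w z i j r d X C P S ys gs p ρ jq jr).hgt ω u : ℝ)| ≤
      cBb d k0 k1 N * 2 ^ X := by
  have hX : (1 : ℝ) ≤ 2 ^ X := one_le_pow₀ (by norm_num)
  obtain ⟨x0, x1⟩ := tx_bd (c := c) (k0 := k0) (k1 := k1) (D := D) (z := z) (i := i) (j := j)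
    (r := r) (C := C) (S := S) (ys := ys) (gs := gs) hwX ω
  have hv := vv_bv (d := d) (P := P) (D := D) (J := J) (w := w) (z := z) (i := i) (j := j)
    (r := r) (X := X) (C := C) (ys := ys) (gs := gs) (ρ ω)
  obtain ⟨t, ht⟩ : ∃ t, t = tv (c := c) (k0 := k0) (k1 := k1) D J w z i j r X C S ys gs ω :=
    ⟨_, rfl⟩
  obtain ⟨v, hv'⟩ : ∃ v : JT × VT D.Γ c k0 k1 d, v = (jq ω,
    vv (c := c) (k0 := k0) (k1 := k1) D J w z i j r d X C P ys gs (ρ ω)) := ⟨_, rfl⟩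
  have ht2 : ∀ u a, |(t.2.2 u a : ℝ)| ≤ 2 ^ X := fun u a => by
    rw [ht]
    exact tv_bd ω u a
  have hv2 : BV X v.2 := by
    rw [hv']
    exact hv
  rw [← ht] at x0 x1
  have e1 : (qb (c := c) (k0 := k0) (k1 := k1) D J w z i j r d X C P S ys gs p ρ jq jr).hgt ω u =
      nuv D J w z i j r X C P gs (ρ ω) u + ⌊fB J w X jr t v u⌋ := by
    rw [ht, hv']
    rfl
  have h1 : |pol X (beB X jr v) (tq J w X t.2.1 : ℕ) u| ≤
      (cE d k1 N * 2 ^ X) * ((2 * d + 1 : ℕ) : ℝ) := Pool.P5.sum_bd fun m => by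
    have ex : (((tq J w X t.2.1 : ℕ) : ℤ) : ℝ) / 2 ^ X = tx J w X t := by
      unfold tx
      push_cast
      rfl
    rw [ex, abs_mul, abs_mul, abs_of_pos (by positivity : (0 : ℝ) < 2 ^ X),
      abs_of_nonneg (pow_nonneg x0 _)]
    refine mul_le_mul_of_nonneg_right ?_ (by positivity)
    calc _ ≤ cE d k1 N * 1 := mul_le_mul (beB_bd hN hjr hv2 m u) (pow_le_one₀ x0 x1)
          (pow_nonneg x0 _) (cE_nn d k1 hN)
      _ = _ := mul_one _
  have h2 : |∑ a : Fin k0, (t.2.2 u (Fin.castAdd k1 a) : ℝ) / 2 ^ X *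
      v.2.2.1 (Fin.castAdd k1 a)| ≤ 2 ^ X * (k0 : ℕ) := Pool.P5.sum_bd fun a => by
    rw [abs_mul]
    calc _ ≤ (1 : ℝ) * 2 ^ X := mul_le_mul (div_bd (ht2 u _)) (hv2.y_abs _) (abs_nonneg _)
          zero_le_one
      _ = _ := one_mul _
  have h3 : |aB t u| ≤ 2 ^ X * (k0 : ℕ) := Pool.P5.sum_bd fun a => by
    rw [abs_div, abs_of_pos (by norm_num : (0 : ℝ) < 2)]
    have := ht2 u (Fin.castAdd k1 a)
    have := abs_nonneg (t.2.2 u (Fin.castAdd k1 a) : ℝ)
    linarith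
  have h4 : |(nuv D J w z i j r X C P gs (ρ ω) u : ℝ)| ≤ 2 ^ X := Pool.P4E.dg_abs X _
  have h5 := Int.floor_le (fB J w X jr t v u)
  have h6 := Int.lt_floor_add_one (fB J w X jr t v u)
  have h7 : fB J w X jr t v u = pol X (beB X jr v) (tq J w X t.2.1 : ℕ) u -
    ∑ a : Fin k0, (t.2.2 u (Fin.castAdd k1 a) : ℝ) / 2 ^ X * v.2.2.1 (Fin.castAdd k1 a) +
      aB t u := rfl
  rw [e1]
  push_cast at h1 ⊢
  have h8 : 0 ≤ cE d k1 N * 2 ^ X := mul_nonneg (cE_nn d k1 hN) (by positivity)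
  have h9 : cBb d k0 k1 N * 2 ^ X = 3 * 2 ^ X + (cE d k1 N * 2 ^ X) * (2 * d + 1) +
      cE d k1 N * 2 ^ X + 2 * (2 ^ X * k0) := by
    unfold cBb
    ring
  rw [h9]
  rw [h7] at h5 h6 ⊢
  rw [abs_le] at h1 h2 h3 h4 ⊢
  constructor <;> linarith [h1.1, h1.2, h2.1, h2.2, h3.1, h3.2, h4.1, h4.2]

/-- The constant of the near heights. -/
noncomputable def cNb (d k0 k1 : ℕ) (N' : ℝ) : ℝ := cN d k0 k1 + 1 + N' * (1 + d) * k1

theorem cNb_nn (d k0 k1 : ℕ) {N' : ℝ} (hN : 0 ≤ N') : 0 ≤ cNb d k0 k1 N' := by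
  have := cN_nn d k0 k1
  unfold cNb
  positivity

/-- The price of the second picture. -/
noncomputable def cC (c d k0 k1 : ℕ) (N' : ℝ) : ℝ :=
  2 * (c * lg (cNb d k0 k1 N')) + cV c d k0 k1 + k0 * lg 3

variable (H : Hyp D n d K K' J a₀ w₀ z M w i j r r2 r' r'' y a X th lam gam κ C₁ C q E P S ys gs)
  (h : Prm D J w z i j r i' M X C q E p ρ)

include H h

/-- **The height of the second picture is near to the own height of the sample.** -/
theorem qb_near {N' : ℝ} (hN' : 0 ≤ N') {ω : D.Ω} (hω : 0 < p ω)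
    (hj : ∀ u (l : Fin k1), |(Sv D z X C S ys gs ω u (Fin.natAdd k0 l) : ℝ) / 2 ^ X -
      ∑ s : Fin (d + 1), jr (jq ω) s u l * ((tq J w X (D.T ω) : ℝ) / 2 ^ X) ^ (s : ℕ)| ≤
        N' / 2 ^ X) (u : Fin c) :
    |((qb (c := c) (k0 := k0) (k1 := k1) D J w z i j r d X C P S ys gs p ρ jq jr).hgt ω u : ℝ) -
      hv (c := c) (k0 := k0) (k1 := k1) D z i j r X C P S gs n th gam ω u| ≤
      cNb d k0 k1 N' := by
  have h1 := Prm.hv_near H h hω u
  obtain ⟨x0, x1⟩ := tx_bd (c := c) (k0 := k0) (k1 := k1) (D := D) (z := z) (i := i) (j := j)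
    (r := r) (C := C) (S := S) (ys := ys) (gs := gs) H.wX ω
  have hv := vv_bv (d := d) (P := P) (D := D) (J := J) (w := w) (z := z) (i := i) (j := j)
    (r := r) (X := X) (C := C) (ys := ys) (gs := gs) (ρ ω)
  have h2 := fB_near (jr := jr) hN'
    (t := tv (c := c) (k0 := k0) (k1 := k1) D J w z i j r X C S ys gs ω)
    (v := (jq ω, vv (c := c) (k0 := k0) (k1 := k1) D J w z i j r d X C P ys gs (ρ ω)))
    x0 x1 hv u (fun l => hj u l)
  have e1 : ((qb (c := c) (k0 := k0) (k1 := k1) D J w z i j r d X C P S ys gs p ρ jq jr).hgt ω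
      u : ℝ) = (nuv D J w z i j r X C P gs (ρ ω) u : ℝ) + ((⌊fB J w X jr
        (tv (c := c) (k0 := k0) (k1 := k1) D J w z i j r X C S ys gs ω)
        (jq ω, vv (c := c) (k0 := k0) (k1 := k1) D J w z i j r d X C P ys gs (ρ ω)) u⌋ : ℤ) :
          ℝ) := by
    rw [← Int.cast_add]
    rfl
  have h5 := Int.floor_le (fB J w X jr
        (tv (c := c) (k0 := k0) (k1 := k1) D J w z i j r X C S ys gs ω)
        (jq ω, vv (c := c) (k0 := k0) (k1 := k1) D J w z i j r d X C P ys gs (ρ ω)) u)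
  have h6 := Int.lt_floor_add_one (fB J w X jr
        (tv (c := c) (k0 := k0) (k1 := k1) D J w z i j r X C S ys gs ω)
        (jq ω, vv (c := c) (k0 := k0) (k1 := k1) D J w z i j r d X C P ys gs (ρ ω)) u)
  rw [e1]
  unfold cNb
  rw [abs_le] at h1 h2 ⊢
  constructor <;> linarith [h1.1, h1.2, h2.1, h2.2]

/-- **The second picture satisfies the hypotheses of BODY.** -/
theorem qb_ok {RT : Type} {Rv : D.Ω → RT} (hρ : Det p Rv fun ω =>
      lv (c := c) (k0 := k0) (k1 := k1) D J w z i j r d X C P ys gs (ρ ω)) {N N' : ℝ} (hN : 0 ≤ N) (hN' : 0 ≤ N') (hjr : ∀ jt s u l, |jr jt s u l| ≤ N)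
    (hj : ∀ ω, 0 < p ω → ∀ u (l : Fin k1),
      |(Sv D z X C S ys gs ω u (Fin.natAdd k0 l) : ℝ) / 2 ^ X -
      ∑ s : Fin (d + 1), jr (jq ω) s u l * ((tq J w X (D.T ω) : ℝ) / 2 ^ X) ^ (s : ℕ)| ≤
        N' / 2 ^ X)
    {e0 e2 e3 et ej : ℝ}
    (p0 : 0 ≤ e0) (p2 : 0 ≤ e2) (p3 : 0 ≤ e3) (pt : 0 ≤ et)
    (h0 : CH p (tv (c := c) (k0 := k0) (k1 := k1) D J w z i j r X C S ys gs) (cb D J w i j r) ≤
      CH p (tv (c := c) (k0 := k0) (k1 := k1) D J w z i j r X C S ys gs)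
        (fun ω => (Rv ω, cb D J w i j r ω)) + e0)
    (h2 : CH p (hv (c := c) (k0 := k0) (k1 := k1) D z i j r X C P S gs n th gam)
        (tv (c := c) (k0 := k0) (k1 := k1) D J w z i j r X C S ys gs) ≤
      CH p (hv (c := c) (k0 := k0) (k1 := k1) D z i j r X C P S gs n th gam)
        (fun ω => (vv (c := c) (k0 := k0) (k1 := k1) D J w z i j r d X C P ys gs ω,
          tv (c := c) (k0 := k0) (k1 := k1) D J w z i j r X C S ys gs ω)) + e2)
    (hy : (k0 : ℝ) * X * Real.log 2 ≤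
      CH p (y0v (k0 := k0) (k1 := k1) D J w z i j r X C P ys) (cb D J w i j r) + e3)
    (ht : X * Real.log 2 ≤ CH p (fun ω => tq J w X (D.T ω)) (cb D J w i j r) + et)
    (hej : CH p jq (cb D J w i j r) ≤ ej) :
    (qb (c := c) (k0 := k0) (k1 := k1) D J w z i j r d X C P S ys gs p ρ jq jr).OkNS X
      (cBb d k0 k1 N) (e0 + e2 + e3 + et + 3 * ej + cC c d k0 k1 N') := by
  have hq := h.law
  have hp := hq.nonneg
  obtain ⟨hB1, hB2⟩ := cBb_ge d k0 k1 hN
  have hcN := cNb_nn d k0 k1 hN'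
  have pj : 0 ≤ ej := (CH_nonneg hp _ _).trans hej
  have l1 : 0 ≤ lg (cNb d k0 k1 N') := lg_nn hcN
  have l3 : 0 ≤ lg 3 := lg_nn (by norm_num)
  have n1 : 0 ≤ 2 * ((c : ℝ) * lg (cNb d k0 k1 N')) := by positivity
  have n2 : 0 ≤ cV c d k0 k1 := by
    unfold cV
    positivity
  have n3 : 0 ≤ (k0 : ℝ) * lg 3 := by positivity
  have hA : cC c d k0 k1 N' = 2 * (c * lg (cNb d k0 k1 N')) + cV c d k0 k1 + k0 * lg 3 := rfl
  -- the context is known from the digits and the base context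
  have hL : Det p (fun ω => (jq ω, (Rv ω, cb D J w i j r ω)))
      (fun ω => (cb D J w i j r ω, jq ω)) := by
    intro ω ω' _ _ e
    have e1 := Prod.ext_iff.1 e
    exact Prod.ext (Prod.ext_iff.1 e1.2).2 e1.1
  refine
    { law := hq
      tau_r := ?_
      y_r := ?_
      E_b := ?_
      be_b := ?_
      hgt_b := ?_
      g_eq := ?_
      h0 := ?_
      h2 := ?_
      y_f := ?_
      t_f := ?_ }
  · intro ω
    change 0 ≤ ((tq J w X (D.T ω) : ℕ) : ℤ) ∧ ((tq J w X (D.T ω) : ℕ) : ℤ) < 2 ^ X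
    exact ⟨Int.natCast_nonneg _, by exact_mod_cast tq_lt H.wX⟩
  · intro ω a
    exact yv_rg (ρ ω) (Fin.castAdd k1 a)
  · intro ω a u
    exact (div_bd (tv_bd (S := S) (C := C) (z := z) (i := i) (j := j) (r := r) (J := J) (w := w)
      (ys := ys) (gs := gs) ω u (Fin.castAdd k1 a))).trans (by linarith)
  · intro ω s u
    exact (beB_bd (v := (jq ω, vv (c := c) (k0 := k0) (k1 := k1) D J w z i j r d X C P ys gs
      (ρ ω))) hN hjr (vv_bv (ρ ω)) s u).trans hB2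
  · intro ω u
    exact qb_bd hN hjr H.wX ω u
  · intro ω ω' u
    have h3 := Int.floor_le (fB J w X jr
      (tv (c := c) (k0 := k0) (k1 := k1) D J w z i j r X C S ys gs ω)
      (jq ω', vv (c := c) (k0 := k0) (k1 := k1) D J w z i j r d X C P ys gs (ρ ω')) u)
    have h4 := Int.lt_floor_add_one (fB J w X jr
      (tv (c := c) (k0 := k0) (k1 := k1) D J w z i j r X C S ys gs ω)
      (jq ω', vv (c := c) (k0 := k0) (k1 := k1) D J w z i j r d X C P ys gs (ρ ω')) u)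
    change |((⌊fB J w X jr
      (tv (c := c) (k0 := k0) (k1 := k1) D J w z i j r X C S ys gs ω)
      (jq ω', vv (c := c) (k0 := k0) (k1 := k1) D J w z i j r d X C P ys gs (ρ ω')) u⌋ : ℤ) : ℝ) -
      (fB J w X jr
      (tv (c := c) (k0 := k0) (k1 := k1) D J w z i j r X C S ys gs ω)
      (jq ω', vv (c := c) (k0 := k0) (k1 := k1) D J w z i j r d X C P ys gs (ρ ω')) u + 0)| ≤ _
    rw [add_zero, abs_le]
    constructor <;> linarith
  · -- the time is almost independent of the line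
    have a1 := Prm.h0 (S := S) (ys := ys) (gs := gs) h
      (tt := (qb (c := c) (k0 := k0) (k1 := k1) D J w z i j r d X C P S ys gs p ρ jq jr).th)
      (b := (qb (c := c) (k0 := k0) (k1 := k1) D J w z i j r d X C P S ys gs p ρ jq jr).b)
      (L := (qb (c := c) (k0 := k0) (k1 := k1) D J w z i j r d X C P S ys gs p ρ jq jr).line)
      (Rv := Rv) (jq := jq) ?_ ?_ ?_ ?_ h0 hej
    · have a2 : CH (qb (c := c) (k0 := k0) (k1 := k1) D J w z i j r d X C P S ys gs p ρ jq jr).p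
        (qb (c := c) (k0 := k0) (k1 := k1) D J w z i j r d X C P S ys gs p ρ jq jr).th
        (qb (c := c) (k0 := k0) (k1 := k1) D J w z i j r d X C P S ys gs p ρ jq jr).b ≤
        CH (qb (c := c) (k0 := k0) (k1 := k1) D J w z i j r d X C P S ys gs p ρ jq jr).p
        (qb (c := c) (k0 := k0) (k1 := k1) D J w z i j r d X C P S ys gs p ρ jq jr).th
        (qb (c := c) (k0 := k0) (k1 := k1) D J w z i j r d X C P S ys gs p ρ jq jr).line +
          (e0 + ej) := a1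
      linarith
    · intro ω ω' _ _ e
      exact (Prod.ext_iff.1 e).1
    · intro ω ω' _ _ e
      exact (Prod.ext_iff.1 e).1
    · intro ω ω' a b e
      have e1 : (cb D J w i j r ω, jq ω) = (cb D J w i j r ω', jq ω') := hL ω ω' a b e
      have e2 : lv (c := c) (k0 := k0) (k1 := k1) D J w z i j r d X C P ys gs (ρ ω) =
          lv (c := c) (k0 := k0) (k1 := k1) D J w z i j r d X C P ys gs (ρ ω') :=
        hρ ω ω' a b (Prod.ext_iff.1 (Prod.ext_iff.1 e).2).1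
      have e3 := Prod.ext_iff.1 e2
      exact Prod.ext e3.1 (Prod.ext (Prod.ext (Prod.ext_iff.1 e1).2 e3.2) e1)
    · intro ω ω' _ _ e
      exact e
  · -- the height
    have a1 := Prm.h2 (S := S) (ys := ys) (gs := gs) (P := P) (d := d) (n := n) (th := th)
      (gam := gam) h
      (Tb := fun ω => ((qb (c := c) (k0 := k0) (k1 := k1) D J w z i j r d X C P S ys gs p ρ jq
        jr).th ω,
        (qb (c := c) (k0 := k0) (k1 := k1) D J w z i j r d X C P S ys gs p ρ jq jr).b ω))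
      (Vb := fun ω => ((qb (c := c) (k0 := k0) (k1 := k1) D J w z i j r d X C P S ys gs p ρ jq
        jr).v ω,
        ((qb (c := c) (k0 := k0) (k1 := k1) D J w z i j r d X C P S ys gs p ρ jq jr).th ω,
        (qb (c := c) (k0 := k0) (k1 := k1) D J w z i j r d X C P S ys gs p ρ jq jr).b ω)))
      (g := (qb (c := c) (k0 := k0) (k1 := k1) D J w z i j r d X C P S ys gs p ρ jq jr).hgt)
      (N := cNb d k0 k1 N') (eV := ej + cV c d k0 k1)
      (fun ω hω u => qb_near H h hN' hω (hj ω hω) u) ?_ ?_ h2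
    · have a2 : CH (qb (c := c) (k0 := k0) (k1 := k1) D J w z i j r d X C P S ys gs p ρ jq jr).p
        (qb (c := c) (k0 := k0) (k1 := k1) D J w z i j r d X C P S ys gs p ρ jq jr).hgt
        (fun ω => ((qb (c := c) (k0 := k0) (k1 := k1) D J w z i j r d X C P S ys gs p ρ jq
          jr).th ω,
        (qb (c := c) (k0 := k0) (k1 := k1) D J w z i j r d X C P S ys gs p ρ jq jr).b ω)) ≤
        CH (qb (c := c) (k0 := k0) (k1 := k1) D J w z i j r d X C P S ys gs p ρ jq jr).p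
        (qb (c := c) (k0 := k0) (k1 := k1) D J w z i j r d X C P S ys gs p ρ jq jr).hgt
        (fun ω => ((qb (c := c) (k0 := k0) (k1 := k1) D J w z i j r d X C P S ys gs p ρ jq
          jr).v ω,
        ((qb (c := c) (k0 := k0) (k1 := k1) D J w z i j r d X C P S ys gs p ρ jq jr).th ω,
        (qb (c := c) (k0 := k0) (k1 := k1) D J w z i j r d X C P S ys gs p ρ jq jr).b ω))) +
          (e2 + 2 * (c * lg (cNb d k0 k1 N')) + (ej + cV c d k0 k1)) := a1
      linarith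
    · intro ω ω' _ _ e
      exact (Prod.ext_iff.1 e).1
    · -- the digits and the data of the representative are few
      have b1 := CH_le_add hp (fun ω => ((qb (c := c) (k0 := k0) (k1 := k1) D J w z i j r d X C P
        S ys gs p ρ jq jr).v ω,
        ((qb (c := c) (k0 := k0) (k1 := k1) D J w z i j r d X C P S ys gs p ρ jq jr).th ω,
        (qb (c := c) (k0 := k0) (k1 := k1) D J w z i j r d X C P S ys gs p ρ jq jr).b ω))) jq
        (fun ω => (vv (c := c) (k0 := k0) (k1 := k1) D J w z i j r d X C P ys gs ω,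
          tv (c := c) (k0 := k0) (k1 := k1) D J w z i j r X C S ys gs ω))
      have b2 : CH p jq (fun ω =>
          (vv (c := c) (k0 := k0) (k1 := k1) D J w z i j r d X C P ys gs ω,
          tv (c := c) (k0 := k0) (k1 := k1) D J w z i j r X C S ys gs ω)) ≤ ej :=
        (CH_mono_cond hp fun ω ω' _ _ e =>
          (Prod.ext_iff.1 (Prod.ext_iff.1 e).2).1).trans hej
      have b3 : CH p (fun ω => ((qb (c := c) (k0 := k0) (k1 := k1) D J w z i j r d X C P
        S ys gs p ρ jq jr).v ω,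
        ((qb (c := c) (k0 := k0) (k1 := k1) D J w z i j r d X C P S ys gs p ρ jq jr).th ω,
        (qb (c := c) (k0 := k0) (k1 := k1) D J w z i j r d X C P S ys gs p ρ jq jr).b ω)))
        (fun ω => (jq ω, (vv (c := c) (k0 := k0) (k1 := k1) D J w z i j r d X C P ys gs ω,
          tv (c := c) (k0 := k0) (k1 := k1) D J w z i j r X C S ys gs ω))) ≤ cV c d k0 k1 := by
        refine le_trans (CH_mono_left hp ?_) (Prm.vv_few H h (W := fun ω => (jq ω,
          (vv (c := c) (k0 := k0) (k1 := k1) D J w z i j r d X C P ys gs ω,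
          tv (c := c) (k0 := k0) (k1 := k1) D J w z i j r X C S ys gs ω)))
          fun ω ω' _ _ e => (Prod.ext_iff.1 (Prod.ext_iff.1 e).2).1)
        intro ω ω' _ _ e
        have e1 := Prod.ext_iff.1 e
        have e2 : vv (c := c) (k0 := k0) (k1 := k1) D J w z i j r d X C P ys gs (ρ ω) =
          vv (c := c) (k0 := k0) (k1 := k1) D J w z i j r d X C P ys gs (ρ ω') := e1.1
        have e5 : jq ω = jq ω' := (Prod.ext_iff.1 e1.2).1
        have e3 : tv (c := c) (k0 := k0) (k1 := k1) D J w z i j r X C S ys gs ω =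
          tv (c := c) (k0 := k0) (k1 := k1) D J w z i j r X C S ys gs ω' :=
          (Prod.ext_iff.1 (Prod.ext_iff.1 e1.2).2).2
        exact Prod.ext (Prod.ext e5 e2) (Prod.ext e3 (Prod.ext (Prod.ext_iff.1 e3).1 e5))
      have b4 := b1.trans (add_le_add b2 b3)
      exact b4
  · -- the slow variables
    have a1 := CH_near2 hq (y0v (k0 := k0) (k1 := k1) D J w z i j r X C P ys)
      (fun ω => (qb (c := c) (k0 := k0) (k1 := k1) D J w z i j r d X C P S ys gs p ρ jq jr).y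
        ((qb (c := c) (k0 := k0) (k1 := k1) D J w z i j r d X C P S ys gs p ρ jq jr).v ω))
      (cb D J w i j r)
      (qb (c := c) (k0 := k0) (k1 := k1) D J w z i j r d X C P S ys gs p ρ jq jr).b (N := 3)
      (fun ω hω a => (Prm.nv (gs := gs) H h hω).y (Fin.castAdd k1 a))
    have a2 : CH p (qb (c := c) (k0 := k0) (k1 := k1) D J w z i j r d X C P S ys gs p ρ jq jr).b
      (cb D J w i j r) ≤ ej := by
      refine le_trans (CH_mono_left hp ?_) hej
      intro ω ω' _ _ e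
      have e1 := Prod.ext_iff.1 e
      exact Prod.ext e1.2 e1.1
    rw [Fintype.card_fin] at a1
    change _ ≤ CH p (fun ω => (qb (c := c) (k0 := k0) (k1 := k1) D J w z i j r d X C P S ys gs
        p ρ jq jr).y ((qb (c := c) (k0 := k0) (k1 := k1) D J w z i j r d X C P S ys gs p ρ jq
          jr).v ω))
          (qb (c := c) (k0 := k0) (k1 := k1) D J w z i j r d X C P S ys gs p ρ jq jr).b
    linarith
  · -- the time
    have a1 := Prm.tf (S := S) (ys := ys) (gs := gs) h (b := (qb (c := c) (k0 := k0) (k1 := k1)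
      D J w z i j r d X C P S ys gs p ρ jq jr).b) (Rv := Rv) hL h0 ht hej
    change _ ≤ CH p (fun ω => ((tq J w X (D.T ω) : ℕ) : ℤ))
          (qb (c := c) (k0 := k0) (k1 := k1) D J w z i j r d X C P S ys gs p ρ jq jr).b
    linarith

end

end Pool.TC
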