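import Pool.Agent.H48.TC.Stm
import Pool.Agent.H25.P5.Bas

/-!
# TC: units, digits, sums over the slow coordinates
-/

set_option autoImplicit false

namespace Pool.TC

open Finset Real MvPolynomial
open Pool.Agent.H49.Ent Pool.Agent.H32.Dense Pool.STK Pool.STAT Pool.MIC.Frm Pool.MIC7 Pool.FRM
open Pool.GSD Pool.POT
open Pool.BFL (Pb)
open Pool.P4 (t0 rt pp PthC FraC bb ze zt z0 cl1 dg dgp Ry cb LLC tq GoodS FrP err
  dg_near dg_abs dgp_near dgp_abs c_up Ry_pos rt_near)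
open Pool.P5 (sum_pred mul_nearR sum_near sum_bd)

theorem Rg_pos (z : ℕ) (C : ℝ) : 0 < Rg z C := by
  unfold Rg
  positivity

theorem Rg_eq (z : ℕ) (C : ℝ) : Rg z C = 2 * (exp (C * z) * exp (C * z)) := by
  unfold Rg
  rw [← Real.exp_add]
  congr 2
  ring

/-- A coordinate is slow or in the group. -/
theorem sl_or_gr {n : ℕ} {th : ℝ} {gam : ℕ → ℝ} {l : ℕ} (hn : th ≤ gam n) (h1 : 1 ≤ l)
    (h2 : l ≤ n) : sl th gam n l ∨ gr th gam n l := by
  rcases le_or_gt th (gam l) with h | h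
  · exact Or.inr ⟨h1, h2, h⟩
  · refine Or.inl ⟨h1, ?_, h⟩
    rcases h2.eq_or_lt with e | e
    · rw [e] at h
      exact absurd h (not_lt.2 hn)
    · exact e

section

variable {D : NDat2} {n d K K' J a₀ w₀ z M w i j r r2 r' r'' y a X : ℕ} {th : ℝ}
  {lam gam : ℕ → ℝ} {κ C₁ C : ℝ} {q : D.Ω → ℝ} {E : D.Ω → Prop} {P : D.Γ × D.Γ → ℕ → PN}
  {S : Slo D} {c k0 k1 : ℕ} {ys : Fin (k0 + k1) → ℕ} {gs : Fin c → ℕ}
  (H : Hyp D n d K K' J a₀ w₀ z M w i j r r2 r' r'' y a X th lam gam κ C₁ C q E P S ys gs)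

include H

theorem Hyp.e1 : 1 ≤ exp (C * z) := by
  have h1 : (1 : ℝ) ≤ z := by exact_mod_cast H.z1
  have h2 := H.Cg
  exact Real.one_le_exp (by nlinarith)

theorem Hyp.tau : 2 ^ X * (exp (C * z) / 2 ^ (y * z)) ≤ 1 := by
  have h0 : (0 : ℝ) < 2 ^ (y * z) := by positivity
  rw [← mul_div_assoc, div_le_one h0, mul_comm]
  exact H.yX

theorem Hyp.wX : w + X ≤ J := by
  obtain ⟨x, hx, hx'⟩ := H.Xz
  have h1 := H.ok.thin
  have h2 := H.ok.top
  have h3 := H.w2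
  have h4 := H.j2
  have h5 : (j + 1) * z ≤ (M + 1) * z := Nat.mul_le_mul_right _ (by omega)
  have h6 : x * z ≤ (M + 1) * z := Nat.mul_le_mul_right _ (by omega)
  rw [hx]
  omega

theorem Hyp.exp_le_Rg : exp (C * z) ≤ Rg z C := by
  have h1 := H.e1
  rw [Rg_eq]
  nlinarith [Real.exp_pos (C * z)]

theorem Hyp.one_Rg : 1 ≤ Rg z C := H.e1.trans H.exp_le_Rg

theorem Hyp.one_Ry : 1 ≤ Ry z C := H.e1

theorem Hyp.ys_n (b : Fin (k0 + k1)) : 1 ≤ ys b ∧ ys b ≤ n :=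
  ⟨(H.ys_sl b).1, (H.ys_sl b).2.1.le⟩

theorem Hyp.gs_n (u : Fin c) : 1 ≤ gs u ∧ gs u ≤ n :=
  ⟨(H.gs_gr u).1, (H.gs_gr u).2.1⟩

theorem Hyp.b0 : 0 ≤ Pb q (fun ω => ¬ E ω) := Pool.MIC.Pb_nonneg H.ok.isLaw.nonneg _

theorem Hyp.xb : 0 ≤ (z : ℝ) + X * Pb q (fun ω => ¬ E ω) := by
  have := H.b0
  positivity

/-- A slope in the units of the digits. -/
theorem Hyp.S_le {s : ℝ} (hs : |s| ≤ exp (C * z)) : |s * (2 * Ry z C)| ≤ Rg z C := by
  have hRy := Ry_pos z C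
  rw [Rg_eq, abs_mul, abs_of_pos (by positivity : (0 : ℝ) < 2 * Ry z C)]
  unfold Ry
  have := Real.exp_pos (C * z)
  nlinarith [mul_le_mul_of_nonneg_right hs this.le]

theorem Hyp.S_le1 {s : ℝ} (hs : |s| ≤ exp (C * z)) : |s * (2 * Ry z C) / Rg z C| ≤ 1 := by
  have hR := Rg_pos z C
  rw [abs_div, abs_of_pos hR, div_le_one hR]
  exact H.S_le hs

theorem Hyp.Ry_Rg : 2 * Ry z C / Rg z C ≤ 1 := by
  have := H.S_le1 (s := 1) (by
    rw [abs_one]
    exact H.e1)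
  rw [one_mul] at this
  exact (le_abs_self _).trans this

/-- The closed contexts of a deeper radius. -/
theorem Hyp.up {i' : ℕ} (hi : i ≤ i') (hM : i' + r'' < M) {ω ω' : D.Ω} (hω : 0 < q ω)
    (hω' : 0 < q ω') (e : (D.c (i - 1) (j - r) ω, (D.c i' j ω, D.T ω)) =
      (D.c (i - 1) (j - r) ω', (D.c i' j ω', D.T ω'))) :
    bb D i j r ω = bb D i j r ω' ∧ D.c i' j ω = D.c i' j ω' ∧ D.T ω = D.T ω' := by
  have h1 := (Prod.ext_iff.mp e).1
  have h2 := (Prod.ext_iff.mp e).2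
  have h3 := (Prod.ext_iff.mp h2).1
  have h4 := (Prod.ext_iff.mp h2).2
  have j2 := H.j2
  have h5 : D.c i j ω = D.c i j ω' := by
    have := c_up H.ok (j := j) (by omega) i (i' - i) (by omega)
    rw [show i + (i' - i) = i' by omega] at this
    exact this ω ω' hω hω' h3
  exact ⟨Prod.ext h5 h1, h3, h4⟩

open Classical in
/-- Sums over the slow coordinates. -/
theorem Hyp.sum_sl (f : ℕ → ℝ) : ∑ l ∈ (range n).filter (sl th gam n), f l = ∑ b, f (ys b) :=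
  sum_pred (fun b => (H.ys_sl b).2.1) H.ys_sl H.ys_in (fun _ hl => H.ys_on hl) f

open Classical in
/-- Sums over the constant slow coordinates. -/
theorem Hyp.sum_sl0 (f : ℕ → ℝ) :
    ∑ l ∈ (range n).filter (sl0 th gam n), f l = ∑ b : Fin k0, f (ys (Fin.castAdd k1 b)) :=
  sum_pred (ys := fun b : Fin k0 => ys (Fin.castAdd k1 b)) (fun b => (H.ys0 b).1.2.1) H.ys0
    (fun _ _ h => Fin.castAdd_injective _ _ (H.ys_in h)) H.ys_on0 f

open Classical in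
/-- Sums over the moving slow coordinates. -/
theorem Hyp.sum_sl1 (f : ℕ → ℝ) :
    ∑ l ∈ (range n).filter (sl1 th gam n), f l = ∑ b : Fin k1, f (ys (Fin.natAdd k0 b)) :=
  sum_pred (ys := fun b : Fin k1 => ys (Fin.natAdd k0 b)) (fun b => (H.ys1 b).1.2.1) H.ys1
    (fun _ _ h => Fin.natAdd_injective _ _ (H.ys_in h)) H.ys_on1 f

/-- The height over the own sheet, sums over the enumerated slow coordinates. -/
theorem Hyp.nn_eq (ω : D.Ω) (u : ℕ) : nn D n i j r th gam P S.S ω u =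
    ze D i j r P ω u - ∑ b, S.S ω u (ys b) * ze D i j r P ω (ys b) := by
  unfold nn hs
  rw [H.sum_sl (fun k => S.S ω u k * ze D i j r P ω k)]

/-- The height of a moving slow coordinate over its own sheet. -/
theorem Hyp.la_eq (ω : D.Ω) (u : ℕ) : la D n i j r th gam P S.El ω u =
    ze D i j r P ω u - ∑ b : Fin k0, S.El ω u (ys (Fin.castAdd k1 b)) *
      ze D i j r P ω (ys (Fin.castAdd k1 b)) := by
  unfold la hs
  rw [H.sum_sl0 (fun k => S.El ω u k * ze D i j r P ω k)]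

end

end Pool.TC
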