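import Pool.Agent.H48.TC.Pic
import Pool.Agent.H64.BD.Dd
import Pool.Agent.H16.P4.Prp

/-!
# TC: a deeper representative of the line

`Prm`: a law `p` on good samples and a map `ρ` of the samples with `ρ ω` in the context of `ω` at
`(i', j)`. The data of the line of `ρ ω` are near to the data of the line of `ω`; entropies.
-/

set_option autoImplicit false

namespace Pool.TC

open Finset Real
open Pool.Agent.H49.Ent Pool.Agent.H32.Dense Pool.STK Pool.STAT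
open Pool.BFL (Pb)
open Pool.BD64 (QHd pol)
open Pool.P4 (t0 rt pp PthC FraC bb ze zt z0 cl1 dg dgp Ry cb LLC tq GoodS FrP err
  dg_near dg_abs dgp_near dgp_abs c_up Ry_pos rt_near)
open Pool.P4E (few_vec use_gen)

/-! ### Entropies -/

section

variable {Ω T A B A' B' : Type} [Fintype Ω] {p : Ω → ℝ}

/-- The number of bits of a bounded error. -/
noncomputable def lg (N : ℝ) : ℝ := Real.log (4 * N + 1)

theorem lg_nn {N : ℝ} (hN : 0 ≤ N) : 0 ≤ lg N := Real.log_nonneg (by linarith)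

/-- An integer vector near to a function of the condition. -/
theorem CH_shift {ι : Type} [Fintype ι] (hp : IsLaw p) {U U' : Ω → ι → ℤ} {W : Ω → T} {N : ℝ}
    (h : ∀ ω, 0 < p ω → ∀ k, |(U' ω k : ℝ) - U ω k| ≤ N) (hW : Det p W U) :
    CH p U' W ≤ Fintype.card ι * lg N := by
  have e := Fintype.equivFin ι
  have h1 := CH_le_vec hp.nonneg hp.sum_one (fun ω k => U' ω (e.symm k)) W (fun _ => 2 * N) (by
    intro ω ω' a b hh k
    have e1 := hW ω ω' a b hh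
    have e2 := h ω a (e.symm k)
    have e3 := h ω' b (e.symm k)
    rw [← e1] at e3
    push_cast
    rw [abs_le] at e2 e3 ⊢
    constructor <;> linarith [e2.1, e2.2, e3.1, e3.2])
  have h2 : Ex p (fun _ => Real.log (2 * (2 * N) + 1)) = lg N := by
    unfold Ex lg
    rw [← Finset.sum_mul, hp.sum_one, one_mul]
    congr 1
    ring
  rw [h2] at h1
  refine le_trans (CH_mono_left hp.nonneg ?_) h1
  intro ω ω' _ _ hh
  have h3 := congrFun (Prod.ext_iff.1 hh).1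
  funext i
  have := h3 (e i)
  simpa using this

/-- A change of the variable and of the condition. -/
theorem CH_sub2 (hp : ∀ ω, 0 ≤ p ω) (U : Ω → A) (W : Ω → B) (U' : Ω → A') (W' : Ω → B') :
    CH p U W ≤ CH p U' W' + CH p U (fun ω => (U' ω, W' ω)) + CH p W' W := by
  have h1 := CH_le_add hp U W' W
  have h2 : CH p U (fun ω => (W' ω, W ω)) ≤ CH p U W' :=
    CH_mono_cond hp fun ω ω' _ _ e => (Prod.ext_iff.1 e).1
  have h3 := CH_le_add hp U U' W'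
  linarith

/-- A near integer vector, the condition changed. -/
theorem CH_near2 {ι : Type} [Fintype ι] (hp : IsLaw p) (U U' : Ω → ι → ℤ) (W : Ω → B)
    (W' : Ω → B') {N : ℝ} (h : ∀ ω, 0 < p ω → ∀ k, |(U' ω k : ℝ) - U ω k| ≤ N) :
    CH p U W ≤ CH p U' W' + Fintype.card ι * lg N + CH p W' W := by
  have h1 := CH_sub2 hp.nonneg U W U' W'
  have h2 := CH_shift hp (U := U') (U' := U) (W := fun ω => (U' ω, W' ω)) (N := N)
    (fun ω hω k => by rw [abs_sub_comm]; exact h ω hω k)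
    (fun ω ω' _ _ e => (Prod.ext_iff.1 e).1)
  linarith

end

/-! ### Near data of a line -/

section

variable {G : Type} {c k0 k1 d : ℕ}

/-- Near data. -/
structure NV (N : ℝ) (v v' : VT G c k0 k1 d) : Prop where
  y : ∀ a, |(v.2.1 a : ℝ) - v'.2.1 a| ≤ N
  m : ∀ l s, |(v.2.2.1 l s : ℝ) - v'.2.2.1 l s| ≤ N
  b : ∀ u s, |(v.2.2.2 u s : ℝ) - v'.2.2.2 u s| ≤ N

/-- Bounded data. -/
structure BV (X : ℕ) (v : VT G c k0 k1 d) : Prop where
  y : ∀ a, 0 ≤ v.2.1 a ∧ v.2.1 a < 2 ^ X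
  m : ∀ l s, |(v.2.2.1 l s : ℝ)| ≤ 2 ^ X
  b : ∀ u s, |(v.2.2.2 u s : ℝ)| ≤ 2 ^ X

theorem BV.y_abs {X : ℕ} {v : VT G c k0 k1 d} (h : BV X v) (a : Fin (k0 + k1)) :
    |(v.2.1 a : ℝ)| ≤ 2 ^ X := by
  obtain ⟨h1, h2⟩ := h.y a
  have h1' : (0 : ℝ) ≤ v.2.1 a := by exact_mod_cast h1
  have h2' : (v.2.1 a : ℝ) ≤ 2 ^ X := by exact_mod_cast h2.le
  rw [abs_of_nonneg h1']
  exact h2'

theorem div_bd {X : ℕ} {a : ℤ} (h : |(a : ℝ)| ≤ 2 ^ X) : |(a : ℝ) / 2 ^ X| ≤ 1 := by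
  have hX : (0 : ℝ) < 2 ^ X := by positivity
  rw [abs_div, abs_of_pos hX, div_le_one hX]
  exact h

/-- A sum of powers of the time with bounded coefficients. -/
theorem psum_bd {x N : ℝ} (hx0 : 0 ≤ x) (hx1 : x ≤ 1) {f : Fin d → ℝ}
    (hf : ∀ s, |f s| ≤ N) : |∑ s : Fin d, x ^ ((s : ℕ) + 1) * f s| ≤ N * d :=
  Pool.P5.sum_bd fun s => by
    rw [abs_mul, abs_of_nonneg (pow_nonneg hx0 _)]
    exact (mul_le_of_le_one_left (abs_nonneg _) (pow_le_one₀ hx0 hx1)).trans (hf s)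

variable {J w X : ℕ} {t : TT G c k0 k1} {v v' : VT G c k0 k1 d} {N : ℝ}

theorem pg_bd (h0 : 0 ≤ tx J w X t) (h1 : tx J w X t ≤ 1) (hv : BV X v) (u : Fin c) :
    |pg J w X t v u| ≤ 2 ^ X * d := psum_bd h0 h1 fun s => hv.b u s

theorem pm_bd (h0 : 0 ≤ tx J w X t) (h1 : tx J w X t ≤ 1) (hv : BV X v) (l : Fin k1) :
    |pm J w X t v l| ≤ 2 ^ X * d := psum_bd h0 h1 fun s => hv.m l s

theorem pg_sub (h0 : 0 ≤ tx J w X t) (h1 : tx J w X t ≤ 1) (hv : NV N v v') (u : Fin c) :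
    |pg J w X t v u - pg J w X t v' u| ≤ N * d := by
  unfold pg
  rw [← Finset.sum_sub_distrib]
  refine le_trans (le_of_eq ?_) (psum_bd h0 h1 fun s => hv.b u s)
  congr 1
  exact Finset.sum_congr rfl fun s _ => by ring

theorem pm_sub (h0 : 0 ≤ tx J w X t) (h1 : tx J w X t ≤ 1) (hv : NV N v v') (l : Fin k1) :
    |pm J w X t v l - pm J w X t v' l| ≤ N * d := by
  unfold pm
  rw [← Finset.sum_sub_distrib]
  refine le_trans (le_of_eq ?_) (psum_bd h0 h1 fun s => hv.m l s)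
  congr 1
  exact Finset.sum_congr rfl fun s _ => by ring

/-- The number of terms of the formula of the height. -/
noncomputable def cT (d k0 k1 : ℕ) : ℝ := d + (k0 + k1) * 2 + k1 * d

theorem cT_nn (d k0 k1 : ℕ) : 0 ≤ cT d k0 k1 := by
  unfold cT
  positivity

/-- The formula of the height is bounded. -/
theorem hR_bd (h0 : 0 ≤ tx J w X t) (h1 : tx J w X t ≤ 1)
    (ht : ∀ u a, |(t.2.2 u a : ℝ)| ≤ 2 ^ X) (hv : BV X v) (u : Fin c) :
    |hR J w X t v u| ≤ cT d k0 k1 * 2 ^ X := by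
  have hX : (0 : ℝ) < 2 ^ X := by positivity
  have a1 := pg_bd h0 h1 hv u
  have a2 : |∑ a, (t.2.2 u a : ℝ) / 2 ^ X * v.2.1 a| ≤ 2 ^ X * (k0 + k1 : ℕ) :=
    Pool.P5.sum_bd fun a => by
      rw [abs_mul]
      calc _ ≤ (1 : ℝ) * 2 ^ X := mul_le_mul (div_bd (ht u a)) (hv.y_abs a) (abs_nonneg _)
            zero_le_one
        _ = _ := one_mul _
  have a3 : |∑ a, (t.2.2 u a : ℝ) / 2| ≤ 2 ^ X * (k0 + k1 : ℕ) :=
    Pool.P5.sum_bd fun a => by
      rw [abs_div, abs_of_pos (by norm_num : (0 : ℝ) < 2)]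
      have := ht u a
      have := abs_nonneg (t.2.2 u a : ℝ)
      linarith
  have a4 : |∑ l, (t.2.2 u (Fin.natAdd k0 l) : ℝ) / 2 ^ X * pm J w X t v l| ≤
      (2 ^ X * d) * (k1 : ℕ) := Pool.P5.sum_bd fun l => by
    rw [abs_mul]
    calc _ ≤ (1 : ℝ) * (2 ^ X * d) := mul_le_mul (div_bd (ht u _)) (pm_bd h0 h1 hv l)
          (abs_nonneg _) zero_le_one
      _ = _ := one_mul _
  unfold hR cT
  push_cast at a2 a3
  obtain ⟨B1, hB1⟩ : ∃ B : ℝ, B = ∑ a, (t.2.2 u a : ℝ) / 2 ^ X * v.2.1 a := ⟨_, rfl⟩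
  obtain ⟨B2, hB2⟩ : ∃ B : ℝ, B = ∑ a, (t.2.2 u a : ℝ) / 2 := ⟨_, rfl⟩
  obtain ⟨B3, hB3⟩ : ∃ B : ℝ, B = ∑ l, (t.2.2 u (Fin.natAdd k0 l) : ℝ) / 2 ^ X *
    pm J w X t v l := ⟨_, rfl⟩
  rw [← hB1] at a2 ⊢
  rw [← hB2] at a3 ⊢
  rw [← hB3] at a4 ⊢
  rw [abs_le] at a1 a2 a3 a4 ⊢
  constructor <;> linarith [a1.1, a1.2, a2.1, a2.2, a3.1, a3.2, a4.1, a4.2]

/-- The formula of the height at near data. -/
theorem hR_sub (hN : 0 ≤ N) (h0 : 0 ≤ tx J w X t) (h1 : tx J w X t ≤ 1)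
    (ht : ∀ u a, |(t.2.2 u a : ℝ)| ≤ 2 ^ X) (hv : NV N v v') (u : Fin c) :
    |hR J w X t v u - hR J w X t v' u| ≤ N * cT d k0 k1 := by
  have hX : (0 : ℝ) < 2 ^ X := by positivity
  have a1 := pg_sub h0 h1 hv u
  have a2 : |∑ a, (t.2.2 u a : ℝ) / 2 ^ X * v.2.1 a -
      ∑ a, (t.2.2 u a : ℝ) / 2 ^ X * v'.2.1 a| ≤ N * (k0 + k1 : ℕ) :=
    Pool.P5.sum_near fun a => by
      rw [← mul_sub, abs_mul]
      calc _ ≤ (1 : ℝ) * N := mul_le_mul (div_bd (ht u a)) (hv.y a) (abs_nonneg _)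
            zero_le_one
        _ = _ := one_mul _
  have a4 : |∑ l, (t.2.2 u (Fin.natAdd k0 l) : ℝ) / 2 ^ X * pm J w X t v l -
      ∑ l, (t.2.2 u (Fin.natAdd k0 l) : ℝ) / 2 ^ X * pm J w X t v' l| ≤
      (N * d) * (k1 : ℕ) := Pool.P5.sum_near fun l => by
    rw [← mul_sub, abs_mul]
    calc _ ≤ (1 : ℝ) * (N * d) := mul_le_mul (div_bd (ht u _)) (pm_sub h0 h1 hv l)
          (abs_nonneg _) zero_le_one
      _ = _ := one_mul _
  unfold hR cT
  push_cast at a2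
  obtain ⟨B1, hB1⟩ : ∃ B : ℝ, B = ∑ a, (t.2.2 u a : ℝ) / 2 ^ X * v.2.1 a := ⟨_, rfl⟩
  obtain ⟨B1', hB1'⟩ : ∃ B : ℝ, B = ∑ a, (t.2.2 u a : ℝ) / 2 ^ X * v'.2.1 a := ⟨_, rfl⟩
  obtain ⟨B3, hB3⟩ : ∃ B : ℝ, B = ∑ l, (t.2.2 u (Fin.natAdd k0 l) : ℝ) / 2 ^ X *
    pm J w X t v l := ⟨_, rfl⟩
  obtain ⟨B3', hB3'⟩ : ∃ B : ℝ, B = ∑ l, (t.2.2 u (Fin.natAdd k0 l) : ℝ) / 2 ^ X *
    pm J w X t v' l := ⟨_, rfl⟩
  rw [← hB1, ← hB1'] at a2 ⊢
  rw [← hB3, ← hB3'] at a4 ⊢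
  have a5 : (0 : ℝ) ≤ N * (k0 + k1) := by positivity
  rw [abs_le] at a1 a2 a4 ⊢
  constructor <;> linarith [a1.1, a1.2, a2.1, a2.2, a4.1, a4.2]

/-- All the digits of the data. -/
def dv (v : VT G c k0 k1 d) : (Fin (k0 + k1) ⊕ (Fin k1 × Fin d)) ⊕ (Fin c × Fin d) → ℤ :=
  Sum.elim (Sum.elim v.2.1 fun x => v.2.2.1 x.1 x.2) fun x => v.2.2.2 x.1 x.2

theorem dv_inj (h1 : v.1 = v'.1) (h2 : dv v = dv v') : v = v' := by
  refine Prod.ext h1 (Prod.ext ?_ (Prod.ext ?_ ?_))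
  · funext a
    exact congrFun h2 (Sum.inl (Sum.inl a))
  · funext l s
    exact congrFun h2 (Sum.inl (Sum.inr (l, s)))
  · funext u s
    exact congrFun h2 (Sum.inr (u, s))

theorem dv_near (hv : NV N v v') (k : (Fin (k0 + k1) ⊕ (Fin k1 × Fin d)) ⊕ (Fin c × Fin d)) :
    |(dv v k : ℝ) - dv v' k| ≤ N := by
  rcases k with (a | ⟨l, s⟩) | ⟨u, s⟩
  · exact hv.y a
  · exact hv.m l s
  · exact hv.b u s

end

/-! ### The digits of the samples -/

section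

variable {c k0 k1 : ℕ} {D : NDat2} {J w z i j r d X : ℕ} {C : ℝ} {P : D.Γ × D.Γ → ℕ → PN}
  {S : Slo D} {ys : Fin (k0 + k1) → ℕ} {gs : Fin c → ℕ}

theorem yv_rg (ω : D.Ω) (b : Fin (k0 + k1)) : 0 ≤ yv D J w z i j r X C P ys ω b ∧
    yv D J w z i j r X C P ys ω b < 2 ^ X := by
  have h := Pool.P4E.dgp_range X ((z0 D J w i j r P ω (ys b) + Ry z C) / (2 * Ry z C))
  unfold yv
  exact ⟨h.1, by linarith [h.2]⟩

theorem vv_bv (ω : D.Ω) :
    BV X (vv (c := c) (k0 := k0) (k1 := k1) D J w z i j r d X C P ys gs ω) where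
  y := fun b => yv_rg ω b
  m := fun _ _ => Pool.P4E.dg_abs X _
  b := fun _ _ => Pool.P4E.dg_abs X _

theorem tv_bd (ω : D.Ω) (u : Fin c) (a : Fin (k0 + k1)) :
    |((tv (c := c) (k0 := k0) (k1 := k1) D J w z i j r X C S ys gs ω).2.2 u a : ℝ)| ≤ 2 ^ X :=
  Pool.P4E.dg_abs X _

/-- The relative time at all samples. -/
theorem tx_bd (hwX : w + X ≤ J) (ω : D.Ω) :
    0 ≤ tx J w X (tv (c := c) (k0 := k0) (k1 := k1) D J w z i j r X C S ys gs ω) ∧
    tx J w X (tv (c := c) (k0 := k0) (k1 := k1) D J w z i j r X C S ys gs ω) ≤ 1 := by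
  have hX : (0 : ℝ) < 2 ^ X := by positivity
  have h4 : tq J w X (D.T ω) < 2 ^ X := tq_lt hwX
  have e1 : tx J w X (tv (c := c) (k0 := k0) (k1 := k1) D J w z i j r X C S ys gs ω) =
    (tq J w X (D.T ω) : ℝ) / 2 ^ X := rfl
  rw [e1]
  refine ⟨by positivity, ?_⟩
  rw [div_le_one hX]
  exact_mod_cast h4.le

end

/-! ### The representative -/

/-- A law on good samples and a representative of the line in the context `(i', j)`. -/
structure Prm (D : NDat2) (J w z i j r i' M X : ℕ) (C : ℝ) (q : D.Ω → ℝ) (E : D.Ω → Prop)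
    (p : D.Ω → ℝ) (ρ : D.Ω → D.Ω) : Prop where
  law : IsLaw p
  hs : ∀ ω, 0 < p ω → 0 < q ω ∧ E ω
  hr : ∀ ω, 0 < p ω → 0 < q (ρ ω) ∧ E (ρ ω) ∧ cb D J w i j r (ρ ω) = cb D J w i j r ω ∧
    D.c i' j (ρ ω) = D.c i' j ω
  ii : i ≤ i'
  iM : i' < M
  dp : exp (C * z) * 2 ^ X ≤ 2 ^ ((i' - i) * z)

section

variable {D : NDat2} {n d K K' J a₀ w₀ z M w i j r r2 r' r'' y a X : ℕ} {th : ℝ}
  {lam gam : ℕ → ℝ} {κ C₁ C : ℝ} {q : D.Ω → ℝ} {E : D.Ω → Prop} {P : D.Γ × D.Γ → ℕ → PN}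
  {S : Slo D} {c k0 k1 : ℕ} {ys : Fin (k0 + k1) → ℕ} {gs : Fin c → ℕ}
  {i' : ℕ} {p : D.Ω → ℝ} {ρ : D.Ω → D.Ω}
  (H : Hyp D n d K K' J a₀ w₀ z M w i j r r2 r' r'' y a X th lam gam κ C₁ C q E P S ys gs)
  (h : Prm D J w z i j r i' M X C q E p ρ)

include H h

omit h in
/-- Two good samples in one context `(i', j)`: the lines. -/
theorem ctx_two (ii : i ≤ i') (iM : i' < M) (dp : exp (C * z) * 2 ^ X ≤ 2 ^ ((i' - i) * z))
    {ω ω' : D.Ω} (hω : 0 < q ω ∧ E ω) (hω' : 0 < q ω' ∧ E ω')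
    (b3 : cb D J w i j r ω' = cb D J w i j r ω) (b4 : D.c i' j ω' = D.c i' j ω) {l : ℕ}
    (l1 : 1 ≤ l) (ln : l ≤ n) :
    2 ^ X * |z0 D J w i j r P ω' l - z0 D J w i j r P ω l| ≤ 1 ∧
    ∀ s, 1 ≤ s → s ≤ d →
      2 ^ X * |bs D J w i j r d P s ω' l - bs D J w i j r d P s ω l| ≤ 1 := by
  have hX : (0 : ℝ) < 2 ^ X := by positivity
  have e1 : bb D i j r ω' = bb D i j r ω := (Prod.ext_iff.1 b3).1
  have e2 : D.T ω' / 2 ^ (J - w) = D.T ω / 2 ^ (J - w) := (Prod.ext_iff.1 b3).2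
  obtain ⟨c1, c2⟩ := H.dep.ctx i' ii iM ω' ω hω'.1 hω.1 hω'.2 hω.2 e1 b4 w H.w1 H.w2 e2 l l1 ln
  have key : ∀ x : ℝ, x ≤ exp (C * z) / 2 ^ ((i' - i) * z) → 2 ^ X * x ≤ 1 := by
    intro x hx
    have f1 : (0 : ℝ) < 2 ^ ((i' - i) * z) := by positivity
    calc (2 : ℝ) ^ X * x ≤ 2 ^ X * (exp (C * z) / 2 ^ ((i' - i) * z)) :=
          mul_le_mul_of_nonneg_left hx hX.le
      _ = (exp (C * z) * 2 ^ X) / 2 ^ ((i' - i) * z) := by ring
      _ ≤ 1 := (div_le_one f1).2 dp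
  exact ⟨key _ c1, fun s s1 s2 => key _ (c2 s s1 s2)⟩

omit H h in
theorem div_sub_le {x x' R : ℝ} (hR : 1 ≤ R) (hx : 2 ^ X * |x - x'| ≤ 1) :
    (2 : ℝ) ^ X * |x / R - x' / R| ≤ 1 := by
  have h0 : 0 < R := by linarith
  rw [← sub_div, abs_div, abs_of_pos h0]
  refine le_trans (mul_le_mul_of_nonneg_left (div_le_self (abs_nonneg _) hR) ?_) hx
  positivity

omit h in
/-- Two good samples in one context `(i', j)`: the data of the lines. -/
theorem dig_two (ii : i ≤ i') (iM : i' < M) (dp : exp (C * z) * 2 ^ X ≤ 2 ^ ((i' - i) * z))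
    {ω ω' : D.Ω} (hω : 0 < q ω ∧ E ω) (hω' : 0 < q ω' ∧ E ω')
    (b3 : cb D J w i j r ω' = cb D J w i j r ω) (b4 : D.c i' j ω' = D.c i' j ω) :
    NV 3 (vv (c := c) (k0 := k0) (k1 := k1) D J w z i j r d X C P ys gs ω')
      (vv (c := c) (k0 := k0) (k1 := k1) D J w z i j r d X C P ys gs ω) ∧
    ∀ u, |(nuv D J w z i j r X C P gs ω' u : ℝ) - nuv D J w z i j r X C P gs ω u| ≤ 3 := by
  have hR1 := H.one_Rg
  have hR2 : 1 ≤ 2 * Ry z C := by linarith [H.one_Ry]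
  have ctx := fun {l : ℕ} => ctx_two H ii iM dp hω hω' b3 b4 (l := l)
  refine ⟨⟨?_, ?_, ?_⟩, ?_⟩
  · intro b
    obtain ⟨g1, g2⟩ := H.ys_n b
    have c1 := (ctx g1 g2).1
    have c2 := Pool.P4E.dgp_sub (X := X) (m := 1)
      (x := (z0 D J w i j r P ω' (ys b) + Ry z C) / (2 * Ry z C))
      (y := (z0 D J w i j r P ω (ys b) + Ry z C) / (2 * Ry z C)) (by
        refine div_sub_le hR2 ?_
        rw [add_sub_add_right_eq_sub]
        exact c1)
    push_cast at c2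
    refine le_trans (le_of_eq ?_) (c2.trans (by norm_num))
    rfl
  · intro l s
    obtain ⟨g1, g2⟩ := H.ys_n (Fin.natAdd k0 l)
    have c1 := (ctx g1 g2).2 ((s : ℕ) + 1) (by omega) s.2
    have c2 := Pool.P4E.dg_sub (X := X) (m := 1)
      (x := bs D J w i j r d P ((s : ℕ) + 1) ω' (ys (Fin.natAdd k0 l)) / (2 * Ry z C))
      (y := bs D J w i j r d P ((s : ℕ) + 1) ω (ys (Fin.natAdd k0 l)) / (2 * Ry z C))
      (div_sub_le hR2 c1)
    push_cast at c2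
    refine le_trans (le_of_eq ?_) (c2.trans (by norm_num))
    rfl
  · intro u s
    obtain ⟨g1, g2⟩ := H.gs_n u
    have c1 := (ctx g1 g2).2 ((s : ℕ) + 1) (by omega) s.2
    have c2 := Pool.P4E.dg_sub (X := X) (m := 1)
      (x := bs D J w i j r d P ((s : ℕ) + 1) ω' (gs u) / Rg z C)
      (y := bs D J w i j r d P ((s : ℕ) + 1) ω (gs u) / Rg z C)
      (div_sub_le hR1 c1)
    push_cast at c2
    refine le_trans (le_of_eq ?_) (c2.trans (by norm_num))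
    rfl
  · intro u
    obtain ⟨g1, g2⟩ := H.gs_n u
    have c1 := (ctx g1 g2).1
    have c2 := Pool.P4E.dg_sub (X := X) (m := 1) (x := z0 D J w i j r P ω' (gs u) / Rg z C)
      (y := z0 D J w i j r P ω (gs u) / Rg z C) (div_sub_le hR1 c1)
    push_cast at c2
    refine le_trans (le_of_eq ?_) (c2.trans (by norm_num))
    rfl

/-- The data of the line of the representative are near. -/
theorem Prm.nv {ω : D.Ω} (hω : 0 < p ω) :
    NV 3 (vv (c := c) (k0 := k0) (k1 := k1) D J w z i j r d X C P ys gs (ρ ω))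
      (vv (c := c) (k0 := k0) (k1 := k1) D J w z i j r d X C P ys gs ω) := by
  obtain ⟨b1, b2, b3, b4⟩ := h.hr ω hω
  exact (dig_two H h.ii h.iM h.dp (h.hs ω hω) ⟨b1, b2⟩ b3 b4).1

/-- The heights of the group at the left end of the representative are near. -/
theorem Prm.nu {ω : D.Ω} (hω : 0 < p ω) (u : Fin c) :
    |(nuv D J w z i j r X C P gs (ρ ω) u : ℝ) - nuv D J w z i j r X C P gs ω u| ≤ 3 := by
  obtain ⟨b1, b2, b3, b4⟩ := h.hr ω hω
  exact (dig_two (ys := ys) H h.ii h.iM h.dp (h.hs ω hω) ⟨b1, b2⟩ b3 b4).2 u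

omit H h in
/-- The constant of the near heights. -/
noncomputable def cN (d k0 k1 : ℕ) : ℝ :=
  (k0 + k1 + 1 : ℝ) * (7 + 2 * (d * (d + 1))) + 3 + 3 * cT d k0 k1

omit H h in
theorem cN_nn (d k0 k1 : ℕ) : 0 ≤ cN d k0 k1 := by
  have := cT_nn d k0 k1
  unfold cN
  positivity

/-- **The own height of a sample and the height of the representative at the time of the
sample.** -/
theorem Prm.hv_near {ω : D.Ω} (hω : 0 < p ω) (u : Fin c) :
    |(hv (c := c) (k0 := k0) (k1 := k1) D z i j r X C P S gs n th gam ω u : ℝ) -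
      ((nuv D J w z i j r X C P gs (ρ ω) u : ℝ) +
        hR J w X (tv (c := c) (k0 := k0) (k1 := k1) D J w z i j r X C S ys gs ω)
          (vv (c := c) (k0 := k0) (k1 := k1) D J w z i j r d X C P ys gs (ρ ω)) u)| ≤
      cN d k0 k1 := by
  obtain ⟨a1, a2⟩ := h.hs ω hω
  have b1 := Pool.TC.hv_near H a1 a2 u
  obtain ⟨x0, x1⟩ := tx_bd (c := c) (k0 := k0) (k1 := k1) (D := D) (z := z) (i := i) (j := j)
    (r := r) (C := C) (S := S) (ys := ys) (gs := gs) H.wX ω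
  have b2 := hR_sub (d := d) (by norm_num : (0 : ℝ) ≤ 3) x0 x1 (fun u a => tv_bd ω u a)
    (Prm.nv H h hω) u
  have b3 := Prm.nu H h hω u
  unfold cN
  rw [abs_le] at b1 b2 b3 ⊢
  constructor <;> linarith [b1.1, b1.2, b2.1, b2.2, b3.1, b3.2]

omit H h in
/-- The price of the data of the representative. -/
noncomputable def cV (c d k0 k1 : ℕ) : ℝ := ((k0 + k1) + k1 * d + c * d) * lg 3

/-- The data of the representative, given the data of the line. -/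
theorem Prm.vv_few {T : Type} {W : D.Ω → T}
    (hW : Det p W (vv (c := c) (k0 := k0) (k1 := k1) D J w z i j r d X C P ys gs)) :
    CH p (fun ω => vv (c := c) (k0 := k0) (k1 := k1) D J w z i j r d X C P ys gs (ρ ω)) W ≤
      cV c d k0 k1 := by
  have hp := h.law.nonneg
  have a1 := CH_shift h.law
    (U := fun ω => dv (vv (c := c) (k0 := k0) (k1 := k1) D J w z i j r d X C P ys gs ω))
    (U' := fun ω => dv (vv (c := c) (k0 := k0) (k1 := k1) D J w z i j r d X C P ys gs (ρ ω)))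
    (W := W) (N := 3) (fun ω hω k => dv_near (Prm.nv H h hω) k)
    (fun ω ω' a b e => congrArg dv (hW ω ω' a b e))
  have a2 : CH p (fun ω => vv (c := c) (k0 := k0) (k1 := k1) D J w z i j r d X C P ys gs (ρ ω)) W ≤
      CH p (fun ω => dv (vv (c := c) (k0 := k0) (k1 := k1) D J w z i j r d X C P ys gs (ρ ω)))
        W := by
    refine CH_mono_left hp ?_
    intro ω ω' a b e
    have e1 := Prod.ext_iff.1 e
    refine dv_inj ?_ e1.1
    have e2 : (vv (c := c) (k0 := k0) (k1 := k1) D J w z i j r d X C P ys gs ω).1 =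
        (vv (c := c) (k0 := k0) (k1 := k1) D J w z i j r d X C P ys gs ω').1 := by
      rw [hW ω ω' a b e1.2]
    exact (h.hr ω a).2.2.1.trans (Eq.trans e2 (h.hr ω' b).2.2.1.symm)
  refine a2.trans (a1.trans (le_of_eq ?_))
  unfold cV
  simp only [Fintype.card_sum, Fintype.card_fin, Fintype.card_prod]
  push_cast
  ring

omit H in
/-- **(H2) for a near height.** -/
theorem Prm.h2 {T1 T2 : Type} {Tb : D.Ω → T1} {Vb : D.Ω → T2} {g : D.Ω → Fin c → ℤ} {N e2 eV : ℝ}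
    (hg : ∀ ω, 0 < p ω → ∀ u, |(g ω u : ℝ) -
      hv (c := c) (k0 := k0) (k1 := k1) D z i j r X C P S gs n th gam ω u| ≤ N)
    (hT : Det p Tb (tv (c := c) (k0 := k0) (k1 := k1) D J w z i j r X C S ys gs))
    (hV : CH p Vb (fun ω => (vv (c := c) (k0 := k0) (k1 := k1) D J w z i j r d X C P ys gs ω,
        tv (c := c) (k0 := k0) (k1 := k1) D J w z i j r X C S ys gs ω)) ≤ eV)
    (h2 : CH p (hv (c := c) (k0 := k0) (k1 := k1) D z i j r X C P S gs n th gam)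
      (tv (c := c) (k0 := k0) (k1 := k1) D J w z i j r X C S ys gs) ≤
    CH p (hv (c := c) (k0 := k0) (k1 := k1) D z i j r X C P S gs n th gam)
      (fun ω => (vv (c := c) (k0 := k0) (k1 := k1) D J w z i j r d X C P ys gs ω,
        tv (c := c) (k0 := k0) (k1 := k1) D J w z i j r X C S ys gs ω)) + e2) :
    CH p g Tb ≤ CH p g Vb + (e2 + 2 * (c * lg N) + eV) := by
  have hp := h.law.nonneg
  have a1 := CH_near2 h.law g
    (hv (c := c) (k0 := k0) (k1 := k1) D z i j r X C P S gs n th gam) Tb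
    (tv (c := c) (k0 := k0) (k1 := k1) D J w z i j r X C S ys gs) (N := N)
    (fun ω hω u => by rw [abs_sub_comm]; exact hg ω hω u)
  have a2 := CH_eq_zero hp hT
  have a3 := CH_near2 h.law
    (hv (c := c) (k0 := k0) (k1 := k1) D z i j r X C P S gs n th gam) g
    (fun ω => (vv (c := c) (k0 := k0) (k1 := k1) D J w z i j r d X C P ys gs ω,
        tv (c := c) (k0 := k0) (k1 := k1) D J w z i j r X C S ys gs ω)) Vb (N := N) hg
  simp only [Fintype.card_fin] at a1 a3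
  linarith

omit H in
/-- **(H0).** The variable `jq` has few bits. -/
theorem Prm.h0 {RT JT T1 T2 T3 : Type} {Rv : D.Ω → RT} {jq : D.Ω → JT} {tt : D.Ω → T1}
    {b : D.Ω → T2} {L : D.Ω → T3} {e0 ej : ℝ}
    (h1 : Det p (fun ω => (tv (c := c) (k0 := k0) (k1 := k1) D J w z i j r X C S ys gs ω, b ω)) tt)
    (h2 : Det p b (cb D J w i j r))
    (h3 : Det p (fun ω => (jq ω, (Rv ω, cb D J w i j r ω))) L)
    (h4 : Det p tt (tv (c := c) (k0 := k0) (k1 := k1) D J w z i j r X C S ys gs))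
    (h0 : CH p (tv (c := c) (k0 := k0) (k1 := k1) D J w z i j r X C S ys gs) (cb D J w i j r) ≤
      CH p (tv (c := c) (k0 := k0) (k1 := k1) D J w z i j r X C S ys gs)
        (fun ω => (Rv ω, cb D J w i j r ω)) + e0)
    (hj : CH p jq (cb D J w i j r) ≤ ej) :
    CH p tt b ≤ CH p tt L + (e0 + ej) := by
  have hp := h.law.nonneg
  have a1 : CH p tt b ≤
      CH p (tv (c := c) (k0 := k0) (k1 := k1) D J w z i j r X C S ys gs) b :=
    CH_mono_left hp h1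
  have a2 : CH p (tv (c := c) (k0 := k0) (k1 := k1) D J w z i j r X C S ys gs) b ≤
      CH p (tv (c := c) (k0 := k0) (k1 := k1) D J w z i j r X C S ys gs) (cb D J w i j r) :=
    CH_mono_cond hp h2
  have a3 := CH_le_add hp (tv (c := c) (k0 := k0) (k1 := k1) D J w z i j r X C S ys gs) jq
    (fun ω => (Rv ω, cb D J w i j r ω))
  have a4 : CH p jq (fun ω => (Rv ω, cb D J w i j r ω)) ≤ CH p jq (cb D J w i j r) :=
    CH_mono_cond hp fun ω ω' _ _ e => (Prod.ext_iff.1 e).2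
  have a5 : CH p (tv (c := c) (k0 := k0) (k1 := k1) D J w z i j r X C S ys gs)
      (fun ω => (jq ω, (Rv ω, cb D J w i j r ω))) ≤
      CH p (tv (c := c) (k0 := k0) (k1 := k1) D J w z i j r X C S ys gs) L :=
    CH_mono_cond hp h3
  have a6 : CH p (tv (c := c) (k0 := k0) (k1 := k1) D J w z i j r X C S ys gs) L ≤ CH p tt L :=
    CH_mono_left hp fun ω ω' a b e => h4 ω ω' a b (Prod.ext_iff.1 e).1
  linarith

omit H in
/-- **(TF)** given the context of the picture. -/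
theorem Prm.tf {RT JT T2 : Type} {Rv : D.Ω → RT} {jq : D.Ω → JT} {b : D.Ω → T2} {e0 et ej : ℝ}
    (h3 : Det p (fun ω => (jq ω, (Rv ω, cb D J w i j r ω))) b)
    (h0 : CH p (tv (c := c) (k0 := k0) (k1 := k1) D J w z i j r X C S ys gs) (cb D J w i j r) ≤
      CH p (tv (c := c) (k0 := k0) (k1 := k1) D J w z i j r X C S ys gs)
        (fun ω => (Rv ω, cb D J w i j r ω)) + e0)
    (ht : X * Real.log 2 ≤ CH p (fun ω => tq J w X (D.T ω)) (cb D J w i j r) + et)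
    (hj : CH p jq (cb D J w i j r) ≤ ej) :
    X * Real.log 2 ≤ CH p (fun ω => ((tq J w X (D.T ω) : ℕ) : ℤ)) b + (e0 + et + ej) := by
  have hp := h.law.nonneg
  have b2 := use_gen (X := Rv) (Y := fun ω => tq J w X (D.T ω)) (e₁ := 0) (e₂ := 0) hp h0
    (le_of_eq (CH_eq_zero hp fun ω ω' _ _ e => (Prod.ext_iff.1 e).1))
    (le_of_eq (CH_eq_zero hp fun ω ω' _ _ e => by
      have e1 := Prod.ext_iff.1 (Prod.ext_iff.1 (Prod.ext_iff.1 e).1).2
      exact congrArg (tq J w X) e1.1))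
  have a3 := CH_le_add hp (fun ω => tq J w X (D.T ω)) jq (fun ω => (Rv ω, cb D J w i j r ω))
  have a4 : CH p jq (fun ω => (Rv ω, cb D J w i j r ω)) ≤ CH p jq (cb D J w i j r) :=
    CH_mono_cond hp fun ω ω' _ _ e => (Prod.ext_iff.1 e).2
  have b3 : CH p (fun ω => tq J w X (D.T ω)) (fun ω => (jq ω, (Rv ω, cb D J w i j r ω))) ≤
      CH p (fun ω => ((tq J w X (D.T ω) : ℕ) : ℤ)) b := by
    refine le_trans (CH_mono_left hp ?_) (CH_mono_cond hp h3)
    intro ω ω' _ _ h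
    have e1 : ((tq J w X (D.T ω) : ℕ) : ℤ) = ((tq J w X (D.T ω') : ℕ) : ℤ) :=
      (Prod.ext_iff.1 h).1
    exact Int.ofNat.inj e1
  linarith

end

end Pool.TC
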