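import Pool.Agent.H48.TC.Def

/-!
# TC: the pieces of the cell side, statements
-/

set_option autoImplicit false

namespace Pool.TC

open Finset Real MvPolynomial
open Pool.Agent.H49.Ent Pool.Agent.H32.Dense Pool.STK Pool.STAT Pool.MIC.Frm Pool.MIC7 Pool.FRM
open Pool.GSD
open Pool.BFL (Pb)
open Pool.SLO (tup)
open Pool.P4 (t0 rt pp PthC FraC bb ze zt z0 cl1 dg dgp Ry cb LLC tq GoodS FrP err)

/-! ### Geometry -/

/-- The arithmetic of a place. -/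
structure Plc (n d : ℕ) (th : ℝ) (gam : ℕ → ℝ) (y r r2 r' r'' a M i j : ℕ) : Prop where
  stp : Stp n d th gam y r r2 r' r'' a
  y1 : 1 ≤ y
  a1 : a ≤ i
  i1 : r'' ≤ i
  i2 : i + r'' < M
  j1 : r ≤ j
  j2 : j + r < M

open Classical in
/-- **(LIN)** The lines over a closed frame, deterministic. -/
def LinStmt : Prop :=
  ∀ (n d K K' : ℕ) (th : ℝ) (lam gam : ℕ → ℝ) (C₁ C : ℝ), 1 ≤ n → 1 ≤ C₁ → 0 ≤ C →
    (∀ l, 1 ≤ l → l ≤ n → lam l = 1) → (∀ l, 0 ≤ gam l) → ∃ C' : ℝ, 1 ≤ C' ∧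
    ∀ (y r r2 r' r'' a M : ℕ), ∃ z₀ : ℕ, ∀ (J a₀ w₀ z i j : ℕ) (D : NDat2) (q : D.Ω → ℝ) (κ : ℝ),
      z₀ ≤ z → Plc n d th gam y r r2 r' r'' a M i j → D.Ok2 n K J a₀ w₀ z M lam gam κ C₁ q →
      ∀ (P : ℕ → PN) (ω : D.Ω), 0 < q ω → GoodS D n K' w₀ z M C ω → FrP D n K' z i j r C P ω →
      (∀ l, 1 ≤ l → l ≤ n → |ze D i j r (fun _ => P) ω l| ≤ exp (C' * z)) ∧
      (∀ w, w₀ + j * z ≤ w → w ≤ w₀ + (j + 1) * z →
        (∀ l, 1 ≤ l → l ≤ n → |z0 D J w i j r (fun _ => P) ω l| ≤ exp (C' * z) ∧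
          ∀ s, 1 ≤ s → s ≤ d → |bs D J w i j r d (fun _ => P) s ω l| ≤ exp (C' * z)) ∧
        (∀ l, sl0 th gam n l →
          |ze D i j r (fun _ => P) ω l - z0 D J w i j r (fun _ => P) ω l| ≤
            exp (C' * z) / 2 ^ (y * z) ∧
          ∀ s, 1 ≤ s → s ≤ d → |bs D J w i j r d (fun _ => P) s ω l| ≤
            exp (C' * z) / 2 ^ (y * z)) ∧
        (∀ l, 1 ≤ l → l ≤ n →
          |ze D i j r (fun _ => P) ω l - (z0 D J w i j r (fun _ => P) ω l +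
            ∑ s ∈ Finset.Icc 1 d, rt D J w ω ^ s * bs D J w i j r d (fun _ => P) s ω l)| ≤
              exp (C' * z) / 2 ^ (y * z) ∧
          ∀ x : ℝ, 0 ≤ x → x ≤ 1 →
            |zx D J w i j r (fun _ => P) x ω l - (z0 D J w i j r (fun _ => P) ω l +
              ∑ s ∈ Finset.Icc 1 d, x ^ s * bs D J w i j r d (fun _ => P) s ω l)| ≤
                exp (C' * z) / 2 ^ (y * z)) ∧
        ∀ ω', 0 < q ω' → GoodS D n K' w₀ z M C ω' → bb D i j r ω = bb D i j r ω' →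
          D.T ω / 2 ^ (J - w) = D.T ω' / 2 ^ (J - w) →
          (D.c (i + r2) (j - r) ω = D.c (i + r2) (j - r) ω' →
            (∀ l, sl0 th gam n l → |z0 D J w i j r (fun _ => P) ω l -
              z0 D J w i j r (fun _ => P) ω' l| ≤ exp (C' * z) / 2 ^ (y * z)) ∧
            ∀ l, sl1 th gam n l → ∀ s, 1 ≤ s → s ≤ d →
              |bs D J w i j r d (fun _ => P) s ω l - bs D J w i j r d (fun _ => P) s ω' l| ≤
                exp (C' * z) / 2 ^ (y * z)) ∧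
          (D.c (i + r') (j - r) ω = D.c (i + r') (j - r) ω' →
            (∀ l, sl th gam n l →
              |z0 D J w i j r (fun _ => P) ω l - z0 D J w i j r (fun _ => P) ω' l| ≤
                exp (C' * z) / 2 ^ (y * z) ∧
              ∀ s, 1 ≤ s → s ≤ d →
                |bs D J w i j r d (fun _ => P) s ω l - bs D J w i j r d (fun _ => P) s ω' l| ≤
                  exp (C' * z) / 2 ^ (y * z)) ∧
            ∀ l, gr th gam n l → ∀ s, 1 ≤ s → s ≤ d →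
              |bs D J w i j r d (fun _ => P) s ω l - bs D J w i j r d (fun _ => P) s ω' l| ≤
                exp (C' * z) / 2 ^ (y * z)) ∧
          (D.c (i + r'') (j - r) ω = D.c (i + r'') (j - r) ω' → ∀ l, 1 ≤ l → l ≤ n →
            |z0 D J w i j r (fun _ => P) ω l - z0 D J w i j r (fun _ => P) ω' l| ≤
              exp (C' * z) / 2 ^ (y * z) ∧
            ∀ s, 1 ≤ s → s ≤ d →
              |bs D J w i j r d (fun _ => P) s ω l - bs D J w i j r d (fun _ => P) s ω' l| ≤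
                exp (C' * z) / 2 ^ (y * z)))

/-- The arithmetic of an own sheet over the coordinates `Sl`, at `(i - ρ, j + r)`. -/
structure OwnP (n : ℕ) (gam : ℕ → ℝ) (Sl : ℕ → Prop) (y r ρ r'' a M i j : ℕ) : Prop where
  in1 : ∀ l, Sl l → 1 ≤ l ∧ l < n
  s1 : ∀ l, Sl l → gam l * r + y ≤ ρ
  s2 : ∀ l, 1 ≤ l → l ≤ n → ¬ Sl l → ρ + y ≤ gam l * r
  s4 : ∀ l, 1 ≤ l → l ≤ n → 2 * gam l * r + y ≤ r''
  s6 : ρ ≤ r''
  s7 : y ≤ a
  y1 : 1 ≤ y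
  a1 : a ≤ i
  i1 : r'' ≤ i
  i2 : i + r'' < M
  j1 : r ≤ j
  j2 : j + r < M

open Classical in
/-- **(OWN)** The own sheets over a closed frame, over the coordinates `Sl`, deterministic. -/
def OwnStmt : Prop :=
  ∀ (n K K' : ℕ) (lam gam : ℕ → ℝ) (C₁ C : ℝ), 1 ≤ n → 1 ≤ C₁ → 0 ≤ C →
    (∀ l, 1 ≤ l → l ≤ n → lam l = 1) → (∀ l, 0 ≤ gam l) → ∃ C' : ℝ, 1 ≤ C' ∧
    ∀ (y r ρ r'' a M : ℕ), ∃ z₀ : ℕ, ∀ (J a₀ w₀ z i j : ℕ) (D : NDat2) (q : D.Ω → ℝ) (κ : ℝ)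
      (Sl : ℕ → Prop),
      z₀ ≤ z → OwnP n gam Sl y r ρ r'' a M i j → D.Ok2 n K J a₀ w₀ z M lam gam κ C₁ q →
      ∀ (P : D.Γ × D.Γ → ℕ → PN) (E : D.Ω → Prop),
      (∀ ω, E ω → 0 < q ω ∧ GoodS D n K' w₀ z M C ω ∧ FrP D n K' z i j r C (P (bb D i j r ω)) ω) →
      ∃ S : D.Ω → ℕ → ℕ → ℝ, (∀ ω u k, |S ω u k| ≤ exp (C' * z)) ∧
      (∀ ω u k, u ≤ k → S ω u k = 0) ∧
      (∀ ω, E ω → ∀ Bx : ℝ, 1 ≤ Bx → ∀ b : ℕ → ℝ, b 0 = D.X ω 0 →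
        (∀ k, Sl k → |nat (D.g i j) (P (bb D i j r ω)) b k| ≤ exp (Bx * z)) →
        (∀ u, 1 ≤ u → u ≤ n → ¬ Sl u → b u = eval b (D.Ψ (i - ρ) (j + r) ω u)) →
        ∀ u, 1 ≤ u → u ≤ n → ¬ Sl u →
          |nat (D.g i j) (P (bb D i j r ω)) b u - (hs D n i j r P Sl S ω u +
            ∑ k ∈ (range n).filter Sl,
              S ω u k * nat (D.g i j) (P (bb D i j r ω)) b k)| ≤
                exp (C' * Bx * z) / 2 ^ (y * z)) ∧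
      ∀ ω ω', E ω → E ω' → bb D i j r ω = bb D i j r ω' → D.T ω = D.T ω' →
        (D.s (i - ρ) (j + r) ω = D.s (i - ρ) (j + r) ω' → ∀ u, 1 ≤ u → u ≤ n → ¬ Sl u →
          |hs D n i j r P Sl S ω u - hs D n i j r P Sl S ω' u| ≤ exp (C' * z) / 2 ^ (y * z) ∧
          ∀ k, Sl k → |S ω u k - S ω' u k| ≤ exp (C' * z) / 2 ^ (y * z)) ∧
        (D.s (i - r'') (j + r) ω = D.s (i - r'') (j + r) ω' → ∀ u, 1 ≤ u → u ≤ n → ¬ Sl u →
          ∀ k, Sl k → |S ω u k - S ω' u k| ≤ exp (C' * z) / 2 ^ (y * z))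

/-- **(DEP)** Deeper contexts, deterministic. -/
def DepStmt : Prop :=
  ∀ (n d K K' : ℕ) (th : ℝ) (lam gam : ℕ → ℝ) (C₁ C : ℝ), 1 ≤ n → 1 ≤ C₁ → 0 ≤ C →
    (∀ l, 1 ≤ l → l ≤ n → lam l = 1) → (∀ l, 0 ≤ gam l) → ∃ C' : ℝ, 1 ≤ C' ∧
    ∀ (y r r2 r' r'' a M : ℕ), ∃ z₀ : ℕ, ∀ (J a₀ w₀ z i j : ℕ) (D : NDat2) (q : D.Ω → ℝ) (κ : ℝ),
      z₀ ≤ z → Plc n d th gam y r r2 r' r'' a M i j → D.Ok2 n K J a₀ w₀ z M lam gam κ C₁ q →
      ∀ (P : D.Γ × D.Γ → ℕ → PN) (E : D.Ω → Prop),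
      (∀ ω, E ω → 0 < q ω ∧ GoodS D n K' w₀ z M C ω ∧ FrP D n K' z i j r C (P (bb D i j r ω)) ω) →
      Dep D n d J w₀ z M i j r C' q E P

/-- **(GEO)** -/
def GeoStmt : Prop :=
  ∀ (n d K : ℕ) (th : ℝ) (lam gam : ℕ → ℝ) (C₁ : ℝ), 1 ≤ n → 1 ≤ C₁ →
    (∀ l, 1 ≤ l → l ≤ n → lam l = 1) → (∀ l, 0 ≤ gam l) → ∃ (K' : ℕ) (C : ℝ), 1 ≤ C ∧
    ∀ (y r r2 r' r'' a M : ℕ) (e : ℝ), 0 < e → ∃ (κ : ℝ) (z₀ : ℕ), 0 < κ ∧
    ∀ (J a₀ w₀ z i j : ℕ) (D : NDat2) (q : D.Ω → ℝ), z₀ ≤ z →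
      Plc n d th gam y r r2 r' r'' a M i j →
      D.Ok2 n K J a₀ w₀ z M lam gam κ C₁ q → D.TmU J w₀ z κ q →
      ∃ (E : D.Ω → Prop) (P : D.Γ × D.Γ → ℕ → PN) (S : Slo D),
        Pb q (fun ω => ¬ E ω) ≤ e ∧
        (∀ ω, E ω → 0 < q ω ∧ GoodS D n K' w₀ z M C ω ∧
          FrP D n K' z i j r C (P (bb D i j r ω)) ω) ∧
        Geo D n d K' J w₀ z i j r r2 r' r'' th gam C (exp (C * z) / 2 ^ (y * z)) q E P S ∧
        Dep D n d J w₀ z M i j r C q E P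

/-! ### Entropies: everything which is used, and the errors -/

/-- The hypotheses of the entropic pieces. -/
structure Hyp (D : NDat2) (n d K K' J a₀ w₀ z M w i j r r2 r' r'' y a X : ℕ) (th : ℝ)
    (lam gam : ℕ → ℝ) (κ C₁ C : ℝ) (q : D.Ω → ℝ) (E : D.Ω → Prop) (P : D.Γ × D.Γ → ℕ → PN)
    (S : Slo D) {c k0 k1 : ℕ} (ys : Fin (k0 + k1) → ℕ) (gs : Fin c → ℕ) : Prop where
  ok : D.Ok2 n K J a₀ w₀ z M lam gam κ C₁ q
  dma : D.DMA z M κ q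
  llc : LLC D n z M C q
  tmu : D.TmU J w₀ z κ q
  n1 : 1 ≤ n
  C1 : 1 ≤ C₁
  Cg : 1 ≤ C
  κ0 : 0 ≤ κ
  z1 : 1 ≤ z
  lam1 : ∀ l, 1 ≤ l → l ≤ n → lam l = 1
  gam0 : ∀ l, 0 ≤ gam l
  plc : Plc n d th gam y r r2 r' r'' a M i j
  w1 : w₀ + j * z ≤ w
  w2 : w ≤ w₀ + (j + 1) * z
  pE : 1 / 2 ≤ Pb q E
  geo : Geo D n d K' J w₀ z i j r r2 r' r'' th gam C (exp (C * z) / 2 ^ (y * z)) q E P S
  gd : ∀ ω, E ω → 0 < q ω ∧ GoodS D n K' w₀ z M C ω ∧ FrP D n K' z i j r C (P (bb D i j r ω)) ω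
  dep : Dep D n d J w₀ z M i j r C q E P
  yX : exp (C * z) * 2 ^ X ≤ 2 ^ (y * z)
  Xz : ∃ x, X = x * z ∧ i + x + r'' < M
  Xr : ∀ x, X = x * z → j + x * r < M
  ys_in : Function.Injective ys
  ys0 : ∀ a, sl0 th gam n (ys (Fin.castAdd k1 a))
  ys1 : ∀ a, sl1 th gam n (ys (Fin.natAdd k0 a))
  ys_on0 : ∀ l, sl0 th gam n l → ∃ a, ys (Fin.castAdd k1 a) = l
  ys_on1 : ∀ l, sl1 th gam n l → ∃ a, ys (Fin.natAdd k0 a) = l
  gs_gr : ∀ u, gr th gam n (gs u)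
  gs_in : StrictMono gs
  gs_on : ∀ l, gr th gam n l → ∃ u, gs u = l

namespace Hyp

variable {D : NDat2} {n d K K' J a₀ w₀ z M w i j r r2 r' r'' y a X : ℕ} {th : ℝ}
  {lam gam : ℕ → ℝ} {κ C₁ C : ℝ} {q : D.Ω → ℝ} {E : D.Ω → Prop} {P : D.Γ × D.Γ → ℕ → PN}
  {S : Slo D} {c k0 k1 : ℕ} {ys : Fin (k0 + k1) → ℕ} {gs : Fin c → ℕ}
  (h : Hyp D n d K K' J a₀ w₀ z M w i j r r2 r' r'' y a X th lam gam κ C₁ C q E P S ys gs)

include h

theorem d1 : 1 ≤ d := h.plc.stp.d1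

theorem i1 : r'' ≤ i := h.plc.i1

theorem i0 : 1 ≤ i := h.plc.y1.trans (h.plc.stp.s7.trans h.plc.a1)

theorem i2 : i + r'' < M := h.plc.i2

theorem j1 : r ≤ j := h.plc.j1

theorem j2 : j + r < M := h.plc.j2

theorem r1 : r' ≤ r'' := h.plc.stp.s6

theorem r2r : r2 ≤ r' := h.plc.stp.s5

theorem y1 : 1 ≤ y := h.plc.y1

theorem ys_sl (b : Fin (k0 + k1)) : sl th gam n (ys b) := by
  refine Fin.addCases (fun a => ?_) (fun a => ?_) b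
  · exact (h.ys0 a).1
  · exact (h.ys1 a).1

theorem ys_on {l : ℕ} (hl : sl th gam n l) : ∃ b, ys b = l := by
  rcases (sl_iff l).1 hl with h1 | h1
  · obtain ⟨a, ha⟩ := h.ys_on0 l h1
    exact ⟨_, ha⟩
  · obtain ⟨a, ha⟩ := h.ys_on1 l h1
    exact ⟨_, ha⟩

end Hyp

/-- The common form of the entropic pieces: the constant `A` depends on
`n, d, K, K', C₁, C, c, k0, k1`. -/
def EntOf (F : ∀ (D : NDat2) (n d J a₀ w₀ z M w i j r X : ℕ) (th : ℝ) (gam : ℕ → ℝ)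
    (q : D.Ω → ℝ) (C : ℝ) (P : D.Γ × D.Γ → ℕ → PN) (S : Slo D) (c k0 k1 : ℕ)
    (ys : Fin (k0 + k1) → ℕ) (gs : Fin c → ℕ) (e : ℝ), Prop) : Prop :=
  ∀ (n d K K' c k0 k1 : ℕ) (C₁ C : ℝ), ∃ A : ℝ, 0 ≤ A ∧
    ∀ (D : NDat2) (J a₀ w₀ z M w i j r r2 r' r'' y a X : ℕ) (th : ℝ) (lam gam : ℕ → ℝ) (κ : ℝ)
      (q : D.Ω → ℝ) (E : D.Ω → Prop) (P : D.Γ × D.Γ → ℕ → PN) (S : Slo D)
      (ys : Fin (k0 + k1) → ℕ) (gs : Fin c → ℕ),
      Hyp D n d K K' J a₀ w₀ z M w i j r r2 r' r'' y a X th lam gam κ C₁ C q E P S ys gs →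
      F D n d J a₀ w₀ z M w i j r X th gam q C P S c k0 k1 ys gs
        (err A κ z X (Pb q (fun ω => ¬ E ω)))

/-- **(H0)** The abstract time is almost independent of the line. -/
def H0Stmt : Prop := EntOf fun D _ d J _ _ z _ w i j r X _ _ q C P S c k0 k1 ys gs e =>
  CH q (tv (c := c) (k0 := k0) (k1 := k1) D J w z i j r X C S ys gs) (cb D J w i j r) ≤
    CH q (tv (c := c) (k0 := k0) (k1 := k1) D J w z i j r X C S ys gs)
      (lv (c := c) (k0 := k0) (k1 := k1) D J w z i j r d X C P ys gs) + e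

/-- **(H2)** The height over the own sheet is almost independent of the data of the line without the
heights of the group. -/
def H2Stmt : Prop := EntOf fun D n d J _ _ z _ w i j r X th gam q C P S c k0 k1 ys gs e =>
  CH q (hv (c := c) (k0 := k0) (k1 := k1) D z i j r X C P S gs n th gam)
      (tv (c := c) (k0 := k0) (k1 := k1) D J w z i j r X C S ys gs) ≤
    CH q (hv (c := c) (k0 := k0) (k1 := k1) D z i j r X C P S gs n th gam)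
      (fun ω => (vv (c := c) (k0 := k0) (k1 := k1) D J w z i j r d X C P ys gs ω,
        tv (c := c) (k0 := k0) (k1 := k1) D J w z i j r X C S ys gs ω)) + e

/-- **(YF)** The constant slow coordinates are full, given the exact time. -/
def YFStmt : Prop := EntOf fun D _ _ J _ _ z _ w i j r X _ _ q C P _ _ k0 k1 ys _ e =>
  (k0 : ℝ) * X * Real.log 2 ≤ CH q (y0v (k0 := k0) (k1 := k1) D J w z i j r X C P ys)
      (fun ω => (cb D J w i j r ω, D.T ω)) + e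

/-- **(LF)** The moving slow coordinates are full, given the constant ones and the nonconstant parts
of the paths of the moving ones. -/
def LFStmt : Prop := EntOf fun D _ d J _ _ z _ w i j r X _ _ q C P _ _ k0 k1 ys _ e =>
  (k1 : ℝ) * X * Real.log 2 ≤ CH q (y1v (k0 := k0) (k1 := k1) D J w z i j r X C P ys)
      (fun ω => (cb D J w i j r ω, (y0v (k0 := k0) (k1 := k1) D J w z i j r X C P ys ω,
        mv (k0 := k0) (k1 := k1) D J w z i j r d X C P ys ω))) + e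

/-- **(TF)** The time is full. -/
def TFStmt : Prop := EntOf fun D _ _ J _ _ _ _ w i j r X _ _ q _ _ _ _ _ _ _ _ e =>
  X * Real.log 2 ≤ CH q (fun ω => tq J w X (D.T ω)) (cb D J w i j r) + e

/-- **(TM)** In one of the windows two times of a line are not near. The window depends only on
`j`: `L` is any function of the exact line and of the window. -/
def TMStmt : Prop :=
  ∀ (η : ℝ), 0 < η → ∃ s : ℝ, 0 < s ∧ ∀ (n K M : ℕ) (C₁ : ℝ), ∃ (κ₀ : ℝ) (z₀ : ℕ), 0 < κ₀ ∧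
    ∀ (D : NDat2) (J a₀ w₀ z j : ℕ) (lam gam : ℕ → ℝ) (κ : ℝ) (q : D.Ω → ℝ),
      κ ≤ κ₀ → z₀ ≤ z → j + 1 ≤ M → D.Ok2 n K J a₀ w₀ z M lam gam κ C₁ q →
      D.TmU J w₀ z κ q →
      ∃ w, w₀ + j * z ≤ w ∧ w ≤ w₀ + (j + 1) * z ∧ ∀ X : ℕ, z ≤ X → X ≤ M * z →
        ∀ (Λ : Type) (L : D.Ω → Λ), (∀ ω ω', 0 < q ω → 0 < q ω' →
          D.wn J w ω = D.wn J w ω' → L ω = L ω') →
        Pb (tup q L 1) (fun v => |(((tq J w X (D.T (v 0)) : ℤ) - tq J w X (D.T (v 1)) : ℤ) : ℝ)| ≤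
          s * 2 ^ X) ≤ η

end Pool.TC
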