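import Pool.Agent.H48.TC.Sk
import Pool.Agent.H12.AF.Gqb

/-!
# (T) is a theorem

`tx2_top`: (T) in the cells with the additional laws, `micT_top`: (T), slopes in `TopM`.
-/

set_option autoImplicit false

namespace Pool.TC

open Pool.STAT

/-- **(T)**, in the cells with the additional laws. -/
theorem tx2_top : Pool.TC14.TX2Stmt TopM := by
  intro n K A B Tl R gam C₁ CL h hn hB hgam hgn hTl hQ hC hh hh1
  exact tx2_of Pool.AF12.geoQA n K A B Tl R gam C₁ CL h hn hB hgam hgn hTl hQ hC hh hh1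

/-- **(T)**. -/
theorem micT_top : MicTStmt TopM := Pool.TC14.red_T tx2_top

/-- Fewer slopes. -/
theorem micT_mono {Q Q' : ℕ → (ℕ → ℝ) → Prop} (h : MicTStmt Q)
    (hQ : ∀ n gam, 0 < gam n → Q' n gam → Q n gam) : MicTStmt Q' := by
  intro n K A B Tl R gam C₁ h' hn hB hgam hgn hTl hQ' hC hh hh1
  exact h n K A B Tl R gam C₁ h' hn hB hgam hgn hTl (hQ n gam hgn hQ') hC hh hh1

/-- No coordinate is faster than the target, and the slope of the target is at most two. -/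
def Top2 (n : ℕ) (gam : ℕ → ℝ) : Prop := TopQ n gam ∧ gam n ≤ 2

/-- **(T)**, the slope of the target is at most two (`1 + gam n ≤ 3`). -/
theorem micT_two : MicTStmt Top2 := micT_mono micT_top fun _ _ _ h => topM_two h.1 h.2

/-- **(T)**, `gam n ≤ 3 / 2`. -/
theorem micT_topN : MicTStmt TopN :=
  micT_mono micT_two fun _ _ _ h => ⟨h.1, h.2.trans (by norm_num)⟩

/-- Dimension at most four, the first coordinate has slope one, the coordinate `l₀` is tied. -/
def Top4 (l₀ n : ℕ) (gam : ℕ → ℝ) : Prop :=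
  TopQ n gam ∧ n ≤ 4 ∧ gam 1 = 0 ∧ 1 ≤ l₀ ∧ l₀ < n ∧ gam l₀ = gam n

/-- **(T)**, dimension at most four, with a tie. -/
theorem micT_four (l₀ : ℕ) : MicTStmt (Top4 l₀) :=
  micT_mono micT_top fun _ _ hg h => topM_four h.1 h.2.1 h.2.2.1 h.2.2.2.1 h.2.2.2.2.1
    h.2.2.2.2.2 hg

/-- No coordinate is faster than the target, and the slope of the target is at most two, or the
dimension is at most four, the first coordinate has slope one and there is a tie with the target. -/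
def TopC (n : ℕ) (gam : ℕ → ℝ) : Prop := TopQ n gam ∧ (gam n ≤ 2 ∨
  (n ≤ 4 ∧ gam 1 = 0 ∧ ∃ l₀ ∈ Finset.Ico 1 n, gam l₀ = gam n))

/-- **(T)**, slopes in `TopC`. -/
theorem micT_C : MicTStmt TopC := by
  refine micT_mono micT_top fun n gam hg h => ?_
  rcases h.2 with h1 | ⟨h1, h2, l₀, h3, h4⟩
  · exact topM_two h.1 h1
  · rw [Finset.mem_Ico] at h3
    exact topM_four h.1 h1 h2 h3.1 h3.2 h4 hg

theorem topC_cl {n : ℕ} (hn : 1 ≤ n) : CondN.Cl (fun _ gam => gam n ≤ 2 ∨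
    (n ≤ 4 ∧ gam 1 = 0 ∧ ∃ l₀ ∈ Finset.Ico 1 n, gam l₀ = gam n)) n where
  cl := by
    have c1 : ∀ l : ℕ, Continuous fun x : (ℕ → ℝ) × (ℕ → ℝ) => x.2 l := fun l =>
      (continuous_apply l).comp continuous_snd
    have e1 : IsClosed {x : (ℕ → ℝ) × (ℕ → ℝ) | ∃ l₀ ∈ Finset.Ico 1 n, x.2 l₀ = x.2 n} := by
      have e2 : {x : (ℕ → ℝ) × (ℕ → ℝ) | ∃ l₀ ∈ Finset.Ico 1 n, x.2 l₀ = x.2 n} =
          ⋃ l₀ ∈ Finset.Ico 1 n, {x : (ℕ → ℝ) × (ℕ → ℝ) | x.2 l₀ = x.2 n} := by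
        ext x
        simp
      rw [e2]
      exact isClosed_biUnion_finset fun l _ => isClosed_eq (c1 l) (c1 n)
    exact (isClosed_le (c1 n) continuous_const).union
      (isClosed_const.inter ((isClosed_eq (c1 1) continuous_const).inter e1))
  loc := by
    intro lam gam lam' gam' _ h2 h3
    rw [h2 n hn le_rfl, h2 1 le_rfl hn]
    refine h3.imp_right fun ⟨a, b, l₀, c, d⟩ => ⟨a, b, l₀, c, ?_⟩
    rw [Finset.mem_Ico] at c
    rw [h2 l₀ c.1 c.2.le, d]

/-- The slopes of the classes, `TopC`. -/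
theorem qTopC_cl {n : ℕ} (hn : 1 ≤ n) (Tl : ℕ → Prop) (c : ℝ) : (QTs TopC Tl c n).Cl n :=
  qTs_cl hn ((topQ_cl hn).and (topC_cl hn)) Tl c

end Pool.TC
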