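import Pool.Agent.H48.TC.Bas
import Pool.Agent.H38.TC.Cg

/-!
# TC: the change of the units between two places of a column

`scl`: the ratio of the units of a coordinate at `(i, j)` and `(i', j)`, without the common factor.
`Mc`: the matrix of the change of the heights of the group. `chg_S`: the digits of the own slopes at
`(i', j)` are near to the changed digits of the own slopes at `(i, j)`.
-/

set_option autoImplicit false

namespace Pool.TC

open Finset Real Matrix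
open Pool.Agent.H49.Ent Pool.Agent.H32.Dense Pool.STK Pool.STAT Pool.TCO
open Pool.BFL (Pb)
open Pool.P4 (t0 rt pp PthC FraC bb ze zt z0 cl1 dg dgp Ry cb LLC tq GoodS FrP err dg_near)

/-- The ratio of the units without the common factor. -/
noncomputable def scl (D : NDat2) (z i i' j l : ℕ) : ℝ :=
  rho (D.g i j) (D.g i' j) l / 2 ^ ((i' - i) * z)

theorem scl_pos (D : NDat2) (z i i' j l : ℕ) : 0 < scl D z i i' j l := by
  unfold scl
  have := rho_pos (D.g i j) (D.g i' j) l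
  positivity

/-- The ratio is moderate. -/
theorem scl_bd {D : NDat2} {n K J a₀ w₀ z M : ℕ} {lam gam : ℕ → ℝ} {κ C₁ : ℝ} {q : D.Ω → ℝ}
    (hO : D.Ok2 n K J a₀ w₀ z M lam gam κ C₁ q) (hlam : ∀ l, 1 ≤ l → l ≤ n → lam l = 1)
    (hC : 0 ≤ C₁) {i i' j l : ℕ} (ii : i ≤ i') (iM : i' ≤ M) (jM : j ≤ M) (l1 : 1 ≤ l)
    (ln : l ≤ n) :
    scl D z i i' j l ≤ exp (2 * C₁ * z) ∧ 1 / scl D z i i' j l ≤ exp (2 * C₁ * z) := by
  have e1 := hO.hom i (ii.trans iM) j jM l l1 ln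
  have e2 := hO.hom i' iM j jM l l1 ln
  rw [hlam l l1 ln, one_mul] at e1 e2
  obtain ⟨x, hx⟩ : ∃ x : ℝ, x = (D.g i' j l : ℝ) - D.g i j l - ((i' : ℝ) - i) * z := ⟨_, rfl⟩
  have hxb : |x| ≤ 2 * C₁ * z := by
    rw [hx]
    rw [abs_le] at e1 e2 ⊢
    constructor <;> linarith [e1.1, e1.2, e2.1, e2.2]
  have h2 : ∀ m : ℕ, (2 : ℝ) ^ m = exp (m * Real.log 2) := by
    intro m
    rw [← Real.rpow_natCast, Real.rpow_def_of_pos (by norm_num), mul_comm]
  have e3 : scl D z i i' j l = exp (x * Real.log 2) := by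
    unfold scl rho
    rw [h2, h2, h2, ← Real.exp_sub, ← Real.exp_sub]
    congr 1
    rw [hx]
    push_cast [Nat.cast_sub ii]
    ring
  have hl : 0 < Real.log 2 := Real.log_pos (by norm_num)
  have hl1 : Real.log 2 ≤ 1 := by
    have := Real.log_le_sub_one_of_pos (show (0 : ℝ) < 2 by norm_num)
    linarith
  have hz : 0 ≤ 2 * C₁ * (z : ℝ) := by positivity
  have h3 : |x * Real.log 2| ≤ 2 * C₁ * z := by
    rw [abs_mul, abs_of_pos hl]
    calc |x| * Real.log 2 ≤ (2 * C₁ * z) * 1 := mul_le_mul hxb hl1 hl.le hz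
      _ = _ := mul_one _
  rw [abs_le] at h3
  rw [e3, one_div, ← Real.exp_neg]
  exact ⟨Real.exp_le_exp.2 h3.2, Real.exp_le_exp.2 (by linarith [h3.1])⟩

/-- The change of the heights of the group. -/
noncomputable def Mc {c : ℕ} (D : NDat2) (z i i' j : ℕ) (gs : Fin c → ℕ) :
    Matrix (Fin c) (Fin c) ℝ := Matrix.diagonal fun u => scl D z i i' j (gs u)

theorem Mc_det {c : ℕ} (D : NDat2) (z i i' j : ℕ) (gs : Fin c → ℕ) :
    (Mc D z i i' j gs).det ≠ 0 := by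
  unfold Mc
  rw [Matrix.det_diagonal]
  exact Finset.prod_ne_zero_iff.2 fun u _ => (scl_pos _ _ _ _ _ _).ne'

theorem Mc_inv {c : ℕ} (D : NDat2) (z i i' j : ℕ) (gs : Fin c → ℕ) :
    (Mc D z i i' j gs)⁻¹ = Matrix.diagonal fun u => 1 / scl D z i i' j (gs u) := by
  refine Matrix.inv_eq_left_inv ?_
  unfold Mc
  rw [Matrix.diagonal_mul_diagonal]
  have : (fun u => 1 / scl D z i i' j (gs u) * scl D z i i' j (gs u)) = fun _ : Fin c => (1 : ℝ) :=
    funext fun u => by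
      have := (scl_pos D z i i' j (gs u)).ne'
      field_simp
  rw [this, Matrix.diagonal_one]

theorem diag_bd {c : ℕ} {f : Fin c → ℝ} {B : ℝ} (hB : 0 ≤ B) (h0 : ∀ u, 0 ≤ f u)
    (h : ∀ u, f u ≤ B) (a b : Fin c) : |Matrix.diagonal f a b| ≤ B := by
  by_cases e : a = b
  · rw [← e, Matrix.diagonal_apply_eq, abs_of_nonneg (h0 a)]
    exact h a
  · rw [Matrix.diagonal_apply_ne _ e, abs_zero]
    exact hB

section

variable {D : NDat2} {n d K K' J a₀ w₀ z M w i i' j r r2 r' r'' y a X : ℕ} {th : ℝ}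
  {lam gam : ℕ → ℝ} {κ C₁ C : ℝ} {q : D.Ω → ℝ} {E : D.Ω → Prop} {P P' : D.Γ × D.Γ → ℕ → PN}
  {S S' : Slo D} {c k0 k1 : ℕ} {ys : Fin (k0 + k1) → ℕ} {gs : Fin c → ℕ}
  (H : Hyp D n d K K' J a₀ w₀ z M w i j r r2 r' r'' y a X th lam gam κ C₁ C q E P S ys gs)
  (H' : Hyp D n d K K' J a₀ w₀ z M w i' j r r2 r' r'' y a X th lam gam κ C₁ C q E P' S' ys gs)
  (ii : i ≤ i')

include H H' ii

theorem Mc_bd (u v : Fin c) : |Mc D z i i' j gs u v| ≤ exp (2 * C₁ * z) := by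
  have h1 := H.C1
  have h2 := H'.i2
  have h3 := H.j2
  refine diag_bd (Real.exp_pos _).le (fun u => (scl_pos _ _ _ _ _ _).le) (fun u => ?_) u v
  exact (scl_bd H.ok H.lam1 (by linarith) ii (by omega) (by omega) (H.gs_n u).1 (H.gs_n u).2).1

theorem Mc_ibd (u v : Fin c) : |(Mc D z i i' j gs)⁻¹ u v| ≤ exp (2 * C₁ * z) := by
  have h1 := H.C1
  have h2 := H'.i2
  have h3 := H.j2
  rw [Mc_inv]
  refine diag_bd (Real.exp_pos _).le (fun u => ?_) (fun u => ?_) u v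
  · have := scl_pos D z i i' j (gs u)
    positivity
  · exact (scl_bd H.ok H.lam1 (by linarith) ii (by omega) (by omega) (H.gs_n u).1
      (H.gs_n u).2).2

theorem pc_bd (b : Fin (k0 + k1)) : |1 / scl D z i i' j (ys b)| ≤ exp (2 * C₁ * z) := by
  have h1 := H.C1
  have h2 := H'.i2
  have h3 := H.j2
  have h4 := scl_pos D z i i' j (ys b)
  rw [abs_of_pos (by positivity)]
  exact (scl_bd H.ok H.lam1 (by linarith) ii (by omega) (by omega) (H.ys_n b).1 (H.ys_n b).2).2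

/-- **The change of the digits of the own slopes.** -/
theorem chg_S (hS : ∀ ω u k, S'.S ω u k =
      rho (D.g i j) (D.g i' j) u / rho (D.g i j) (D.g i' j) k * S.S ω u k)
    (ω : D.Ω) (u : Fin c) (b : Fin (k0 + k1)) :
    |(Sv D z X C S' ys gs ω u b : ℝ) / 2 ^ X - (1 / scl D z i i' j (ys b)) *
      (scl D z i i' j (gs u) * ((Sv D z X C S ys gs ω u b : ℝ) / 2 ^ X))| ≤
      (1 + exp (4 * C₁ * z)) / 2 ^ X := by
  have hC1 := H.C1
  have h2 := H'.i2
  have h3 := H.j2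
  have hX : (0 : ℝ) < 2 ^ X := by positivity
  have s1 : |S.S ω (gs u) (ys b) * (2 * Ry z C) / Rg z C| ≤ 1 := H.S_le1 (H.geo.bS ω _ _)
  have s2 : |S'.S ω (gs u) (ys b) * (2 * Ry z C) / Rg z C| ≤ 1 := H'.S_le1 (H'.geo.bS ω _ _)
  have d1 : |(Sv D z X C S ys gs ω u b : ℝ) -
      2 ^ X * (S.S ω (gs u) (ys b) * (2 * Ry z C) / Rg z C)| ≤ 1 := dg_near s1
  have d2 : |(Sv D z X C S' ys gs ω u b : ℝ) -
      2 ^ X * (S'.S ω (gs u) (ys b) * (2 * Ry z C) / Rg z C)| ≤ 1 := dg_near s2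
  obtain ⟨f, hf⟩ : ∃ f : ℝ, f = rho (D.g i j) (D.g i' j) (gs u) /
    rho (D.g i j) (D.g i' j) (ys b) := ⟨_, rfl⟩
  have f0 : 0 ≤ f := by
    rw [hf]
    exact div_nonneg (rho_pos _ _ _).le (rho_pos _ _ _).le
  have f1 : f ≤ exp (4 * C₁ * z) := by
    rw [hf]
    exact rho_le H.ok H.lam1 (by omega) (by omega) (by omega) (by linarith) (H.gs_n u).1
      (H.gs_n u).2 (H.ys_n b).1 (H.ys_n b).2
  have e1 : (1 / scl D z i i' j (ys b)) * (scl D z i i' j (gs u) *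
      ((Sv D z X C S ys gs ω u b : ℝ) / 2 ^ X)) = f * ((Sv D z X C S ys gs ω u b : ℝ) / 2 ^ X) := by
    rw [hf]
    unfold scl
    have p1 := (rho_pos (D.g i j) (D.g i' j) (ys b)).ne'
    have p2 : (2 : ℝ) ^ ((i' - i) * z) ≠ 0 := by positivity
    field_simp
  rw [hS ω (gs u) (ys b), ← hf] at d2
  rw [e1]
  have e2 : (Sv D z X C S' ys gs ω u b : ℝ) / 2 ^ X - f * ((Sv D z X C S ys gs ω u b : ℝ) / 2 ^ X) =
      (((Sv D z X C S' ys gs ω u b : ℝ) -
        2 ^ X * (f * S.S ω (gs u) (ys b) * (2 * Ry z C) / Rg z C)) -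
      f * ((Sv D z X C S ys gs ω u b : ℝ) -
      2 ^ X * (S.S ω (gs u) (ys b) * (2 * Ry z C) / Rg z C))) / 2 ^ X := by
    field_simp
    ring
  rw [e2, abs_div, abs_of_pos hX]
  refine div_le_div_of_nonneg_right ?_ hX.le
  refine (abs_sub _ _).trans (add_le_add d2 ?_)
  rw [abs_mul, abs_of_nonneg f0]
  calc _ ≤ exp (4 * C₁ * z) * 1 := mul_le_mul f1 d1 (abs_nonneg _) (Real.exp_pos _).le
    _ = _ := mul_one _

/-- **The change**, in the letters of the chain: `e` is a column of the digits. -/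
theorem chg_mul (hS : ∀ ω u k, S'.S ω u k =
      rho (D.g i j) (D.g i' j) u / rho (D.g i j) (D.g i' j) k * S.S ω u k)
    (ω : D.Ω) (u : Fin c) (b : Fin (k0 + k1)) :
    |(Sv D z X C S' ys gs ω u b : ℝ) / 2 ^ X - (1 / scl D z i i' j (ys b)) *
      (Mc D z i i' j gs *ᵥ fun v => (Sv D z X C S ys gs ω v b : ℝ) / 2 ^ X) u| ≤
      (1 + exp (4 * C₁ * z)) / 2 ^ X := by
  have h := chg_S H H' ii hS ω u b
  have e1 : (Mc D z i i' j gs *ᵥ fun v => (Sv D z X C S ys gs ω v b : ℝ) / 2 ^ X) u =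
      scl D z i i' j (gs u) * ((Sv D z X C S ys gs ω u b : ℝ) / 2 ^ X) := by
    unfold Mc
    rw [Matrix.mulVec_diagonal]
  rw [e1]
  exact h

end

end Pool.TC
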