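import Pool.Agent.H48.TC.Qb
import Pool.Agent.H48.TC.Chg

/-!
# TC: the change of the pictures between two places of a column
-/

set_option autoImplicit false

namespace Pool.TC

open Finset Real Matrix
open Pool.Agent.H49.Ent Pool.Agent.H32.Dense Pool.STK Pool.STAT Pool.TCO
open Pool.BFL (Pb)
open Pool.P4 (t0 rt pp PthC FraC bb ze zt z0 cl1 dg dgp Ry cb LLC tq GoodS FrP err dg_near)

section

variable {D : NDat2} {n d K K' J a₀ w₀ z M w i i' j r r2 r' r'' y a X : ℕ} {th : ℝ}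
  {lam gam : ℕ → ℝ} {κ C₁ C : ℝ} {q : D.Ω → ℝ} {E : D.Ω → Prop} {P P' : D.Γ × D.Γ → ℕ → PN}
  {S S' : Slo D} {c k0 k1 : ℕ} {ys : Fin (k0 + k1) → ℕ} {gs : Fin c → ℕ}
  (H : Hyp D n d K K' J a₀ w₀ z M w i j r r2 r' r'' y a X th lam gam κ C₁ C q E P S ys gs)
  (H' : Hyp D n d K K' J a₀ w₀ z M w i' j r r2 r' r'' y a X th lam gam κ C₁ C q E P' S' ys gs)
  (ii : i ≤ i')

include H H' ii

/-- The change of the first picture. -/
theorem chg_qa (hS : ∀ ω u k, S'.S ω u k =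
      rho (D.g i j) (D.g i' j) u / rho (D.g i j) (D.g i' j) k * S.S ω u k)
    {p p' : D.Ω → ℝ} {ρ ρ' : D.Ω → D.Ω} {JT JT' : Type} {jq : D.Ω → JT} {jq' : D.Ω → JT'}
    (ω : D.Ω) (l : Fin k1) (u : Fin c) :
    |(qa D J w z i' j r d X C P' S' ys gs p' ρ' jq').E
        ((qa D J w z i' j r d X C P' S' ys gs p' ρ' jq').th ω) l u -
      (1 / scl D z i i' j (ys (Fin.natAdd k0 l))) *
        (Mc D z i i' j gs *ᵥ (qa D J w z i j r d X C P S ys gs p ρ jq).E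
          ((qa D J w z i j r d X C P S ys gs p ρ jq).th ω) l) u| ≤
      (1 + exp (4 * C₁ * z)) / 2 ^ X :=
  chg_mul H H' ii hS ω u (Fin.natAdd k0 l)

/-- The change of the second picture. -/
theorem chg_qb (hS : ∀ ω u k, S'.S ω u k =
      rho (D.g i j) (D.g i' j) u / rho (D.g i j) (D.g i' j) k * S.S ω u k)
    {p p' : D.Ω → ℝ} {ρ ρ' : D.Ω → D.Ω} {JT JT' : Type} {jq : D.Ω → JT} {jq' : D.Ω → JT'}
    {jr : JT → Fin (d + 1) → Fin c → Fin k1 → ℝ} {jr' : JT' → Fin (d + 1) → Fin c → Fin k1 → ℝ}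
    (ω : D.Ω) (b : Fin k0) (u : Fin c) :
    |(qb D J w z i' j r d X C P' S' ys gs p' ρ' jq' jr').E
        ((qb D J w z i' j r d X C P' S' ys gs p' ρ' jq' jr').th ω) b u -
      (1 / scl D z i i' j (ys (Fin.castAdd k1 b))) *
        (Mc D z i i' j gs *ᵥ (qb D J w z i j r d X C P S ys gs p ρ jq jr).E
          ((qb D J w z i j r d X C P S ys gs p ρ jq jr).th ω) b) u| ≤
      (1 + exp (4 * C₁ * z)) / 2 ^ X :=
  chg_mul H H' ii hS ω u (Fin.castAdd k1 b)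

end

end Pool.TC
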