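import Pool.Agent.H48.TC.Num
import Pool.Agent.H38.TC.GeoQ

/-!
# TC: the places of a column

`geo_mono`: a larger constant. `enu_ex`: the slow coordinates and the group are enumerated.
`hyp_col`: all the places of a column satisfy `Hyp`.
-/

set_option autoImplicit false

namespace Pool.TC

open Finset Real MvPolynomial
open Pool.Agent.H49.Ent Pool.Agent.H32.Dense Pool.STK Pool.STAT Pool.MIC.Frm Pool.MIC7 Pool.FRM
open Pool.GSD Pool.TCO
open Pool.BFL (Pb)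
open Pool.P4 (t0 rt pp PthC FraC bb ze zt z0 cl1 dg dgp Ry cb LLC tq GoodS FrP err exp_mz)

/-- A larger constant. -/
theorem geo_mono {D : NDat2} {n d K' J w₀ z i j r r2 r' r'' : ℕ} {th : ℝ} {gam : ℕ → ℝ}
    {C C' τ τ' : ℝ} {q : D.Ω → ℝ} {E : D.Ω → Prop} {P : D.Γ × D.Γ → ℕ → PN} {S : Slo D}
    (h : Geo D n d K' J w₀ z i j r r2 r' r'' th gam C τ q E P S) (hC : C ≤ C') (hτ0 : 0 ≤ τ)
    (hτ : τ ≤ τ') : Geo D n d K' J w₀ z i j r r2 r' r'' th gam C' τ' q E P S where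
  tri := h.tri
  deg := h.deg
  near := fun ω hω hE i' hi' l hl =>
    ⟨(h.near ω hω hE i' hi' l hl).1.trans
      (div_le_div_of_nonneg_right (exp_mz hC z) (by positivity)),
      (h.near ω hω hE i' hi' l hl).2.trans
      (div_le_div_of_nonneg_right (exp_mz hC z) (by positivity))⟩
  bz := fun ω hω hE l h1 h2 => (h.bz ω hω hE l h1 h2).trans (exp_mz hC z)
  bt := fun ω hω hE l h1 h2 w w1 w2 =>
    ⟨(h.bt ω hω hE l h1 h2 w w1 w2).1.trans (exp_mz hC z),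
      fun s s1 s2 => ((h.bt ω hω hE l h1 h2 w w1 w2).2 s s1 s2).trans (exp_mz hC z)⟩
  bS := fun ω u k => (h.bS ω u k).trans (exp_mz hC z)
  bEl := fun ω u k => (h.bEl ω u k).trans (exp_mz hC z)
  tS := h.tS
  tE := h.tE
  slow0 := fun ω hω hE l hl w w1 w2 =>
    ⟨(h.slow0 ω hω hE l hl w w1 w2).1.trans hτ,
      fun s s1 s2 => ((h.slow0 ω hω hE l hl w w1 w2).2 s s1 s2).trans hτ⟩
  path := fun ω hω hE l l1 l2 w w1 w2 => (h.path ω hω hE l l1 l2 w w1 w2).trans hτ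
  pathx := fun ω hω hE l l1 l2 w w1 w2 x x0 x1 =>
    (h.pathx ω hω hE l l1 l2 w w1 w2 x x0 x1).trans hτ
  left2 := fun ω ω' a b c d' e f w w1 w2 g =>
    ⟨fun l hl => ((h.left2 ω ω' a b c d' e f w w1 w2 g).1 l hl).trans hτ,
      fun l hl s s1 s2 => ((h.left2 ω ω' a b c d' e f w w1 w2 g).2 l hl s s1 s2).trans hτ⟩
  left := fun ω ω' a b c d' e f w w1 w2 g =>
    ⟨fun l hl => ⟨((h.left ω ω' a b c d' e f w w1 w2 g).1 l hl).1.trans hτ,
        fun s s1 s2 => (((h.left ω ω' a b c d' e f w w1 w2 g).1 l hl).2 s s1 s2).trans hτ⟩,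
      fun l hl s s1 s2 => ((h.left ω ω' a b c d' e f w w1 w2 g).2 l hl s s1 s2).trans hτ⟩
  left3 := fun ω ω' a b c d' e f w w1 w2 g l l1 l2 =>
    ⟨(h.left3 ω ω' a b c d' e f w w1 w2 g l l1 l2).1.trans hτ,
      fun s s1 s2 => ((h.left3 ω ω' a b c d' e f w w1 w2 g l l1 l2).2 s s1 s2).trans hτ⟩
  right := fun ω ω' a b c d' e f g u hu =>
    ⟨(h.right ω ω' a b c d' e f g u hu).1.trans hτ,
      fun k hk => ((h.right ω ω' a b c d' e f g u hu).2 k hk).trans hτ⟩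
  right2 := fun ω ω' a b c d' e f g =>
    ⟨fun u hu k hk => ((h.right2 ω ω' a b c d' e f g).1 u hu k hk).trans hτ,
      fun l hl k hk => ((h.right2 ω ω' a b c d' e f g).2 l hl k hk).trans hτ⟩
  leaf := fun ω ω' a b c d' e f g l hl =>
    ⟨(h.leaf ω ω' a b c d' e f g l hl).1.trans hτ,
      fun k hk => ((h.leaf ω ω' a b c d' e f g l hl).2 k hk).trans hτ⟩
  sheet := fun ω hω hE Bx hB b hb h1 h2 u hu => by
    refine (h.sheet ω hω hE Bx hB b hb h1 h2 u hu).trans ?_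
    refine mul_le_mul ?_ hτ hτ0 (Real.exp_pos _).le
    rw [mul_assoc, mul_assoc]
    refine Real.exp_le_exp.mpr (mul_le_mul_of_nonneg_right hC ?_)
    have : (0 : ℝ) ≤ z := Nat.cast_nonneg z
    nlinarith
  toV := fun ω ω' a b c d' e f l h1 h2 δ hδ g =>
    (h.toV ω ω' a b c d' e f l h1 h2 δ hδ g).trans (mul_le_mul_of_nonneg_right (exp_mz hC z) hδ)
  ofV := fun ω ω' a b c d' e f l h1 h2 δ hδ g =>
    (h.ofV ω ω' a b c d' e f l h1 h2 δ hδ g).trans (mul_le_mul_of_nonneg_right (exp_mz hC z) hδ)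

/-! ### The enumerations -/

/-- The enumerations of the slow coordinates and of the group. -/
structure Enu (th : ℝ) (gam : ℕ → ℝ) (n : ℕ) {c k0 k1 : ℕ} (ys : Fin (k0 + k1) → ℕ)
    (gs : Fin c → ℕ) : Prop where
  ys_in : Function.Injective ys
  ys0 : ∀ a, sl0 th gam n (ys (Fin.castAdd k1 a))
  ys1 : ∀ a, sl1 th gam n (ys (Fin.natAdd k0 a))
  ys_on0 : ∀ l, sl0 th gam n l → ∃ a, ys (Fin.castAdd k1 a) = l
  ys_on1 : ∀ l, sl1 th gam n l → ∃ a, ys (Fin.natAdd k0 a) = l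
  gs_gr : ∀ u, gr th gam n (gs u)
  gs_in : StrictMono gs
  gs_on : ∀ l, gr th gam n l → ∃ u, gs u = l

theorem enu_ex (th : ℝ) (gam : ℕ → ℝ) (n : ℕ) : ∃ (c k0 k1 : ℕ) (ys : Fin (k0 + k1) → ℕ)
    (gs : Fin c → ℕ), Enu th gam n ys gs := by
  classical
  have key : ∀ p : ℕ → Prop, (∀ l, p l → l ≤ n) → ∃ (m : ℕ) (f : Fin m → ℕ), StrictMono f ∧
      (∀ a, p (f a)) ∧ ∀ l, p l → ∃ a, f a = l := by
    intro p hp
    refine ⟨_, ((range (n + 1)).filter p).orderEmbOfFin rfl, OrderEmbedding.strictMono _, ?_, ?_⟩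
    · intro a
      have := Finset.orderEmbOfFin_mem ((range (n + 1)).filter p) rfl a
      exact (Finset.mem_filter.1 this).2
    · intro l hl
      have h1 : l ∈ (range (n + 1)).filter p :=
        Finset.mem_filter.2 ⟨Finset.mem_range.2 (by have := hp l hl; omega), hl⟩
      have h2 := Finset.range_orderEmbOfFin ((range (n + 1)).filter p) rfl
      have h3 : l ∈ Set.range (((range (n + 1)).filter p).orderEmbOfFin rfl) := by
        rw [h2]
        exact h1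
      exact h3
  obtain ⟨c, gs, g1, g2, g3⟩ := key (gr th gam n) fun l hl => hl.2.1
  obtain ⟨k0, y0, a1, a2, a3⟩ := key (sl0 th gam n) fun l hl => hl.1.2.1.le
  obtain ⟨k1, y1, b1, b2, b3⟩ := key (sl1 th gam n) fun l hl => hl.1.2.1.le
  refine ⟨c, k0, k1, Fin.addCases y0 y1, gs, ?_⟩
  refine
    { ys_in := ?_
      ys0 := fun a => by rw [Fin.addCases_left]; exact a2 a
      ys1 := fun a => by rw [Fin.addCases_right]; exact b2 a
      ys_on0 := fun l hl => by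
        obtain ⟨a, ha⟩ := a3 l hl
        exact ⟨a, by rw [Fin.addCases_left]; exact ha⟩
      ys_on1 := fun l hl => by
        obtain ⟨a, ha⟩ := b3 l hl
        exact ⟨a, by rw [Fin.addCases_right]; exact ha⟩
      gs_gr := g2
      gs_in := g1
      gs_on := g3 }
  intro x y
  refine Fin.addCases (fun a => ?_) (fun a => ?_) x <;>
    refine Fin.addCases (fun b => ?_) (fun b => ?_) y
  · intro e
    simp only [Fin.addCases_left] at e
    rw [a1.injective e]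
  · intro e
    simp only [Fin.addCases_left, Fin.addCases_right] at e
    exact absurd (e ▸ b2 b) fun h => sl0_sl1 (a2 a) h
  · intro e
    simp only [Fin.addCases_left, Fin.addCases_right] at e
    exact absurd (e ▸ b2 a) fun h => sl0_sl1 (a2 b) h
  · intro e
    simp only [Fin.addCases_right] at e
    rw [b1.injective e]

/-- The target is in the group. -/
theorem Enu.tgt {th : ℝ} {gam : ℕ → ℝ} {n c k0 k1 : ℕ} {ys : Fin (k0 + k1) → ℕ}
    {gs : Fin c → ℕ} (h : Enu th gam n ys gs) (hn : 1 ≤ n) (hg : th ≤ gam n) :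
    ∃ n₀, gs n₀ = n := h.gs_on n ⟨hn, le_rfl, hg⟩

/-! ### The places -/

/-- **All the places of a column satisfy `Hyp`.** -/
theorem hyp_col {D : NDat2} {n d K K' J a₀ w₀ z M w j r r2 r' r'' y a x X Q : ℕ} {th : ℝ}
    {lam gam : ℕ → ℝ} {κ C₁ C₀ C CL : ℝ} {q : D.Ω → ℝ} {E : D.Ω → Prop}
    {P : ℕ → D.Γ × D.Γ → ℕ → PN} {V : D.Ω → ℕ → PN} {pl : ℕ → ℕ} {c k0 k1 : ℕ}
    {ys : Fin (k0 + k1) → ℕ} {gs : Fin c → ℕ}
    (hO : D.Ok2 n K J a₀ w₀ z M lam gam κ C₁ q) (hDM : D.DMA z M κ q) (hLL : LLC D n z M CL q)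
    (hT : D.TmU J w₀ z κ q) (n1 : 1 ≤ n) (hC₁ : 1 ≤ C₁) (hC₀ : 1 ≤ C₀) (hCC : C₀ ≤ C)
    (hCL : CL ≤ C) (κ0 : 0 ≤ κ) (z1 : 1 ≤ z) (lam1 : ∀ l, 1 ≤ l → l ≤ n → lam l = 1)
    (gam0 : ∀ l, 0 ≤ gam l) (hP : ∀ m ≤ Q, Plc n d th gam y r r2 r' r'' a M (pl m) j)
    (w1 : w₀ + j * z ≤ w) (w2 : w ≤ w₀ + (j + 1) * z) (pE : Pb q (fun ω => ¬ E ω) ≤ 1 / 2)
    (hgd : ∀ m ≤ Q, ∀ ω, E ω → 0 < q ω ∧ GoodS D n K' w₀ z M C₀ ω ∧
      FrP D n K' z (pl m) j r C₀ (P m (bb D (pl m) j r ω)) ω)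
    (hgeo : ∀ m ≤ Q,
      Geo D n d K' J w₀ z (pl m) j r r2 r' r'' th gam C₀ (exp (C₀ * z) / 2 ^ (y * z)) q E (P m)
        ⟨Sm D n (pl 0) (pl m) j r (sl th gam n) E (P 0) V,
          Sm D n (pl 0) (pl m) j r (sl0 th gam n) E (P 0) V⟩ ∧
      Dep D n d J w₀ z M (pl m) j r C₀ q E (P m))
    (hX : X = x * z) (hy : C ≤ ((y : ℝ) - x) * Real.log 2)
    (hxi : ∀ m ≤ Q, pl m + x + r'' < M) (hxj : j + x * r < M) (hE : Enu th gam n ys gs) :
    ∀ m ≤ Q, Hyp D n d K K' J a₀ w₀ z M w (pl m) j r r2 r' r'' y a X th lam gam κ C₁ C q E (P m)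
      ⟨Sm D n (pl 0) (pl m) j r (sl th gam n) E (P 0) V,
        Sm D n (pl 0) (pl m) j r (sl0 th gam n) E (P 0) V⟩ ys gs := by
  intro m hm
  refine
    { ok := hO
      dma := hDM
      llc := fun i j r U h1 h2 h3 h4 => by
        have h5 : CL * z ≤ C * z := mul_le_mul_of_nonneg_right hCL (Nat.cast_nonneg z)
        linarith [hLL i j r U h1 h2 h3 h4]
      tmu := hT
      n1 := n1
      C1 := hC₁
      Cg := hC₀.trans hCC
      κ0 := κ0
      z1 := z1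
      lam1 := lam1
      gam0 := gam0
      plc := hP m hm
      w1 := w1
      w2 := w2
      pE := ?_
      geo := geo_mono (hgeo m hm).1 hCC (by positivity)
        (div_le_div_of_nonneg_right (exp_mz hCC z) (by positivity))
      gd := fun ω hω => ⟨(hgd m hm ω hω).1, (hgd m hm ω hω).2.1.mono hCC,
        (hgd m hm ω hω).2.2.mono hCC⟩
      dep := dep_mono (hgeo m hm).2 hCC
      yX := by
        rw [hX]
        exact exp_pow_le hy
      Xz := ⟨x, hX, hxi m hm⟩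
      Xr := fun x' hx' => by
        have e1 : x = x' := Nat.eq_of_mul_eq_mul_right (by omega) (hX.symm.trans hx')
        rw [← e1]
        exact hxj
      ys_in := hE.ys_in
      ys0 := hE.ys0
      ys1 := hE.ys1
      ys_on0 := hE.ys_on0
      ys_on1 := hE.ys_on1
      gs_gr := hE.gs_gr
      gs_in := hE.gs_in
      gs_on := hE.gs_on }
  have := Pool.MIC.Pb_not hO.isLaw.sum_one E
  linarith

/-- The numbers of a column: `Q + 1` places, `x z` digits. -/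
structure Nums (n d : ℕ) (th : ℝ) (gam : ℕ → ℝ) (C : ℝ) (Q x y₀ s₀ y r r2 r' r'' a s i₀ j M₀ :
    ℕ) : Prop where
  y1 : 1 ≤ y
  y0 : y₀ ≤ y
  hy : C ≤ ((y : ℝ) - x) * Real.log 2
  hs : C ≤ ((s : ℝ) - x) * Real.log 2
  s0 : s₀ ≤ s
  rs : r ≤ s
  s1 : 1 ≤ s
  plc : ∀ M ≥ M₀, ∀ m ≤ Q, Plc n d th gam y r r2 r' r'' a M (i₀ + m * s) j
  hxi : ∀ M ≥ M₀, ∀ m ≤ Q, i₀ + m * s + x + r'' < M
  hxj : ∀ M ≥ M₀, j + x * r < M

theorem nums_ex (n d : ℕ) (th : ℝ) (gam : ℕ → ℝ) (hd : 1 ≤ d) (hth : 0 < th) (hn : th ≤ gam n)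
    (hm : ∀ l l', sl1 th gam n l → sl1 th gam n l' → gam l < gam l' + 1)
    (hg : ∀ l l', gr th gam n l → gr th gam n l' → gam l < gam l' + 1)
    (hgd : ∀ l, 1 ≤ l → l ≤ n → gam l < d + 1) (C : ℝ) (Q x y₀ s₀ : ℕ) :
    ∃ y r r2 r' r'' a s i₀ j M₀ : ℕ,
      Nums n d th gam C Q x y₀ s₀ y r r2 r' r'' a s i₀ j M₀ := by
  have hlog : 0 < Real.log 2 := Real.log_pos (by norm_num)
  obtain ⟨k, hk⟩ : ∃ k : ℕ, C / Real.log 2 ≤ k := exists_nat_ge _
  rw [div_le_iff₀ hlog] at hk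
  obtain ⟨y, hy⟩ : ∃ y : ℕ, y = y₀ + x + k + 1 := ⟨_, rfl⟩
  obtain ⟨r, h1⟩ := stp_ex n d th gam hd hth hn hm hg hgd y
  obtain ⟨r2, r', r'', h2⟩ := h1 r le_rfl
  have h3 := h2 r'' le_rfl y le_rfl
  obtain ⟨s, hs⟩ : ∃ s : ℕ, s = s₀ + x + k + r + 1 := ⟨_, rfl⟩
  refine ⟨y, r, r2, r', r'', y, s, r'' + y, r, r'' + y + Q * s + x + r'' + (r + x * r + r) + 1,
    ?_⟩
  have key : ∀ m ≤ Q, m * s ≤ Q * s := fun m hm => Nat.mul_le_mul_right _ hm
  refine
    { y1 := by omega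
      y0 := by omega
      hy := ?_
      hs := ?_
      s0 := by omega
      rs := by omega
      s1 := by omega
      plc := fun M hM m hm => ⟨h3, by omega, by omega, by omega, by have := key m hm; omega,
        le_rfl, by omega⟩
      hxi := fun M hM m hm => by have := key m hm; omega
      hxj := fun M hM => by omega }
  · have e1 : (k : ℝ) ≤ (y : ℝ) - x := by
      rw [hy]
      push_cast
      have : (0 : ℝ) ≤ y₀ := Nat.cast_nonneg _
      linarith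
    exact hk.trans (mul_le_mul_of_nonneg_right e1 hlog.le)
  · have e1 : (k : ℝ) ≤ (s : ℝ) - x := by
      rw [hs]
      push_cast
      have : (0 : ℝ) ≤ s₀ := Nat.cast_nonneg _
      have : (0 : ℝ) ≤ r := Nat.cast_nonneg _
      linarith
    exact hk.trans (mul_le_mul_of_nonneg_right e1 hlog.le)

end Pool.TC
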