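import Pool.Agent.H48.TC.Col
import Pool.Agent.H78.TT.Stm
import Pool.Agent.H25.TC.GtD
import Pool.Agent.H55.GEN.GluP

/-!
# TC: smaller cells
-/

set_option autoImplicit false

namespace Pool.TC

open Finset Real MvPolynomial
open Pool.Agent.H49.Ent Pool.Agent.H32.Dense Pool.STK Pool.STAT Pool.MIC.Frm Pool.MIC7 Pool.FRM
open Pool.GSD Pool.TCO
open Pool.BFL (Pb)
open Pool.P4 (t0 rt pp PthC FraC bb ze zt z0 cl1 dg dgp Ry cb LLC tq GoodS FrP err exp_mz GnL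
  NewLabT NBT GoodU)
open Pool.STAT.Glu (kN)

/-! ### Smaller cells -/

section

variable {D : NDat2} {n J w₀ z M M' : ℕ} {q : D.Ω → ℝ}

theorem dma_subM {κ : ℝ} (h : D.DMA z M κ q) (hM : M' ≤ M) : D.DMA z M' κ q :=
  fun i j a b s s' h1 h2 h3 h4 => h i j a b s s' (h1.trans hM) h2 h3 (h4.trans hM)

theorem llc_subM {C : ℝ} (h : LLC D n z M C q) (hM : M' ≤ M) : LLC D n z M' C q :=
  fun i j r U h1 h2 h3 h4 => h i j r U h1 h2 (h3.trans_le hM) (h4.trans_le hM)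

theorem slp_subM (h : D.Slp n J z M q) (hM : M' ≤ M) : D.Slp n J z M' q := by
  intro i hi j hj ω hω l l1 l2 b b0 hb
  refine (h i (hi.trans hM) j (hj.trans hM) ω hω l l1 l2 b b0 hb).trans ?_
  refine one_div_le_one_div_of_le (by positivity) (pow_le_pow_right₀ one_le_two ?_)
  have := Nat.mul_le_mul_right z hM
  omega

theorem nft_subM {Tl : ℕ → Prop} {K' : ℕ} {C₁ ϖ : ℝ} (h : D.NFt Tl n J w₀ z M K' C₁ ϖ q)
    (hM : M' ≤ M) : D.NFt Tl n J w₀ z M' K' C₁ ϖ q :=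
  fun i j v t U h1 h2 h3 h4 => h i j v t U (h1.trans hM) (h2.trans hM) h3 (h4.trans hM)

theorem gnl_subM {U : GnL D} {K a₀ Q : ℕ} {R : ℕ → Prop} {C₁ : ℝ}
    (h : U.Ok n K J a₀ w₀ z M Q R C₁ q) (hM : M' ≤ M) : U.Ok n K J a₀ w₀ z M' Q R C₁ q where
  degD := h.degD
  degL := h.degL
  varD := h.varD
  varL := h.varL
  deep := fun l l1 l2 l3 i hi j hj => h.deep l l1 l2 l3 i (hi.trans hM) j (hj.trans hM)
  own := h.own
  two := fun l l1 l2 l3 i hi j hj => h.two l l1 l2 l3 i (hi.trans hM) j (hj.trans hM)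
  near := fun l l1 l2 l3 i hi j hj => h.near l l1 l2 l3 i (hi.trans hM) j (hj.trans hM)

end

end Pool.TC
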