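import Pool.Agent.H48.TC.Qb

/-!
# TC: nested contexts

The data of the line at `(i, j)` have few bits given a deeper context `(i', j)`. So the context of a
place can contain the data of the line at all the places before.
-/

set_option autoImplicit false

namespace Pool.TC

open Finset Real
open Pool.Agent.H49.Ent Pool.Agent.H32.Dense Pool.STK Pool.STAT
open Pool.BFL (Pb)
open Pool.P4 (t0 rt pp PthC FraC bb ze zt z0 cl1 dg dgp Ry cb LLC tq GoodS FrP err c_up)

/-- Two variables with few bits. -/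
theorem few_pair {Ω A B T : Type} [Fintype Ω] {p : Ω → ℝ} (hp : ∀ ω, 0 ≤ p ω) (U : Ω → A)
    (V : Ω → B) (W : Ω → T) :
    CH p (fun ω => (U ω, V ω)) W ≤ CH p U W + CH p V W := by
  have h1 := CH_chain hp U V W
  have h2 : CH p U (fun ω => (V ω, W ω)) ≤ CH p U W :=
    CH_mono_cond hp fun ω ω' _ _ e => (Prod.ext_iff.1 e).2
  linarith

/-- The context at a deeper place. -/
theorem cb_up {D : NDat2} {n K J a₀ w₀ z M w i i' j r : ℕ} {lam gam : ℕ → ℝ} {κ C₁ : ℝ}
    {q : D.Ω → ℝ} (h : D.Ok2 n K J a₀ w₀ z M lam gam κ C₁ q) (hj : j ≤ M) (ii : i ≤ i')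
    (iM : i' ≤ M) : Det q (cb D J w i' j r) (cb D J w i j r) := by
  intro ω ω' a b e
  have e1 := Prod.ext_iff.1 e
  have e2 := Prod.ext_iff.1 e1.1
  have h1 := c_up h hj i (i' - i) (by omega)
  rw [show i + (i' - i) = i' by omega] at h1
  have h2 := c_up h (j := j - r) (by omega) (i - 1) (i' - 1 - (i - 1)) (by omega)
  rw [show i - 1 + (i' - 1 - (i - 1)) = i' - 1 by omega] at h2
  exact Prod.ext (Prod.ext (h1 ω ω' a b e2.1) (h2 ω ω' a b e2.2)) e1.2

/-- A variable determined on the support of `q` is determined on the support of `p`. -/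
theorem det_sub {Ω A B : Type} {p q : Ω → ℝ} {U : Ω → A} {V : Ω → B}
    (hs : ∀ ω, 0 < p ω → 0 < q ω) (h : Det q U V) : Det p U V :=
  fun ω ω' a b e => h ω ω' (hs ω a) (hs ω' b) e

section

variable {D : NDat2} {n d K K' J a₀ w₀ z M w i j r r2 r' r'' y a X : ℕ} {th : ℝ}
  {lam gam : ℕ → ℝ} {κ C₁ C : ℝ} {q : D.Ω → ℝ} {E : D.Ω → Prop} {P : D.Γ × D.Γ → ℕ → PN}
  {S : Slo D} {c k0 k1 : ℕ} {ys : Fin (k0 + k1) → ℕ} {gs : Fin c → ℕ}
  {i' : ℕ} {p : D.Ω → ℝ}
  (H : Hyp D n d K K' J a₀ w₀ z M w i j r r2 r' r'' y a X th lam gam κ C₁ C q E P S ys gs)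

include H

/-- The sample itself as the representative. -/
theorem Prm.self (hp : IsLaw p) (hs : ∀ ω, 0 < p ω → 0 < q ω ∧ E ω) :
    Prm D J w z i j r (i + y) M X C q E p fun ω => ω where
  law := hp
  hs := hs
  hr := fun ω hω => ⟨(hs ω hω).1, (hs ω hω).2, rfl, rfl⟩
  ii := by omega
  iM := by
    have h1 := H.i2
    have h2 := H.plc.stp.s4 n H.n1 le_rfl
    have h3 : (0 : ℝ) ≤ 2 * gam n * r := by
      have := H.gam0 n
      positivity
    have h4 : (y : ℝ) ≤ r'' := by linarith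
    have h5 : y ≤ r'' := by exact_mod_cast h4
    omega
  dp := by
    rw [show i + y - i = y by omega]
    exact H.yX

omit H in
/-- The number of bits of the data of the line. -/
noncomputable def cL (c d k0 k1 : ℕ) : ℝ :=
  (c + ((k0 + k1) + k1 * d + c * d)) * Real.log (2 * 3 + 1)

omit H in
/-- All the digits of the data of the line. -/
def dl {G : Type} (v : LT G c k0 k1 d) :
    Fin c ⊕ ((Fin (k0 + k1) ⊕ (Fin k1 × Fin d)) ⊕ (Fin c × Fin d)) → ℤ :=
  Sum.elim v.1 (dv v.2)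

/-- **The data of the line have few bits given a deeper context.** -/
theorem lv_few {T : Type} {W : D.Ω → T} (hp : IsLaw p) (hs : ∀ ω, 0 < p ω → 0 < q ω ∧ E ω)
    (ii : i ≤ i') (iM : i' < M) (dp : exp (C * z) * 2 ^ X ≤ 2 ^ ((i' - i) * z))
    (h1 : Det p W (cb D J w i j r)) (h2 : Det p W (D.c i' j)) :
    CH p (lv (c := c) (k0 := k0) (k1 := k1) D J w z i j r d X C P ys gs) W ≤
      cL c d k0 k1 := by
  obtain ⟨m, e⟩ : ∃ m, Nonempty ((Fin c ⊕ ((Fin (k0 + k1) ⊕ (Fin k1 × Fin d)) ⊕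
      (Fin c × Fin d))) ≃ Fin m) := ⟨_, ⟨Fintype.equivFin _⟩⟩
  obtain ⟨e⟩ := e
  have hm : (m : ℝ) = c + ((k0 + k1) + k1 * d + c * d) := by
    have h3 : Fintype.card (Fin c ⊕ ((Fin (k0 + k1) ⊕ (Fin k1 × Fin d)) ⊕
      (Fin c × Fin d))) = m := by
      rw [Fintype.card_congr e, Fintype.card_fin]
    rw [← h3]
    simp only [Fintype.card_sum, Fintype.card_fin, Fintype.card_prod]
    push_cast
    ring
  have a1 := CH_le_vec hp.nonneg hp.sum_one
    (fun ω k => dl (lv (c := c) (k0 := k0) (k1 := k1) D J w z i j r d X C P ys gs ω) (e.symm k))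
    W (fun _ => 3) (by
      intro ω ω' a b hh k
      have b3 := h1 ω ω' a b hh
      have b4 := h2 ω ω' a b hh
      obtain ⟨n1, n2⟩ := dig_two (gs := gs) (ys := ys) H ii iM dp (hs ω' b) (hs ω a) b3 b4
      push_cast
      rcases e.symm k with u | k
      · exact n2 u
      · exact dv_near n1 k)
  have a2 : Ex p (fun _ => Real.log (2 * (3 : ℝ) + 1)) = Real.log (2 * 3 + 1) := by
    unfold Ex
    rw [← Finset.sum_mul, hp.sum_one, one_mul]
  rw [a2, hm] at a1
  refine le_trans (CH_mono_left hp.nonneg ?_) a1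
  intro ω ω' a b hh
  have b1 := Prod.ext_iff.1 hh
  have b2 : dl (lv (c := c) (k0 := k0) (k1 := k1) D J w z i j r d X C P ys gs ω) =
      dl (lv (c := c) (k0 := k0) (k1 := k1) D J w z i j r d X C P ys gs ω') := by
    funext x
    have := congrFun b1.1 (e x)
    simpa using this
  refine Prod.ext ?_ (dv_inj (h1 ω ω' a b b1.2) ?_)
  · funext u
    exact congrFun b2 (Sum.inl u)
  · funext k
    exact congrFun b2 (Sum.inr k)

end

end Pool.TC
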