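import Pool.Agent.H48.TC.Stm

/-!
# TC: the numbers of the steps

`stp_ex`: steps exist, with every margin, as soon as the moving slow slopes are within `1` of each
other and the slopes of the group are within `1` of each other.
-/

set_option autoImplicit false

namespace Pool.TC

open Finset Real

/-- A uniform gap for finitely many strict inequalities. -/
theorem gap_ex (n : ℕ) (F G : ℕ → ℝ) (p : ℕ → Prop)
    (h : ∀ l ≤ n, ∀ l' ≤ n, p l' → F l < G l') :
    ∃ ε : ℝ, 0 < ε ∧ ∀ l ≤ n, ∀ l' ≤ n, p l' → F l + ε ≤ G l' := by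
  classical
  by_cases hT : ((range (n + 1) ×ˢ range (n + 1)).filter fun x => p x.2).Nonempty
  · obtain ⟨x, hx, hm⟩ := Finset.exists_min_image _ (fun x => G x.2 - F x.1) hT
    rw [Finset.mem_filter, Finset.mem_product, Finset.mem_range, Finset.mem_range] at hx
    refine ⟨G x.2 - F x.1, ?_, ?_⟩
    · have := h x.1 (by omega) x.2 (by omega) hx.2
      linarith
    · intro l hl l' hl' hp
      have := hm (l, l') (by
        rw [Finset.mem_filter, Finset.mem_product, Finset.mem_range, Finset.mem_range]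
        exact ⟨⟨by simp only; omega, by simp only; omega⟩, hp⟩)
      simp only at this
      linarith
  · refine ⟨1, one_pos, ?_⟩
    intro l hl l' hl' hp
    exact absurd ⟨(l, l'), by
      rw [Finset.mem_filter, Finset.mem_product, Finset.mem_range, Finset.mem_range]
      exact ⟨⟨by simp only; omega, by simp only; omega⟩, hp⟩⟩ hT

/-- The maximum of the rounded numbers `F l * r`, `l ≤ n`. -/
noncomputable def mxc (n r : ℕ) (F : ℕ → ℝ) : ℕ := (range (n + 1)).sup fun l => ⌈F l * r⌉₊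

theorem mxc_ge {n r : ℕ} {F : ℕ → ℝ} {l : ℕ} (hl : l ≤ n) : F l * r ≤ mxc n r F :=
  (Nat.le_ceil _).trans (by
    exact_mod_cast Finset.le_sup (f := fun l => ⌈F l * r⌉₊) (Finset.mem_range.2 (by omega)))

theorem mxc_le {n r : ℕ} {F : ℕ → ℝ} {B : ℝ} (hF : ∀ l ≤ n, 0 ≤ F l)
    (h : ∀ l ≤ n, F l * r + 1 ≤ B) : (mxc n r F : ℝ) ≤ B := by
  obtain ⟨l, hl, e⟩ := Finset.exists_mem_eq_sup (range (n + 1)) ⟨0, Finset.mem_range.2 (by omega)⟩
    (fun l => ⌈F l * r⌉₊)
  have hl' : l ≤ n := by
    rw [Finset.mem_range] at hl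
    omega
  have h1 : mxc n r F = ⌈F l * r⌉₊ := e
  have h2 := Nat.ceil_lt_add_one (mul_nonneg (hF l hl') (Nat.cast_nonneg (α := ℝ) r))
  rw [h1]
  have := h l hl'
  linarith

theorem mxc_mono {n r : ℕ} {F G : ℕ → ℝ} (h : ∀ l ≤ n, F l ≤ G l) : mxc n r F ≤ mxc n r G := by
  refine Finset.sup_mono_fun fun l hl => Nat.ceil_le_ceil ?_
  rw [Finset.mem_range] at hl
  exact mul_le_mul_of_nonneg_right (h l (by omega)) (Nat.cast_nonneg _)

open Classical in
/-- **The steps**, degree `d`. First the margin, then `r`, then the large steps. -/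
theorem stp_ex (n d : ℕ) (th : ℝ) (gam : ℕ → ℝ) (hd : 1 ≤ d) (hth : 0 < th) (hn : th ≤ gam n)
    (hm : ∀ l l', sl1 th gam n l → sl1 th gam n l' → gam l < gam l' + 1)
    (hg : ∀ l l', gr th gam n l → gr th gam n l' → gam l < gam l' + 1)
    (hgd : ∀ l, 1 ≤ l → l ≤ n → gam l < d + 1) :
    ∀ y : ℕ, ∃ r₀ : ℕ, ∀ r ≥ r₀, ∃ r2 r' R'' : ℕ, ∀ r'' ≥ R'',
      ∀ a ≥ y, Stp n d th gam y r r2 r' r'' a := by
  -- the two middle slopes
  obtain ⟨F, hF⟩ : ∃ F : ℕ → ℝ, F = fun l =>
    max (if sl th gam n l then gam l else if gr th gam n l then gam l - 1 else 0) 0 := ⟨_, rfl⟩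
  obtain ⟨G, hG⟩ : ∃ G : ℕ → ℝ, G = fun l =>
    max (if sl0 th gam n l then gam l else if sl1 th gam n l then gam l - 1 else 0) 0 := ⟨_, rfl⟩
  have F0 : ∀ l, 0 ≤ F l := fun l => by rw [hF]; exact le_max_right _ _
  have G0 : ∀ l, 0 ≤ G l := fun l => by rw [hG]; exact le_max_right _ _
  have Fs : ∀ l, sl th gam n l → gam l ≤ F l := fun l hl => by
    rw [hF]
    simp only [if_pos hl]
    exact le_max_left _ _
  have Fg : ∀ l, gr th gam n l → gam l - 1 ≤ F l := fun l hl => by
    rw [hF]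
    simp only [if_neg fun h => sl_gr h hl, if_pos hl]
    exact le_max_left _ _
  have Gs : ∀ l, sl0 th gam n l → gam l ≤ G l := fun l hl => by
    rw [hG]
    simp only [if_pos hl]
    exact le_max_left _ _
  have Gg : ∀ l, sl1 th gam n l → gam l - 1 ≤ G l := fun l hl => by
    rw [hG]
    simp only [if_neg fun h => sl0_sl1 h hl, if_pos hl]
    exact le_max_left _ _
  have GF : ∀ l, G l ≤ F l := by
    intro l
    rw [hG, hF]
    refine max_le ?_ (le_max_right _ _)
    by_cases h1 : sl0 th gam n l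
    · simp only [if_pos h1, if_pos h1.1]
      exact le_max_left _ _
    · by_cases h2 : sl1 th gam n l
      · simp only [if_neg h1, if_pos h2, if_pos h2.1]
        exact le_trans (by linarith) (le_max_left _ _)
      · simp only [if_neg h1, if_neg h2]
        exact le_max_right _ _
  obtain ⟨ε₁, p1, g1⟩ := gap_ex n F gam (gr th gam n) (by
    intro l _ l' _ hl'
    have hl0 : 0 < gam l' := lt_of_lt_of_le hth hl'.2.2
    rw [hF]
    refine max_lt ?_ hl0
    by_cases h1 : sl th gam n l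
    · simp only [if_pos h1]
      exact lt_of_lt_of_le h1.2.2 hl'.2.2
    · by_cases h2 : gr th gam n l
      · simp only [if_neg h1, if_pos h2]
        linarith [hg l l' h2 hl']
      · simp only [if_neg h1, if_neg h2]
        exact hl0)
  obtain ⟨ε₂, p2, g2⟩ := gap_ex n G gam (sl1 th gam n) (by
    intro l _ l' _ hl'
    have hl0 : 0 < gam l' := lt_of_lt_of_le one_pos hl'.2
    rw [hG]
    refine max_lt ?_ hl0
    by_cases h1 : sl0 th gam n l
    · simp only [if_pos h1]
      exact lt_of_lt_of_le h1.2 hl'.2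
    · by_cases h2 : sl1 th gam n l
      · simp only [if_neg h1, if_pos h2]
        linarith [hm l l' h2 hl']
      · simp only [if_neg h1, if_neg h2]
        exact hl0)
  obtain ⟨ε₃, p3, g3⟩ := gap_ex n (fun l => if sl0 th gam n l then gam l else 0) (fun _ => 1)
    (fun _ => True) (by
      intro l _ l' _ _
      by_cases h1 : sl0 th gam n l
      · simp only [if_pos h1]
        exact h1.2
      · simp only [if_neg h1]
        exact one_pos)
  obtain ⟨ε₄, p4, g4⟩ := gap_ex n (fun l => if 1 ≤ l then gam l else 0) (fun _ => (d : ℝ) + 1)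
    (fun _ => True) (by
      intro l hl l' _ _
      by_cases h1 : 1 ≤ l
      · simp only [if_pos h1]
        exact hgd l h1 hl
      · simp only [if_neg h1]
        positivity)
  obtain ⟨ε, hε, e1, e2, e3, e4⟩ : ∃ ε : ℝ, 0 < ε ∧ ε ≤ ε₁ ∧ ε ≤ ε₂ ∧ ε ≤ ε₃ ∧ ε ≤ ε₄ :=
    ⟨min (min ε₁ ε₂) (min ε₃ ε₄), lt_min (lt_min p1 p2) (lt_min p3 p4),
      (min_le_left _ _).trans (min_le_left _ _), (min_le_left _ _).trans (min_le_right _ _),
      (min_le_right _ _).trans (min_le_left _ _), (min_le_right _ _).trans (min_le_right _ _)⟩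
  intro y
  obtain ⟨r₀, hr₀⟩ := exists_nat_ge ((2 * y + 1) / ε)
  refine ⟨r₀ + y, ?_⟩
  intro r hr
  have hεr : 2 * (y : ℝ) + 1 ≤ ε * r := by
    have h1 : (2 * (y : ℝ) + 1) ≤ r₀ * ε := (div_le_iff₀ hε).1 hr₀
    have h2 : (r₀ : ℝ) ≤ r := by
      have : r₀ ≤ r := by omega
      exact_mod_cast this
    nlinarith
  have hry : (y : ℝ) ≤ r := by
    have : y ≤ r := by omega
    exact_mod_cast this
  refine ⟨mxc n r G + y, mxc n r F + y, mxc n r (fun l => 2 * gam l) + y + (mxc n r F + y), ?_⟩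
  intro r'' hr'' a ha
  refine
    { d1 := hd
      gn := hn
      s1 := ?_
      s2 := ?_
      s3 := ?_
      s3g := ?_
      s4 := ?_
      s5 := ?_
      s6 := ?_
      s7 := ha
      t0 := ?_
      t1 := ?_
      t2 := ?_
      t3 := ?_ }
  · intro l hl
    have h1 := mxc_ge (r := r) (F := F) (show l ≤ n from hl.2.1.le)
    have h2 := mul_le_mul_of_nonneg_right (Fs l hl) (Nat.cast_nonneg (α := ℝ) r)
    push_cast
    linarith
  · intro l hl
    have h1 : (mxc n r F : ℝ) ≤ gam l * r - 2 * y := mxc_le (fun l' _ => F0 l') fun l' hl' => by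
      have h2 := g1 l' hl' l hl.2.1 hl
      have h3 : (F l' + ε) * r ≤ gam l * r :=
        mul_le_mul_of_nonneg_right (by linarith) (Nat.cast_nonneg _)
      linarith
    push_cast
    linarith
  · intro l l1 hl
    have h1 := g4 l hl 0 (Nat.zero_le _) trivial
    simp only [if_pos l1] at h1
    have h3 : (gam l - (d + 1)) * r ≤ (-ε) * r :=
      mul_le_mul_of_nonneg_right (by linarith) (Nat.cast_nonneg _)
    linarith
  · intro l hl
    have h1 := mxc_ge (r := r) (F := F) (show l ≤ n from hl.2.1)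
    have h2 := mul_le_mul_of_nonneg_right (Fg l hl) (Nat.cast_nonneg (α := ℝ) r)
    push_cast
    linarith
  · intro l _ hl
    have h1 := mxc_ge (r := r) (F := fun l => 2 * gam l) hl
    have h2 : ((mxc n r (fun l => 2 * gam l) : ℕ) : ℝ) + y ≤ r'' := by
      have : mxc n r (fun l => 2 * gam l) + y ≤ r'' := by omega
      exact_mod_cast this
    linarith
  · have := mxc_mono (n := n) (r := r) (F := G) (G := F) fun l _ => GF l
    omega
  · omega
  · intro l hl
    have h1 := mxc_ge (r := r) (F := G) (show l ≤ n from hl.1.2.1.le)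
    have h2 := mul_le_mul_of_nonneg_right (Gs l hl) (Nat.cast_nonneg (α := ℝ) r)
    push_cast
    linarith
  · intro l hl
    have h1 : (mxc n r G : ℝ) ≤ gam l * r - 2 * y := mxc_le (fun l' _ => G0 l') fun l' hl' => by
      have h2 := g2 l' hl' l hl.1.2.1.le hl
      have h3 : (G l' + ε) * r ≤ gam l * r :=
        mul_le_mul_of_nonneg_right (by linarith) (Nat.cast_nonneg _)
      linarith
    push_cast
    linarith
  · intro l hl
    have h1 := mxc_ge (r := r) (F := G) (show l ≤ n from hl.1.2.1.le)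
    have h2 := mul_le_mul_of_nonneg_right (Gg l hl) (Nat.cast_nonneg (α := ℝ) r)
    push_cast
    linarith
  · intro l hl
    have h1 := g3 l hl.1.2.1.le 0 (Nat.zero_le _) trivial
    simp only [if_pos hl] at h1
    have h3 : (gam l - 1) * r ≤ (-ε) * r :=
      mul_le_mul_of_nonneg_right (by linarith) (Nat.cast_nonneg _)
    linarith

/-- **The column.** With the steps of `stp_ex`, the places `(i₀ + m q, j)`, `m ≤ Q`, are places of
the grid. -/
theorem col_plc {n d : ℕ} {th : ℝ} {gam : ℕ → ℝ} {y r r2 r' r'' a M i₀ j q Q : ℕ}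
    (h : Stp n d th gam y r r2 r' r'' a) (hy : 1 ≤ y) (h1 : a ≤ i₀) (h2 : r'' ≤ i₀)
    (h3 : i₀ + Q * q + r'' < M) (h4 : r ≤ j) (h5 : j + r < M) {m : ℕ} (hm : m ≤ Q) :
    Plc n d th gam y r r2 r' r'' a M (i₀ + m * q) j := by
  have h6 : m * q ≤ Q * q := Nat.mul_le_mul_right _ hm
  exact ⟨h, hy, by omega, by omega, by omega, h4, h5⟩

/-- The digits: `x + C / log 2 ≤ y`. -/
theorem exp_pow_le {C : ℝ} {x y z : ℕ} (h : C ≤ ((y : ℝ) - x) * Real.log 2) :
    exp (C * z) * 2 ^ (x * z) ≤ (2 : ℝ) ^ (y * z) := by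
  have e1 : (2 : ℝ) ^ (x * z) = exp (x * z * Real.log 2) := by
    rw [← Real.rpow_natCast, Real.rpow_def_of_pos (by norm_num)]
    congr 1
    push_cast
    ring
  have e2 : (2 : ℝ) ^ (y * z) = exp (y * z * Real.log 2) := by
    rw [← Real.rpow_natCast, Real.rpow_def_of_pos (by norm_num)]
    congr 1
    push_cast
    ring
  rw [e1, e2, ← Real.exp_add]
  refine Real.exp_le_exp.2 ?_
  have := mul_le_mul_of_nonneg_right h (Nat.cast_nonneg (α := ℝ) z)
  linarith

end Pool.TC
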