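import Pool.Agent.H48.TC.Bas

/-!
# TC: the own height of a sample is near to the height of the picture

`hv_near`: the digits `hv` of the height over the own sheet are near to the formula `hR`.
-/

set_option autoImplicit false

namespace Pool.TC

open Finset Real MvPolynomial
open Pool.Agent.H49.Ent Pool.Agent.H32.Dense Pool.STK Pool.STAT Pool.MIC.Frm Pool.MIC7 Pool.FRM
open Pool.GSD Pool.POT
open Pool.BFL (Pb)
open Pool.P4 (t0 rt pp PthC FraC bb ze zt z0 cl1 dg dgp Ry cb LLC tq GoodS FrP err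
  dg_near dg_abs dgp_near dgp_abs c_up Ry_pos rt_near)
open Pool.P5 (sum_pred mul_nearR sum_near sum_bd)

/-- Powers of near numbers in the unit interval. -/
theorem pow_near {x y e : ℝ} (hx : |x| ≤ 1) (hy : |y| ≤ 1) (h : |x - y| ≤ e) :
    ∀ m : ℕ, |x ^ m - y ^ m| ≤ m * e := by
  intro m
  induction m with
  | zero => simp
  | succ m ih =>
    have e1 : x ^ (m + 1) - y ^ (m + 1) = x ^ m * (x - y) + y * (x ^ m - y ^ m) := by ring
    rw [e1]
    have h1 : |x ^ m| ≤ 1 := by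
      rw [abs_pow]
      exact pow_le_one₀ (abs_nonneg _) hx
    refine (abs_add_le _ _).trans ?_
    rw [abs_mul, abs_mul]
    have h2 : |x ^ m| * |x - y| ≤ 1 * e := mul_le_mul h1 h (abs_nonneg _) zero_le_one
    have h3 : |y| * |x ^ m - y ^ m| ≤ 1 * (m * e) := mul_le_mul hy ih (abs_nonneg _) zero_le_one
    push_cast
    linarith

theorem tq_lt {J w X T : ℕ} (h : w + X ≤ J) : tq J w X T < 2 ^ X := by
  unfold tq
  rw [Nat.div_lt_iff_lt_mul (by positivity), ← pow_add, show X + (J - w - X) = J - w by omega]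
  exact Nat.mod_lt _ (by positivity)

/-- A rounded path. `N` is the unit of the digits, `Z`, `B s` the real numbers, `nu`, `be s` the
digits. -/
theorem path_near {d : ℕ} {N x y Z nu ze τ : ℝ} {B be : ℕ → ℝ} (hN : 0 < N)
    (hx : |x| ≤ 1) (hy : |y| ≤ 1) (hxy : |x - y| ≤ 1 / N)
    (h0 : |nu - N * Z| ≤ 1) (hB : ∀ s, |B s| ≤ 1) (hb : ∀ s, |be s - N * B s| ≤ 1)
    (hz : |ze - (Z + ∑ s ∈ Finset.Icc 1 d, y ^ s * B s)| ≤ τ) (hτ : N * τ ≤ 1) :
    |nu + ∑ s : Fin d, x ^ ((s : ℕ) + 1) * be ((s : ℕ) + 1) - N * ze| ≤ 2 + d * (d + 1) := by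
  have e1 : ∑ s ∈ Finset.Icc 1 d, y ^ s * B s =
      ∑ s : Fin d, y ^ ((s : ℕ) + 1) * B ((s : ℕ) + 1) := by
    rw [Fin.sum_univ_eq_sum_range (fun s => y ^ (s + 1) * B (s + 1)) d, Finset.range_eq_Ico,
      Finset.sum_Ico_add' (fun s => y ^ s * B s) 0 d 1]
    rfl
  have e2 : ∀ s : Fin d, |x ^ ((s : ℕ) + 1) * be ((s : ℕ) + 1) -
      N * (y ^ ((s : ℕ) + 1) * B ((s : ℕ) + 1))| ≤ d + 1 := by
    intro s
    have f1 : x ^ ((s : ℕ) + 1) * be ((s : ℕ) + 1) -
        N * (y ^ ((s : ℕ) + 1) * B ((s : ℕ) + 1)) =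
        x ^ ((s : ℕ) + 1) * (be ((s : ℕ) + 1) - N * B ((s : ℕ) + 1)) +
          N * (x ^ ((s : ℕ) + 1) - y ^ ((s : ℕ) + 1)) * B ((s : ℕ) + 1) := by ring
    rw [f1]
    have f2 : |x ^ ((s : ℕ) + 1)| ≤ 1 := by
      rw [abs_pow]
      exact pow_le_one₀ (abs_nonneg _) hx
    have f3 := pow_near hx hy hxy ((s : ℕ) + 1)
    refine (abs_add_le _ _).trans ?_
    rw [abs_mul, abs_mul, abs_mul, abs_of_pos hN]
    have f4 : |x ^ ((s : ℕ) + 1)| * |be ((s : ℕ) + 1) - N * B ((s : ℕ) + 1)| ≤ 1 * 1 :=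
      mul_le_mul f2 (hb _) (abs_nonneg _) zero_le_one
    have f5 : N * |x ^ ((s : ℕ) + 1) - y ^ ((s : ℕ) + 1)| ≤ ((s : ℕ) + 1 : ℕ) := by
      calc _ ≤ N * ((((s : ℕ) + 1 : ℕ) : ℝ) * (1 / N)) := mul_le_mul_of_nonneg_left f3 hN.le
        _ = _ := by field_simp
    have f6 : N * |x ^ ((s : ℕ) + 1) - y ^ ((s : ℕ) + 1)| * |B ((s : ℕ) + 1)| ≤
        (((s : ℕ) + 1 : ℕ) : ℝ) * 1 :=
      mul_le_mul f5 (hB _) (abs_nonneg _) (Nat.cast_nonneg _)
    have f7 : (((s : ℕ) + 1 : ℕ) : ℝ) ≤ d := by exact_mod_cast s.2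
    linarith
  have e3 : |∑ s : Fin d, x ^ ((s : ℕ) + 1) * be ((s : ℕ) + 1) -
      ∑ s : Fin d, N * (y ^ ((s : ℕ) + 1) * B ((s : ℕ) + 1))| ≤ (d + 1) * d := sum_near e2
  rw [← Finset.mul_sum, ← e1] at e3
  obtain ⟨A, hA⟩ : ∃ A, A = ∑ s : Fin d, x ^ ((s : ℕ) + 1) * be ((s : ℕ) + 1) := ⟨_, rfl⟩
  obtain ⟨A', hA'⟩ : ∃ A', A' = ∑ s ∈ Finset.Icc 1 d, y ^ s * B s := ⟨_, rfl⟩
  rw [← hA, ← hA'] at e3
  rw [← hA]
  rw [← hA'] at hz
  have e4 : |N * ze - N * (Z + A')| ≤ 1 := by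
    rw [← mul_sub, abs_mul, abs_of_pos hN]
    exact (mul_le_mul_of_nonneg_left hz hN.le).trans hτ
  rw [abs_le] at e3 e4 h0 ⊢
  constructor <;> nlinarith [e3.1, e3.2, e4.1, e4.2, h0.1, h0.2]

section

variable {D : NDat2} {n d K K' J a₀ w₀ z M w i j r r2 r' r'' y a X : ℕ} {th : ℝ}
  {lam gam : ℕ → ℝ} {κ C₁ C : ℝ} {q : D.Ω → ℝ} {E : D.Ω → Prop} {P : D.Γ × D.Γ → ℕ → PN}
  {S : Slo D} {c k0 k1 : ℕ} {ys : Fin (k0 + k1) → ℕ} {gs : Fin c → ℕ}
  (H : Hyp D n d K K' J a₀ w₀ z M w i j r r2 r' r'' y a X th lam gam κ C₁ C q E P S ys gs)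

include H

/-- The relative time and its digits. -/
theorem tx_near (ω : D.Ω) : |rt D J w ω| ≤ 1 ∧
    |tx J w X (tv (c := c) (k0 := k0) (k1 := k1) D J w z i j r X C S ys gs ω)| ≤ 1 ∧
    |tx J w X (tv (c := c) (k0 := k0) (k1 := k1) D J w z i j r X C S ys gs ω) - rt D J w ω| ≤
      1 / 2 ^ X := by
  have hX : (0 : ℝ) < 2 ^ X := by positivity
  obtain ⟨h1, h2⟩ := rt_near (X := X) (H.ok.X_zero ω) H.wX
  have h3 : tx J w X (tv (c := c) (k0 := k0) (k1 := k1) D J w z i j r X C S ys gs ω) =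
      (tq J w X (D.T ω) : ℝ) / 2 ^ X := rfl
  have h4 : tq J w X (D.T ω) < 2 ^ X := tq_lt H.wX
  refine ⟨h1, ?_, ?_⟩
  · rw [h3, abs_div, abs_of_pos hX, div_le_one hX, abs_of_nonneg (Nat.cast_nonneg _)]
    exact_mod_cast h4.le
  · rw [h3]
    have h5 : (tq J w X (D.T ω) : ℝ) / 2 ^ X - rt D J w ω =
        ((tq J w X (D.T ω) : ℝ) - 2 ^ X * rt D J w ω) / 2 ^ X := by field_simp
    rw [h5, abs_div, abs_of_pos hX]
    exact div_le_div_of_nonneg_right h2 hX.le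

/-- The path of the group. -/
theorem pg_near {ω : D.Ω} (hω : 0 < q ω) (hE : E ω) (u : Fin c) :
    |(nuv D J w z i j r X C P gs ω u : ℝ) +
      pg J w X (tv (c := c) (k0 := k0) (k1 := k1) D J w z i j r X C S ys gs ω)
      (vv (c := c) (k0 := k0) (k1 := k1) D J w z i j r d X C P ys gs ω) u -
      2 ^ X * (ze D i j r P ω (gs u) / Rg z C)| ≤ 2 + d * (d + 1) := by
  have hR := Rg_pos z C
  have hR1 := H.one_Rg
  have hX : (0 : ℝ) < 2 ^ X := by positivity
  obtain ⟨g1, g2⟩ := H.gs_n u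
  obtain ⟨h1, h2, h3⟩ := tx_near H ω
  obtain ⟨b1, b2⟩ := H.geo.bt ω hω hE (gs u) g1 g2 w H.w1 H.w2
  have hp := H.geo.path ω hω hE (gs u) g1 g2 w H.w1 H.w2
  have hle := H.exp_le_Rg
  have key := path_near (d := d) (N := 2 ^ X) (x := tx J w X
      (tv (c := c) (k0 := k0) (k1 := k1) D J w z i j r X C S ys gs ω)) (y := rt D J w ω)
    (Z := z0 D J w i j r P ω (gs u) / Rg z C) (nu := nuv D J w z i j r X C P gs ω u)
    (ze := ze D i j r P ω (gs u) / Rg z C) (τ := exp (C * z) / 2 ^ (y * z))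
    (B := fun s => if 1 ≤ s ∧ s ≤ d then bs D J w i j r d P s ω (gs u) / Rg z C else 0)
    (be := fun s => if 1 ≤ s ∧ s ≤ d then
      (dg X (bs D J w i j r d P s ω (gs u) / Rg z C) : ℝ) else 0) hX h2 h1 h3 ?_ ?_ ?_ ?_ H.tau
  · refine le_trans (le_of_eq ?_) key
    congr 1
    unfold pg
    congr 1
    congr 1
    refine Finset.sum_congr rfl fun s _ => ?_
    have e2 : (vv (c := c) (k0 := k0) (k1 := k1) D J w z i j r d X C P ys gs ω).2.2.2 u s =
      dg X (bs D J w i j r d P ((s : ℕ) + 1) ω (gs u) / Rg z C) := rfl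
    have e3 : 1 ≤ (s : ℕ) + 1 ∧ (s : ℕ) + 1 ≤ d := ⟨by omega, s.2⟩
    rw [e2, if_pos e3]
  · refine dg_near ?_
    rw [abs_div, abs_of_pos hR, div_le_one hR]
    exact b1.trans hle
  · intro s
    beta_reduce
    split_ifs with hs
    · rw [abs_div, abs_of_pos hR, div_le_one hR]
      exact (b2 s hs.1 hs.2).trans hle
    · rw [abs_zero]
      exact zero_le_one
  · intro s
    beta_reduce
    split_ifs with hs
    · refine dg_near ?_
      rw [abs_div, abs_of_pos hR, div_le_one hR]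
      exact (b2 s hs.1 hs.2).trans hle
    · rw [mul_zero, sub_zero, abs_zero]
      exact zero_le_one
  · have e1 : ∑ s ∈ Finset.Icc 1 d, rt D J w ω ^ s *
        (if 1 ≤ s ∧ s ≤ d then bs D J w i j r d P s ω (gs u) / Rg z C else 0) =
        (∑ s ∈ Finset.Icc 1 d, rt D J w ω ^ s * bs D J w i j r d P s ω (gs u)) / Rg z C := by
      rw [Finset.sum_div]
      refine Finset.sum_congr rfl fun s hs => ?_
      rw [if_pos (Finset.mem_Icc.1 hs)]
      ring
    rw [e1, ← add_div, ← sub_div, abs_div, abs_of_pos hR]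
    exact (div_le_self (abs_nonneg _) hR1).trans hp

/-- The position of a slow coordinate: the position at the left end and the nonconstant part. -/
noncomputable def ym (D : NDat2) (J w z i j r d X : ℕ) (C : ℝ) (P : D.Γ × D.Γ → ℕ → PN)
    {k0 k1 : ℕ} (ys : Fin (k0 + k1) → ℕ) (x : ℝ) (ω : D.Ω) (b : Fin (k0 + k1)) : ℝ :=
  yv D J w z i j r X C P ys ω b - 2 ^ X / 2 +
    Fin.addCases (motive := fun _ => ℝ) (fun _ => 0)
      (fun l => ∑ s : Fin d, x ^ ((s : ℕ) + 1) * mv D J w z i j r d X C P ys ω l s) b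

omit H in
theorem ym_castAdd (x : ℝ) (ω : D.Ω) (b : Fin k0) :
    ym D J w z i j r d X C P ys x ω (Fin.castAdd k1 b) =
      yv D J w z i j r X C P ys ω (Fin.castAdd k1 b) - 2 ^ X / 2 := by
  unfold ym
  rw [Fin.addCases_left, add_zero]

omit H in
theorem ym_natAdd (x : ℝ) (ω : D.Ω) (l : Fin k1) :
    ym D J w z i j r d X C P ys x ω (Fin.natAdd k0 l) =
      yv D J w z i j r X C P ys ω (Fin.natAdd k0 l) - 2 ^ X / 2 +
        ∑ s : Fin d, x ^ ((s : ℕ) + 1) * mv D J w z i j r d X C P ys ω l s := by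
  unfold ym
  rw [Fin.addCases_right]

/-- The position of a slow coordinate is near to the formula. -/
theorem ym_near {ω : D.Ω} (hω : 0 < q ω) (hE : E ω) (b : Fin (k0 + k1)) :
    |ym D J w z i j r d X C P ys
      (tx J w X (tv (c := c) (k0 := k0) (k1 := k1) D J w z i j r X C S ys gs ω)) ω b -
      2 ^ X * (ze D i j r P ω (ys b) / (2 * Ry z C))| ≤ 2 + d * (d + 1) := by
  have hRy := Ry_pos z C
  have hR : 0 < 2 * Ry z C := by positivity
  have hR1 : 1 ≤ 2 * Ry z C := by linarith [H.one_Ry]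
  have hX : (0 : ℝ) < 2 ^ X := by positivity
  have hle : exp (C * z) ≤ 2 * Ry z C := by
    unfold Ry
    linarith [Real.exp_pos (C * z)]
  obtain ⟨g1, g2⟩ := H.ys_n b
  obtain ⟨h1, h2, h3⟩ := tx_near H ω
  obtain ⟨b1, b2⟩ := H.geo.bt ω hω hE (ys b) g1 g2 w H.w1 H.w2
  have hp := H.geo.path ω hω hE (ys b) g1 g2 w H.w1 H.w2
  -- the position at the left end
  have hy : |((yv D J w z i j r X C P ys ω b : ℝ) - 2 ^ X / 2) -
      2 ^ X * (z0 D J w i j r P ω (ys b) / (2 * Ry z C))| ≤ 1 := by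
    have f1 : 0 ≤ (z0 D J w i j r P ω (ys b) + Ry z C) / (2 * Ry z C) := by
      refine div_nonneg ?_ hR.le
      have := (abs_le.1 b1).1
      change -exp (C * z) ≤ _ at this
      unfold Ry
      linarith
    have f2 : (z0 D J w i j r P ω (ys b) + Ry z C) / (2 * Ry z C) ≤ 1 := by
      rw [div_le_one hR]
      have := (abs_le.1 b1).2
      unfold Ry
      linarith
    have f3 := dgp_near (X := X) f1 f2
    have f4 : (yv D J w z i j r X C P ys ω b : ℝ) =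
        (dgp X ((z0 D J w i j r P ω (ys b) + Ry z C) / (2 * Ry z C)) : ℝ) := rfl
    rw [f4]
    refine le_trans (le_of_eq ?_) f3
    congr 1
    have : (z0 D J w i j r P ω (ys b) + Ry z C) / (2 * Ry z C) =
        z0 D J w i j r P ω (ys b) / (2 * Ry z C) + 1 / 2 := by
      field_simp
    rw [this]
    ring
  revert hy b1 b2 hp
  refine Fin.addCases (fun b => ?_) (fun l => ?_) b
  · intro b1 b2 hp hy
    rw [ym_castAdd]
    have hs := (H.geo.slow0 ω hω hE _ (H.ys0 b) w H.w1 H.w2).1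
    have ht := H.tau
    have f1 : |2 ^ X * (ze D i j r P ω (ys (Fin.castAdd k1 b)) / (2 * Ry z C)) -
        2 ^ X * (z0 D J w i j r P ω (ys (Fin.castAdd k1 b)) / (2 * Ry z C))| ≤ 1 := by
      rw [← mul_sub, ← sub_div, abs_mul, abs_div, abs_of_pos hR, abs_of_pos hX]
      refine le_trans (mul_le_mul_of_nonneg_left ((div_le_self (abs_nonneg _) hR1).trans hs)
        hX.le) ht
    have f2 : (0 : ℝ) ≤ d * (d + 1) := by positivity
    rw [abs_le] at f1 hy ⊢
    constructor <;> linarith [f1.1, f1.2, hy.1, hy.2]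
  · intro b1 b2 hp hy
    rw [ym_natAdd]
    have key := path_near (d := d) (N := 2 ^ X) (x := tx J w X
        (tv (c := c) (k0 := k0) (k1 := k1) D J w z i j r X C S ys gs ω)) (y := rt D J w ω)
      (Z := z0 D J w i j r P ω (ys (Fin.natAdd k0 l)) / (2 * Ry z C))
      (nu := (yv D J w z i j r X C P ys ω (Fin.natAdd k0 l) : ℝ) - 2 ^ X / 2)
      (ze := ze D i j r P ω (ys (Fin.natAdd k0 l)) / (2 * Ry z C))
      (τ := exp (C * z) / 2 ^ (y * z))
      (B := fun s => if 1 ≤ s ∧ s ≤ d then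
        bs D J w i j r d P s ω (ys (Fin.natAdd k0 l)) / (2 * Ry z C) else 0)
      (be := fun s => if 1 ≤ s ∧ s ≤ d then
        (dg X (bs D J w i j r d P s ω (ys (Fin.natAdd k0 l)) / (2 * Ry z C)) : ℝ) else 0)
      hX h2 h1 h3 hy ?_ ?_ ?_ H.tau
    · refine le_trans (le_of_eq ?_) key
      congr 1
      congr 1
      congr 1
      refine Finset.sum_congr rfl fun s _ => ?_
      have e2 : mv D J w z i j r d X C P ys ω l s =
        dg X (bs D J w i j r d P ((s : ℕ) + 1) ω (ys (Fin.natAdd k0 l)) / (2 * Ry z C)) := rfl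
      have e3 : 1 ≤ (s : ℕ) + 1 ∧ (s : ℕ) + 1 ≤ d := ⟨by omega, s.2⟩
      rw [e2, if_pos e3]
    · intro s
      beta_reduce
      split_ifs with hs
      · rw [abs_div, abs_of_pos hR, div_le_one hR]
        exact (b2 s hs.1 hs.2).trans hle
      · rw [abs_zero]
        exact zero_le_one
    · intro s
      beta_reduce
      split_ifs with hs
      · refine dg_near ?_
        rw [abs_div, abs_of_pos hR, div_le_one hR]
        exact (b2 s hs.1 hs.2).trans hle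
      · rw [mul_zero, sub_zero, abs_zero]
        exact zero_le_one
    · have e1 : ∑ s ∈ Finset.Icc 1 d, rt D J w ω ^ s *
          (if 1 ≤ s ∧ s ≤ d then
            bs D J w i j r d P s ω (ys (Fin.natAdd k0 l)) / (2 * Ry z C) else 0) =
          (∑ s ∈ Finset.Icc 1 d, rt D J w ω ^ s *
            bs D J w i j r d P s ω (ys (Fin.natAdd k0 l))) / (2 * Ry z C) := by
        rw [Finset.sum_div]
        refine Finset.sum_congr rfl fun s hs => ?_
        rw [if_pos (Finset.mem_Icc.1 hs)]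
        ring
      rw [e1, ← add_div, ← sub_div, abs_div, abs_of_pos hR]
      exact (div_le_self (abs_nonneg _) hR1).trans hp

omit H in
/-- The formula of the own height, with the positions of the slow coordinates. -/
theorem hR_eq (ω : D.Ω) (u : Fin c) :
    hR J w X (tv (c := c) (k0 := k0) (k1 := k1) D J w z i j r X C S ys gs ω)
      (vv (c := c) (k0 := k0) (k1 := k1) D J w z i j r d X C P ys gs ω) u =
      pg J w X (tv (c := c) (k0 := k0) (k1 := k1) D J w z i j r X C S ys gs ω)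
        (vv (c := c) (k0 := k0) (k1 := k1) D J w z i j r d X C P ys gs ω) u -
      ∑ b, (Sv D z X C S ys gs ω u b : ℝ) / 2 ^ X * ym D J w z i j r d X C P ys
        (tx J w X (tv (c := c) (k0 := k0) (k1 := k1) D J w z i j r X C S ys gs ω)) ω b := by
  have hX : (0 : ℝ) < 2 ^ X := by positivity
  obtain ⟨t, ht⟩ : ∃ t, t = tv (c := c) (k0 := k0) (k1 := k1) D J w z i j r X C S ys gs ω :=
    ⟨_, rfl⟩
  obtain ⟨v, hv⟩ : ∃ v, v = vv (c := c) (k0 := k0) (k1 := k1) D J w z i j r d X C P ys gs ω :=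
    ⟨_, rfl⟩
  have e1 : ∀ b, (t.2.2 u b : ℝ) = (Sv D z X C S ys gs ω u b : ℝ) := by
    intro b
    rw [ht]
    rfl
  have e2 : ∀ b, (v.2.1 b : ℝ) = (yv D J w z i j r X C P ys ω b : ℝ) := by
    intro b
    rw [hv]
    rfl
  have e3 : ∀ l s, (v.2.2.1 l s : ℝ) = (mv D J w z i j r d X C P ys ω l s : ℝ) := by
    intro l s
    rw [hv]
    rfl
  rw [← ht, ← hv]
  unfold hR
  rw [Fin.sum_univ_add (f := fun b => (Sv D z X C S ys gs ω u b : ℝ) / 2 ^ X *
    ym D J w z i j r d X C P ys (tx J w X t) ω b)]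
  simp only [ym_castAdd, ym_natAdd, e1, e2]
  rw [Fin.sum_univ_add (f := fun b => (Sv D z X C S ys gs ω u b : ℝ) / 2 ^ X *
    (yv D J w z i j r X C P ys ω b : ℝ)),
    Fin.sum_univ_add (f := fun b => (Sv D z X C S ys gs ω u b : ℝ) / 2)]
  have f1 : ∑ b : Fin k0, (Sv D z X C S ys gs ω u (Fin.castAdd k1 b) : ℝ) / 2 ^ X *
      ((yv D J w z i j r X C P ys ω (Fin.castAdd k1 b) : ℝ) - 2 ^ X / 2) =
      ∑ b : Fin k0, (Sv D z X C S ys gs ω u (Fin.castAdd k1 b) : ℝ) / 2 ^ X *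
        (yv D J w z i j r X C P ys ω (Fin.castAdd k1 b) : ℝ) -
      ∑ b : Fin k0, (Sv D z X C S ys gs ω u (Fin.castAdd k1 b) : ℝ) / 2 := by
    rw [← Finset.sum_sub_distrib]
    refine Finset.sum_congr rfl fun b _ => ?_
    field_simp
  have f2 : ∑ l : Fin k1, (Sv D z X C S ys gs ω u (Fin.natAdd k0 l) : ℝ) / 2 ^ X *
      ((yv D J w z i j r X C P ys ω (Fin.natAdd k0 l) : ℝ) - 2 ^ X / 2 +
        ∑ s : Fin d, tx J w X t ^ ((s : ℕ) + 1) * mv D J w z i j r d X C P ys ω l s) =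
      ∑ l : Fin k1, (Sv D z X C S ys gs ω u (Fin.natAdd k0 l) : ℝ) / 2 ^ X *
        (yv D J w z i j r X C P ys ω (Fin.natAdd k0 l) : ℝ) -
      ∑ l : Fin k1, (Sv D z X C S ys gs ω u (Fin.natAdd k0 l) : ℝ) / 2 +
      ∑ l : Fin k1, (Sv D z X C S ys gs ω u (Fin.natAdd k0 l) : ℝ) / 2 ^ X *
        pm J w X t v l := by
    rw [← Finset.sum_sub_distrib, ← Finset.sum_add_distrib]
    refine Finset.sum_congr rfl fun l _ => ?_
    have f3 : pm J w X t v l =
        ∑ s : Fin d, tx J w X t ^ ((s : ℕ) + 1) * mv D J w z i j r d X C P ys ω l s := by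
      unfold pm
      exact Finset.sum_congr rfl fun s _ => by rw [e3]
    rw [f3]
    field_simp
  rw [f1, f2]
  ring

/-- **The own height and the height of the picture.** -/
theorem hv_near {ω : D.Ω} (hω : 0 < q ω) (hE : E ω) (u : Fin c) :
    |(hv (c := c) (k0 := k0) (k1 := k1) D z i j r X C P S gs n th gam ω u : ℝ) -
      ((nuv D J w z i j r X C P gs ω u : ℝ) +
        hR J w X (tv (c := c) (k0 := k0) (k1 := k1) D J w z i j r X C S ys gs ω)
          (vv (c := c) (k0 := k0) (k1 := k1) D J w z i j r d X C P ys gs ω) u)| ≤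
      (k0 + k1 + 1 : ℝ) * (7 + 2 * (d * (d + 1))) := by
  have hX : (1 : ℝ) ≤ 2 ^ X := one_le_pow₀ (by norm_num)
  have hX0 : (0 : ℝ) < 2 ^ X := by positivity
  have hR := Rg_pos z C
  have hRy := Ry_pos z C
  have hR0 : 0 < 2 * Ry z C := by positivity
  have hd : (0 : ℝ) ≤ d * (d + 1) := by positivity
  obtain ⟨g1, g2⟩ := H.gs_n u
  -- the real height
  have hnn := H.nn_eq ω (gs u)
  have hnb : |nn D n i j r th gam P S.S ω (gs u) / Rg z C| ≤ (k0 + k1 + 1 : ℕ) := by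
    rw [abs_div, abs_of_pos hR, div_le_iff₀ hR, hnn]
    have f1 := H.geo.bz ω hω hE (gs u) g1 g2
    have f2 : |∑ b, S.S ω (gs u) (ys b) * ze D i j r P ω (ys b)| ≤
        (exp (C * z) * exp (C * z)) * (k0 + k1 : ℕ) := sum_bd fun b => by
      rw [abs_mul]
      exact mul_le_mul (H.geo.bS ω _ _) (H.geo.bz ω hω hE _ (H.ys_n b).1 (H.ys_n b).2)
        (abs_nonneg _) (Real.exp_pos _).le
    refine (abs_sub _ _).trans ?_
    have f3 := H.exp_le_Rg
    have f4 : exp (C * z) * exp (C * z) ≤ Rg z C := by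
      rw [Rg_eq]
      have : 0 ≤ exp (C * z) * exp (C * z) := by positivity
      linarith
    have f5 : (exp (C * z) * exp (C * z)) * ((k0 + k1 : ℕ) : ℝ) ≤ Rg z C * ((k0 + k1 : ℕ) : ℝ) :=
      mul_le_mul_of_nonneg_right f4 (Nat.cast_nonneg _)
    push_cast at f2 f5 ⊢
    nlinarith
  have hm : (0 : ℝ) < ((k0 + k1 + 1 : ℕ) : ℝ) := by positivity
  have h1 : |(hv (c := c) (k0 := k0) (k1 := k1) D z i j r X C P S gs n th gam ω u : ℝ) -
      2 ^ X * (nn D n i j r th gam P S.S ω (gs u) / Rg z C)| ≤ 1 := by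
    unfold hv dgm
    have f1 : |nn D n i j r th gam P S.S ω (gs u) / Rg z C / (k0 + k1 + 1 : ℕ)| ≤ 1 := by
      rw [abs_div, abs_of_pos hm, div_le_one hm]
      exact hnb
    rw [Pool.P4.cl1_eq f1]
    have f2 : ((k0 + k1 + 1 : ℕ) : ℝ) * (nn D n i j r th gam P S.S ω (gs u) / Rg z C /
        (k0 + k1 + 1 : ℕ)) = nn D n i j r th gam P S.S ω (gs u) / Rg z C := by
      field_simp
    rw [f2]
    have f3 := Int.floor_le (2 ^ X * (nn D n i j r th gam P S.S ω (gs u) / Rg z C))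
    have f4 := Int.lt_floor_add_one (2 ^ X * (nn D n i j r th gam P S.S ω (gs u) / Rg z C))
    rw [abs_le]
    constructor <;> linarith
  -- the formula
  rw [hR_eq]
  have h2 := pg_near H hω hE u
  have h3 : |∑ b, (Sv D z X C S ys gs ω u b : ℝ) / 2 ^ X * ym D J w z i j r d X C P ys
        (tx J w X (tv (c := c) (k0 := k0) (k1 := k1) D J w z i j r X C S ys gs ω)) ω b -
      ∑ b, 2 ^ X * (S.S ω (gs u) (ys b) * (2 * Ry z C) / Rg z C *
        (ze D i j r P ω (ys b) / (2 * Ry z C)))| ≤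
      (1 + (2 + d * (d + 1)) + 1 * (2 + d * (d + 1))) * (k0 + k1 : ℕ) := sum_near fun b => by
    have f1 : |S.S ω (gs u) (ys b) * (2 * Ry z C) / Rg z C| ≤ 1 := H.S_le1 (H.geo.bS ω _ _)
    have f2 : |ze D i j r P ω (ys b) / (2 * Ry z C)| ≤ 1 := by
      rw [abs_div, abs_of_pos hR0, div_le_one hR0]
      refine (H.geo.bz ω hω hE _ (H.ys_n b).1 (H.ys_n b).2).trans ?_
      unfold Ry
      linarith [Real.exp_pos (C * z)]
    have f3 : |(Sv D z X C S ys gs ω u b : ℝ) -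
        2 ^ X * (S.S ω (gs u) (ys b) * (2 * Ry z C) / Rg z C)| ≤ 1 := dg_near f1
    exact mul_nearR hX (e := (Sv D z X C S ys gs ω u b : ℝ) -
        2 ^ X * (S.S ω (gs u) (ys b) * (2 * Ry z C) / Rg z C))
      (f := ym D J w z i j r d X C P ys (tx J w X
        (tv (c := c) (k0 := k0) (k1 := k1) D J w z i j r X C S ys gs ω)) ω b -
        2 ^ X * (ze D i j r P ω (ys b) / (2 * Ry z C))) (by ring) (by ring) f3
      (ym_near H hω hE b) f1 f2
  have h4 : ∑ b, 2 ^ X * (S.S ω (gs u) (ys b) * (2 * Ry z C) / Rg z C *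
        (ze D i j r P ω (ys b) / (2 * Ry z C))) =
      2 ^ X * ((∑ b, S.S ω (gs u) (ys b) * ze D i j r P ω (ys b)) / Rg z C) := by
    rw [Finset.sum_div, Finset.mul_sum]
    refine Finset.sum_congr rfl fun b _ => ?_
    have := hR0.ne'
    field_simp
  rw [h4] at h3
  rw [hnn, sub_div, mul_sub] at h1
  push_cast at h3
  obtain ⟨A, hA⟩ : ∃ A : ℝ, A = ∑ b, (Sv D z X C S ys gs ω u b : ℝ) / 2 ^ X *
    ym D J w z i j r d X C P ys (tx J w X
      (tv (c := c) (k0 := k0) (k1 := k1) D J w z i j r X C S ys gs ω)) ω b := ⟨_, rfl⟩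
  obtain ⟨B, hB⟩ : ∃ B : ℝ, B = 2 ^ X * ((∑ b, S.S ω (gs u) (ys b) *
    ze D i j r P ω (ys b)) / Rg z C) := ⟨_, rfl⟩
  obtain ⟨e, he⟩ : ∃ e : ℝ, e = (d : ℝ) * (d + 1) := ⟨_, rfl⟩
  have hk : (0 : ℝ) ≤ (k0 : ℝ) + k1 := by positivity
  rw [← hA, ← hB, ← he] at h3
  rw [← hA]
  rw [← hB] at h1
  rw [← he] at h2 hd ⊢
  have h5 : (1 + (2 + e) + 1 * (2 + e)) * ((k0 : ℝ) + k1) + (3 + e) ≤
      ((k0 : ℝ) + k1 + 1) * (7 + 2 * e) := by nlinarith
  rw [abs_le] at h1 h2 h3 ⊢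
  constructor <;> linarith [h1.1, h1.2, h2.1, h2.2, h3.1, h3.2]

/-- The digits of the own height are near to the height of the picture. -/
theorem hF_near {ω : D.Ω} (hω : 0 < q ω) (hE : E ω) (u : Fin c) :
    |((hv (c := c) (k0 := k0) (k1 := k1) D z i j r X C P S gs n th gam ω u -
      hF (c := c) (k0 := k0) (k1 := k1) D J w z i j r d X C P S ys gs ω u : ℤ) : ℝ)| ≤
      (k0 + k1 + 1 : ℝ) * (8 + 2 * (d * (d + 1))) := by
  have h1 := hv_near H hω hE u
  have h2 := Int.floor_le (hR J w X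
    (tv (c := c) (k0 := k0) (k1 := k1) D J w z i j r X C S ys gs ω)
    (vv (c := c) (k0 := k0) (k1 := k1) D J w z i j r d X C P ys gs ω) u)
  have h3 := Int.lt_floor_add_one (hR J w X
    (tv (c := c) (k0 := k0) (k1 := k1) D J w z i j r X C S ys gs ω)
    (vv (c := c) (k0 := k0) (k1 := k1) D J w z i j r d X C P ys gs ω) u)
  have h4 : (hF (c := c) (k0 := k0) (k1 := k1) D J w z i j r d X C P S ys gs ω u : ℝ) =
      (nuv D J w z i j r X C P gs ω u : ℝ) + ((⌊hR J w X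
        (tv (c := c) (k0 := k0) (k1 := k1) D J w z i j r X C S ys gs ω)
        (vv (c := c) (k0 := k0) (k1 := k1) D J w z i j r d X C P ys gs ω) u⌋ : ℤ) : ℝ) := by
    unfold hF
    push_cast
    ring
  have h5 : (k0 + k1 + 1 : ℝ) * (7 + 2 * (d * (d + 1))) + 1 ≤
      (k0 + k1 + 1 : ℝ) * (8 + 2 * (d * (d + 1))) := by
    have : (0 : ℝ) ≤ (k0 : ℝ) + k1 := by positivity
    nlinarith
  push_cast
  rw [h4]
  rw [abs_le] at h1 ⊢
  constructor <;> linarith [h1.1, h1.2]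

end

end Pool.TC
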