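import Pool.Agent.H48.TC.Prm

/-!
# TC: the first picture

`qa`: the slow variables are the positions of the moving slow coordinates of the representative at
the left end, the context knows the constant slow coordinates and the nonconstant parts of the paths
of the moving ones. `qa_ok`: its hypotheses, from the entropic pieces.
-/

set_option autoImplicit false

namespace Pool.TC

open Finset Real
open Pool.Agent.H49.Ent Pool.Agent.H32.Dense Pool.STK Pool.STAT
open Pool.BFL (Pb)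
open Pool.BD64 (QHd pol)
open Pool.P4 (t0 rt pp PthC FraC bb ze zt z0 cl1 dg dgp Ry cb LLC tq GoodS FrP err
  dg_near dg_abs dgp_near dgp_abs c_up Ry_pos rt_near)
open Pool.P4E (few_vec use_gen)

/-- What the context of the first picture knows. -/
abbrev CA (k0 k1 d : ℕ) : Type := (Fin k0 → ℤ) × (Fin k1 → Fin d → ℤ)

section

variable {G : Type} {c k0 k1 d : ℕ} (J w X : ℕ)

/-- The part of the data of the line which the context knows. -/
def cxa (v : VT G c k0 k1 d) : CA k0 k1 d := (fun a => v.2.1 (Fin.castAdd k1 a), v.2.2.1)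

/-- The coefficients of the group. -/
noncomputable def beA (v : VT G c k0 k1 d) (s : Fin (d + 1)) (u : Fin c) : ℝ :=
  Fin.cases (motive := fun _ => ℝ) 0 (fun s => (v.2.2.2 u s : ℝ) / 2 ^ X) s

/-- The known part of the height. -/
noncomputable def aA (t : TT G c k0 k1) (x : CA k0 k1 d) (u : Fin c) : ℝ :=
  -∑ a : Fin k0, (t.2.2 u (Fin.castAdd k1 a) : ℝ) / 2 ^ X * x.1 a +
    ∑ a, (t.2.2 u a : ℝ) / 2 -
    ∑ l : Fin k1, (t.2.2 u (Fin.natAdd k0 l) : ℝ) / 2 ^ X *
      ∑ s : Fin d, tx J w X t ^ ((s : ℕ) + 1) * x.2 l s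

/-- The formula of the first picture. -/
noncomputable def fA (t : TT G c k0 k1) (x : CA k0 k1 d) (v : VT G c k0 k1 d) (u : Fin c) : ℝ :=
  pol X (beA X v) (tq J w X t.2.1 : ℕ) u - ∑ l : Fin k1,
    (t.2.2 u (Fin.natAdd k0 l) : ℝ) / 2 ^ X * v.2.1 (Fin.natAdd k0 l) + aA J w X t x u

theorem pol_beA (v : VT G c k0 k1 d) (t : TT G c k0 k1) (u : Fin c) :
    pol X (beA X v) (tq J w X t.2.1 : ℕ) u = pg J w X t v u := by
  have hX : (0 : ℝ) < 2 ^ X := by positivity
  unfold pol pg beA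
  rw [Fin.sum_univ_succ]
  simp only [Fin.cases_zero, Fin.cases_succ, zero_mul, zero_add, Fin.val_succ]
  refine Finset.sum_congr rfl fun s _ => ?_
  unfold tx
  push_cast
  field_simp

/-- The formula at one sample. -/
theorem fA_eq (t : TT G c k0 k1) (v : VT G c k0 k1 d) (u : Fin c) :
    fA J w X t (cxa v) v u = hR J w X t v u := by
  unfold fA
  rw [pol_beA]
  unfold hR aA cxa pm
  rw [Fin.sum_univ_add (f := fun a => (t.2.2 u a : ℝ) / 2 ^ X * (v.2.1 a : ℝ))]
  ring

end

section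

variable {c k0 k1 : ℕ} (D : NDat2) (J w z i j r d X : ℕ) (C : ℝ) (P : D.Γ × D.Γ → ℕ → PN)
  (S : Slo D) (ys : Fin (k0 + k1) → ℕ) (gs : Fin c → ℕ)

/-- The data of the context of the first picture. -/
noncomputable def xa (ρ : D.Ω → D.Ω) (ω : D.Ω) : CA k0 k1 d :=
  cxa (vv (c := c) D J w z i j r d X C P ys gs (ρ ω))

/-- **The first picture.** `jq` is a variable with few bits. -/
noncomputable def qa (p : D.Ω → ℝ) (ρ : D.Ω → D.Ω) {JT : Type} (jq : D.Ω → JT) : QHd c k1 d where
  Ω := D.Ω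
  iΩ := D.fin
  B := ((D.Γ × D.Γ) × ℕ) × (JT × CA k0 k1 d)
  Vt := VT D.Γ c k0 k1 d
  Tt := TT D.Γ c k0 k1 × CA k0 k1 d
  p := p
  b := fun ω => (cb D J w i j r ω, (jq ω, xa D J w z i j r d X C P ys gs ρ ω))
  nu := fun ω => nuv D J w z i j r X C P gs (ρ ω)
  v := fun ω => vv D J w z i j r d X C P ys gs (ρ ω)
  th := fun ω => (tv D J w z i j r X C S ys gs ω, xa D J w z i j r d X C P ys gs ρ ω)
  tau := fun t => (tq J w X t.1.2.1 : ℕ)
  E := fun t l u => (t.1.2.2 u (Fin.natAdd k0 l) : ℝ) / 2 ^ X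
  y := fun v l => v.2.1 (Fin.natAdd k0 l)
  be := fun v => beA X v
  g := fun t v u => ⌊fA J w X t.1 t.2 v u⌋
  a0 := fun t u => aA J w X t.1 t.2 u
  b0 := fun _ _ => 0

end

section

variable {D : NDat2} {n d K K' J a₀ w₀ z M w i j r r2 r' r'' y a X : ℕ} {th : ℝ}
  {lam gam : ℕ → ℝ} {κ C₁ C : ℝ} {q : D.Ω → ℝ} {E : D.Ω → Prop} {P : D.Γ × D.Γ → ℕ → PN}
  {S : Slo D} {c k0 k1 : ℕ} {ys : Fin (k0 + k1) → ℕ} {gs : Fin c → ℕ}
  {i' : ℕ} {p : D.Ω → ℝ} {ρ : D.Ω → D.Ω} {JT : Type} {jq : D.Ω → JT}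

/-- The height of the first picture. -/
theorem qa_hgt (ω : D.Ω) (u : Fin c) :
    (qa (c := c) (k0 := k0) (k1 := k1) D J w z i j r d X C P S ys gs p ρ jq).hgt ω u =
      nuv D J w z i j r X C P gs (ρ ω) u +
        ⌊hR J w X (tv (c := c) (k0 := k0) (k1 := k1) D J w z i j r X C S ys gs ω)
          (vv (c := c) (k0 := k0) (k1 := k1) D J w z i j r d X C P ys gs (ρ ω)) u⌋ := by
  have h := fA_eq J w X (tv (c := c) (k0 := k0) (k1 := k1) D J w z i j r X C S ys gs ω)
    (vv (c := c) (k0 := k0) (k1 := k1) D J w z i j r d X C P ys gs (ρ ω)) u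
  rw [← h]
  rfl

/-- The constant of the bounds. -/
noncomputable def cB (d k0 k1 : ℕ) : ℝ := 2 + cT d k0 k1

theorem cB_ge (d k0 k1 : ℕ) : 2 ≤ cB d k0 k1 := by
  unfold cB
  linarith [cT_nn d k0 k1]

/-- The height of the first picture is bounded, at all samples. -/
theorem qa_bd (hwX : w + X ≤ J) (ω : D.Ω) (u : Fin c) :
    |((qa (c := c) (k0 := k0) (k1 := k1) D J w z i j r d X C P S ys gs p ρ jq).hgt ω u : ℝ)| ≤
      cB d k0 k1 * 2 ^ X := by
  have hX : (1 : ℝ) ≤ 2 ^ X := one_le_pow₀ (by norm_num)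
  obtain ⟨x0, x1⟩ := tx_bd (c := c) (k0 := k0) (k1 := k1) (D := D) (z := z) (i := i) (j := j)
    (r := r) (C := C) (S := S) (ys := ys) (gs := gs) hwX ω
  have h1 := hR_bd x0 x1 (fun u a => tv_bd ω u a)
    (vv_bv (d := d) (P := P) (D := D) (J := J) (w := w) (z := z) (i := i) (j := j) (r := r)
      (X := X) (C := C) (ys := ys) (gs := gs) (ρ ω)) u
  have h2 : |(nuv D J w z i j r X C P gs (ρ ω) u : ℝ)| ≤ 2 ^ X := Pool.P4E.dg_abs X _
  rw [qa_hgt]
  push_cast
  have h3 := Int.floor_le (hR J w X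
    (tv (c := c) (k0 := k0) (k1 := k1) D J w z i j r X C S ys gs ω)
    (vv (c := c) (k0 := k0) (k1 := k1) D J w z i j r d X C P ys gs (ρ ω)) u)
  have h4 := Int.lt_floor_add_one (hR J w X
    (tv (c := c) (k0 := k0) (k1 := k1) D J w z i j r X C S ys gs ω)
    (vv (c := c) (k0 := k0) (k1 := k1) D J w z i j r d X C P ys gs (ρ ω)) u)
  have h5 : cB d k0 k1 * 2 ^ X = 2 * 2 ^ X + cT d k0 k1 * 2 ^ X := by
    unfold cB
    ring
  rw [h5]
  rw [abs_le] at h1 h2 ⊢
  constructor <;> linarith [h1.1, h1.2, h2.1, h2.2]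

variable (H : Hyp D n d K K' J a₀ w₀ z M w i j r r2 r' r'' y a X th lam gam κ C₁ C q E P S ys gs)
  (h : Prm D J w z i j r i' M X C q E p ρ)

include H h

/-- **The height of the first picture is near to the own height of the sample.** -/
theorem qa_near {ω : D.Ω} (hω : 0 < p ω) (u : Fin c) :
    |((qa (c := c) (k0 := k0) (k1 := k1) D J w z i j r d X C P S ys gs p ρ jq).hgt ω u : ℝ) -
      hv (c := c) (k0 := k0) (k1 := k1) D z i j r X C P S gs n th gam ω u| ≤
      cN d k0 k1 + 1 := by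
  have h1 := Prm.hv_near H h hω u
  rw [qa_hgt]
  push_cast
  have h3 := Int.floor_le (hR J w X
    (tv (c := c) (k0 := k0) (k1 := k1) D J w z i j r X C S ys gs ω)
    (vv (c := c) (k0 := k0) (k1 := k1) D J w z i j r d X C P ys gs (ρ ω)) u)
  have h4 := Int.lt_floor_add_one (hR J w X
    (tv (c := c) (k0 := k0) (k1 := k1) D J w z i j r X C S ys gs ω)
    (vv (c := c) (k0 := k0) (k1 := k1) D J w z i j r d X C P ys gs (ρ ω)) u)
  rw [abs_le] at h1 ⊢
  constructor <;> linarith [h1.1, h1.2]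

omit H h in
/-- The digits of the data of the context. -/
def dxa (x : CA k0 k1 d) : Fin k0 ⊕ (Fin k1 × Fin d) → ℤ := Sum.elim x.1 fun l => x.2 l.1 l.2

/-- The data of the context of the representative, given the data of the context. -/
theorem xa_few {T : Type} {W : D.Ω → T}
    (hW : Det p W (fun ω => (cb D J w i j r ω,
      (y0v (k0 := k0) (k1 := k1) D J w z i j r X C P ys ω,
        mv (k0 := k0) (k1 := k1) D J w z i j r d X C P ys ω)))) :
    CH p (fun ω => (cb D J w i j r ω, xa (c := c) (k0 := k0) (k1 := k1) D J w z i j r d X C P ys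
      gs ρ ω)) W ≤ cV c d k0 k1 := by
  have hp := h.law.nonneg
  have a1 := CH_shift h.law
    (U := fun ω => dxa (cxa (vv (c := c) (k0 := k0) (k1 := k1) D J w z i j r d X C P ys gs ω)))
    (U' := fun ω => dxa (xa (c := c) (k0 := k0) (k1 := k1) D J w z i j r d X C P ys gs ρ ω))
    (W := W) (N := 3) (fun ω hω k => by
      have hn := Prm.nv (gs := gs) H h hω
      rcases k with a | ⟨l, s⟩
      · exact hn.y (Fin.castAdd k1 a)
      · exact hn.m l s)
    (fun ω ω' a b e => by
      have e1 := Prod.ext_iff.1 (Prod.ext_iff.1 (hW ω ω' a b e)).2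
      have e2 : cxa (vv (c := c) (k0 := k0) (k1 := k1) D J w z i j r d X C P ys gs ω) =
        cxa (vv (c := c) (k0 := k0) (k1 := k1) D J w z i j r d X C P ys gs ω') :=
        Prod.ext e1.1 e1.2
      exact congrArg dxa e2)
  have a2 : CH p (fun ω => (cb D J w i j r ω, xa (c := c) (k0 := k0) (k1 := k1) D J w z i j r d X
      C P ys gs ρ ω)) W ≤
      CH p (fun ω => dxa (xa (c := c) (k0 := k0) (k1 := k1) D J w z i j r d X C P ys gs ρ ω))
        W := by
    refine CH_mono_left hp ?_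
    intro ω ω' a b e
    have e1 := Prod.ext_iff.1 e
    have e2 := (Prod.ext_iff.1 (hW ω ω' a b e1.2)).1
    refine Prod.ext e2 (Prod.ext ?_ ?_)
    · funext a
      exact congrFun e1.1 (Sum.inl a)
    · funext l s
      exact congrFun e1.1 (Sum.inr (l, s))
  refine a2.trans (a1.trans ?_)
  have l3 : 0 ≤ lg 3 := lg_nn (by norm_num)
  unfold cV
  simp only [Fintype.card_sum, Fintype.card_fin, Fintype.card_prod]
  push_cast
  have h1 : (0 : ℝ) ≤ (k1 + c * d) * lg 3 := by positivity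
  nlinarith

omit H h in
/-- The price of the first picture. -/
noncomputable def cA (c d k0 k1 : ℕ) : ℝ :=
  2 * (c * lg (cN d k0 k1 + 1)) + 2 * cV c d k0 k1 + k1 * lg 3

/-- **The first picture satisfies the hypotheses of BODY.** -/
theorem qa_ok {RT : Type} {Rv : D.Ω → RT} (hρ : Det p Rv fun ω =>
      lv (c := c) (k0 := k0) (k1 := k1) D J w z i j r d X C P ys gs (ρ ω)) {e0 e2 e3 et ej : ℝ}
    (p0 : 0 ≤ e0) (p2 : 0 ≤ e2) (p3 : 0 ≤ e3) (pt : 0 ≤ et)
    (h0 : CH p (tv (c := c) (k0 := k0) (k1 := k1) D J w z i j r X C S ys gs) (cb D J w i j r) ≤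
      CH p (tv (c := c) (k0 := k0) (k1 := k1) D J w z i j r X C S ys gs)
        (fun ω => (Rv ω, cb D J w i j r ω)) + e0)
    (h2 : CH p (hv (c := c) (k0 := k0) (k1 := k1) D z i j r X C P S gs n th gam)
        (tv (c := c) (k0 := k0) (k1 := k1) D J w z i j r X C S ys gs) ≤
      CH p (hv (c := c) (k0 := k0) (k1 := k1) D z i j r X C P S gs n th gam)
        (fun ω => (vv (c := c) (k0 := k0) (k1 := k1) D J w z i j r d X C P ys gs ω,
          tv (c := c) (k0 := k0) (k1 := k1) D J w z i j r X C S ys gs ω)) + e2)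
    (hl : (k1 : ℝ) * X * Real.log 2 ≤
      CH p (y1v (k0 := k0) (k1 := k1) D J w z i j r X C P ys)
        (fun ω => (cb D J w i j r ω, (y0v (k0 := k0) (k1 := k1) D J w z i j r X C P ys ω,
          mv (k0 := k0) (k1 := k1) D J w z i j r d X C P ys ω))) + e3)
    (ht : X * Real.log 2 ≤ CH p (fun ω => tq J w X (D.T ω)) (cb D J w i j r) + et)
    (hej : CH p jq (cb D J w i j r) ≤ ej) :
    (qa (c := c) (k0 := k0) (k1 := k1) D J w z i j r d X C P S ys gs p ρ jq).OkNS X (cB d k0 k1)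
      (e0 + e2 + e3 + et + 3 * ej + cA c d k0 k1) := by
  have hq := h.law
  have hp := hq.nonneg
  have hB := cB_ge d k0 k1
  have hcN := cN_nn d k0 k1
  have l1 : 0 ≤ lg (cN d k0 k1 + 1) := lg_nn (by linarith)
  have l3 : 0 ≤ lg 3 := lg_nn (by norm_num)
  have n1 : 0 ≤ 2 * ((c : ℝ) * lg (cN d k0 k1 + 1)) := by positivity
  have n2 : 0 ≤ cV c d k0 k1 := by
    unfold cV
    positivity
  have n3 : 0 ≤ (k1 : ℝ) * lg 3 := by positivity
  have hA : cA c d k0 k1 = 2 * (c * lg (cN d k0 k1 + 1)) + 2 * cV c d k0 k1 + k1 * lg 3 := rfl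
  have pj : 0 ≤ ej := (CH_nonneg hp _ _).trans hej
  -- the context is known from the representative and the base context
  have hL : Det p (fun ω => (jq ω, (Rv ω, cb D J w i j r ω)))
      (qa (c := c) (k0 := k0) (k1 := k1) D J w z i j r d X C P S ys gs p ρ jq).b := by
    intro ω ω' a b e
    have e1 := Prod.ext_iff.1 e
    have e2 := Prod.ext_iff.1 e1.2
    have e3 : lv (c := c) (k0 := k0) (k1 := k1) D J w z i j r d X C P ys gs (ρ ω) =
      lv (c := c) (k0 := k0) (k1 := k1) D J w z i j r d X C P ys gs (ρ ω') := hρ ω ω' a b e2.1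
    exact Prod.ext e2.2 (Prod.ext e1.1 (congrArg cxa (Prod.ext_iff.1 e3).2))
  refine
    { law := hq
      tau_r := ?_
      y_r := ?_
      E_b := ?_
      be_b := ?_
      hgt_b := ?_
      g_eq := ?_
      h0 := ?_
      h2 := ?_
      y_f := ?_
      t_f := ?_ }
  · intro ω
    change 0 ≤ ((tq J w X (D.T ω) : ℕ) : ℤ) ∧ ((tq J w X (D.T ω) : ℕ) : ℤ) < 2 ^ X
    exact ⟨Int.natCast_nonneg _, by exact_mod_cast tq_lt H.wX⟩
  · intro ω l
    exact yv_rg (ρ ω) (Fin.natAdd k0 l)
  · intro ω l u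
    exact (div_bd (tv_bd (S := S) (C := C) (z := z) (i := i) (j := j) (r := r) (J := J) (w := w)
      (ys := ys) (gs := gs) ω u (Fin.natAdd k0 l))).trans (by linarith)
  · intro ω s u
    change |Fin.cases (motive := fun _ => ℝ) 0
      (fun s => ((bev D J w z i j r d X C P gs (ρ ω) u s : ℤ) : ℝ) / 2 ^ X) s| ≤ _
    refine Fin.cases ?_ (fun s => ?_) s
    · rw [Fin.cases_zero, abs_zero]
      linarith
    · rw [Fin.cases_succ]
      exact (div_bd (Pool.P4E.dg_abs X _)).trans (by linarith)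
  · intro ω u
    exact qa_bd H.wX ω u
  · intro ω ω' u
    have h3 := Int.floor_le (fA J w X
      (tv (c := c) (k0 := k0) (k1 := k1) D J w z i j r X C S ys gs ω)
      (xa (c := c) (k0 := k0) (k1 := k1) D J w z i j r d X C P ys gs ρ ω)
      (vv (c := c) (k0 := k0) (k1 := k1) D J w z i j r d X C P ys gs (ρ ω')) u)
    have h4 := Int.lt_floor_add_one (fA J w X
      (tv (c := c) (k0 := k0) (k1 := k1) D J w z i j r X C S ys gs ω)
      (xa (c := c) (k0 := k0) (k1 := k1) D J w z i j r d X C P ys gs ρ ω)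
      (vv (c := c) (k0 := k0) (k1 := k1) D J w z i j r d X C P ys gs (ρ ω')) u)
    change |((⌊fA J w X
      (tv (c := c) (k0 := k0) (k1 := k1) D J w z i j r X C S ys gs ω)
      (xa (c := c) (k0 := k0) (k1 := k1) D J w z i j r d X C P ys gs ρ ω)
      (vv (c := c) (k0 := k0) (k1 := k1) D J w z i j r d X C P ys gs (ρ ω')) u⌋ : ℤ) : ℝ) -
      (fA J w X
      (tv (c := c) (k0 := k0) (k1 := k1) D J w z i j r X C S ys gs ω)
      (xa (c := c) (k0 := k0) (k1 := k1) D J w z i j r d X C P ys gs ρ ω)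
      (vv (c := c) (k0 := k0) (k1 := k1) D J w z i j r d X C P ys gs (ρ ω')) u + 0)| ≤ _
    rw [add_zero, abs_le]
    constructor <;> linarith
  · -- the time is almost independent of the line
    have a1 := Prm.h0 (S := S) (ys := ys) (gs := gs) h
      (tt := (qa (c := c) (k0 := k0) (k1 := k1) D J w z i j r d X C P S ys gs p ρ jq).th)
      (b := (qa (c := c) (k0 := k0) (k1 := k1) D J w z i j r d X C P S ys gs p ρ jq).b)
      (L := (qa (c := c) (k0 := k0) (k1 := k1) D J w z i j r d X C P S ys gs p ρ jq).line)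
      (Rv := Rv) (jq := jq) ?_ ?_ ?_ ?_ h0 hej
    · have a2 : CH (qa (c := c) (k0 := k0) (k1 := k1) D J w z i j r d X C P S ys gs p ρ jq).p
        (qa (c := c) (k0 := k0) (k1 := k1) D J w z i j r d X C P S ys gs p ρ jq).th
        (qa (c := c) (k0 := k0) (k1 := k1) D J w z i j r d X C P S ys gs p ρ jq).b ≤
        CH (qa (c := c) (k0 := k0) (k1 := k1) D J w z i j r d X C P S ys gs p ρ jq).p
        (qa (c := c) (k0 := k0) (k1 := k1) D J w z i j r d X C P S ys gs p ρ jq).th
        (qa (c := c) (k0 := k0) (k1 := k1) D J w z i j r d X C P S ys gs p ρ jq).line +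
          (e0 + ej) := a1
      linarith
    · intro ω ω' _ _ e
      have e1 := Prod.ext_iff.1 e
      exact Prod.ext e1.1 (Prod.ext_iff.1 (Prod.ext_iff.1 e1.2).2).2
    · intro ω ω' _ _ e
      exact (Prod.ext_iff.1 e).1
    · intro ω ω' a b e
      have e1 : (qa (c := c) (k0 := k0) (k1 := k1) D J w z i j r d X C P S ys gs p ρ jq).b ω =
        (qa (c := c) (k0 := k0) (k1 := k1) D J w z i j r d X C P S ys gs p ρ jq).b ω' :=
        hL ω ω' a b e
      have e2 : lv (c := c) (k0 := k0) (k1 := k1) D J w z i j r d X C P ys gs (ρ ω) =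
        lv (c := c) (k0 := k0) (k1 := k1) D J w z i j r d X C P ys gs (ρ ω') :=
        hρ ω ω' a b (Prod.ext_iff.1 (Prod.ext_iff.1 e).2).1
      have e3 := Prod.ext_iff.1 e2
      exact Prod.ext e3.1 (Prod.ext e3.2 e1)
    · intro ω ω' _ _ e
      exact (Prod.ext_iff.1 e).1
  · -- the height
    have a1 := Prm.h2 (S := S) (ys := ys) (gs := gs) (P := P) (d := d) (n := n) (th := th)
      (gam := gam) h
      (Tb := fun ω => ((qa (c := c) (k0 := k0) (k1 := k1) D J w z i j r d X C P S ys gs p ρ jq).th ω,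
        (qa (c := c) (k0 := k0) (k1 := k1) D J w z i j r d X C P S ys gs p ρ jq).b ω))
      (Vb := fun ω => ((qa (c := c) (k0 := k0) (k1 := k1) D J w z i j r d X C P S ys gs p ρ jq).v ω,
        ((qa (c := c) (k0 := k0) (k1 := k1) D J w z i j r d X C P S ys gs p ρ jq).th ω,
        (qa (c := c) (k0 := k0) (k1 := k1) D J w z i j r d X C P S ys gs p ρ jq).b ω)))
      (g := (qa (c := c) (k0 := k0) (k1 := k1) D J w z i j r d X C P S ys gs p ρ jq).hgt)
      (N := cN d k0 k1 + 1) (eV := ej + cV c d k0 k1)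
      (fun ω hω u => qa_near H h hω u) ?_ ?_ h2
    · have a2 : CH (qa (c := c) (k0 := k0) (k1 := k1) D J w z i j r d X C P S ys gs p ρ jq).p
        (qa (c := c) (k0 := k0) (k1 := k1) D J w z i j r d X C P S ys gs p ρ jq).hgt
        (fun ω => ((qa (c := c) (k0 := k0) (k1 := k1) D J w z i j r d X C P S ys gs p ρ jq).th ω,
        (qa (c := c) (k0 := k0) (k1 := k1) D J w z i j r d X C P S ys gs p ρ jq).b ω)) ≤
        CH (qa (c := c) (k0 := k0) (k1 := k1) D J w z i j r d X C P S ys gs p ρ jq).p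
        (qa (c := c) (k0 := k0) (k1 := k1) D J w z i j r d X C P S ys gs p ρ jq).hgt
        (fun ω => ((qa (c := c) (k0 := k0) (k1 := k1) D J w z i j r d X C P S ys gs p ρ jq).v ω,
        ((qa (c := c) (k0 := k0) (k1 := k1) D J w z i j r d X C P S ys gs p ρ jq).th ω,
        (qa (c := c) (k0 := k0) (k1 := k1) D J w z i j r d X C P S ys gs p ρ jq).b ω))) +
          (e2 + 2 * (c * lg (cN d k0 k1 + 1)) + (ej + cV c d k0 k1)) := a1
      linarith
    · intro ω ω' _ _ e
      exact (Prod.ext_iff.1 (Prod.ext_iff.1 e).1).1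
    · -- the data of the representative are few
      have b1 := CH_le_add hp (fun ω =>
        ((qa (c := c) (k0 := k0) (k1 := k1) D J w z i j r d X C P S ys gs p ρ jq).v ω,
        ((qa (c := c) (k0 := k0) (k1 := k1) D J w z i j r d X C P S ys gs p ρ jq).th ω,
        (qa (c := c) (k0 := k0) (k1 := k1) D J w z i j r d X C P S ys gs p ρ jq).b ω))) jq
        (fun ω => (vv (c := c) (k0 := k0) (k1 := k1) D J w z i j r d X C P ys gs ω,
          tv (c := c) (k0 := k0) (k1 := k1) D J w z i j r X C S ys gs ω))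
      have b2 : CH p jq (fun ω =>
          (vv (c := c) (k0 := k0) (k1 := k1) D J w z i j r d X C P ys gs ω,
          tv (c := c) (k0 := k0) (k1 := k1) D J w z i j r X C S ys gs ω)) ≤ ej :=
        (CH_mono_cond hp fun ω ω' _ _ e =>
          (Prod.ext_iff.1 (Prod.ext_iff.1 e).2).1).trans hej
      refine b1.trans (add_le_add b2 ?_)
      refine le_trans (CH_mono_left hp ?_) (Prm.vv_few H h (W := fun ω => (jq ω,
        (vv (c := c) (k0 := k0) (k1 := k1) D J w z i j r d X C P ys gs ω,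
          tv (c := c) (k0 := k0) (k1 := k1) D J w z i j r X C S ys gs ω)))
        fun ω ω' _ _ e => (Prod.ext_iff.1 (Prod.ext_iff.1 e).2).1)
      intro ω ω' _ _ e
      have e1 := Prod.ext_iff.1 e
      have e5 : jq ω = jq ω' := (Prod.ext_iff.1 e1.2).1
      have e2 : vv (c := c) (k0 := k0) (k1 := k1) D J w z i j r d X C P ys gs (ρ ω) =
        vv (c := c) (k0 := k0) (k1 := k1) D J w z i j r d X C P ys gs (ρ ω') := e1.1
      have e3 : tv (c := c) (k0 := k0) (k1 := k1) D J w z i j r X C S ys gs ω =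
        tv (c := c) (k0 := k0) (k1 := k1) D J w z i j r X C S ys gs ω' :=
        (Prod.ext_iff.1 (Prod.ext_iff.1 e1.2).2).2
      have e4 : xa (c := c) (k0 := k0) (k1 := k1) D J w z i j r d X C P ys gs ρ ω =
        xa (c := c) (k0 := k0) (k1 := k1) D J w z i j r d X C P ys gs ρ ω' := congrArg cxa e2
      exact Prod.ext e2 (Prod.ext (Prod.ext e3 e4)
        (Prod.ext (Prod.ext_iff.1 e3).1 (Prod.ext e5 e4)))
  · -- the slow variables
    have a1 := CH_near2 hq (y1v (k0 := k0) (k1 := k1) D J w z i j r X C P ys)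
      (fun ω => (qa (c := c) (k0 := k0) (k1 := k1) D J w z i j r d X C P S ys gs p ρ jq).y
        ((qa (c := c) (k0 := k0) (k1 := k1) D J w z i j r d X C P S ys gs p ρ jq).v ω))
      (fun ω => (cb D J w i j r ω, (y0v (k0 := k0) (k1 := k1) D J w z i j r X C P ys ω,
          mv (k0 := k0) (k1 := k1) D J w z i j r d X C P ys ω)))
      (qa (c := c) (k0 := k0) (k1 := k1) D J w z i j r d X C P S ys gs p ρ jq).b (N := 3)
      (fun ω hω l => (Prm.nv (gs := gs) H h hω).y (Fin.natAdd k0 l))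
    have a2 : CH p (qa (c := c) (k0 := k0) (k1 := k1) D J w z i j r d X C P S ys gs p ρ jq).b
      (fun ω => (cb D J w i j r ω, (y0v (k0 := k0) (k1 := k1) D J w z i j r X C P ys ω,
          mv (k0 := k0) (k1 := k1) D J w z i j r d X C P ys ω))) ≤ ej + cV c d k0 k1 := by
      have b1 := CH_le_add hp
        (qa (c := c) (k0 := k0) (k1 := k1) D J w z i j r d X C P S ys gs p ρ jq).b jq
        (fun ω => (cb D J w i j r ω, (y0v (k0 := k0) (k1 := k1) D J w z i j r X C P ys ω,
          mv (k0 := k0) (k1 := k1) D J w z i j r d X C P ys ω)))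
      have b2 : CH p jq (fun ω => (cb D J w i j r ω,
          (y0v (k0 := k0) (k1 := k1) D J w z i j r X C P ys ω,
          mv (k0 := k0) (k1 := k1) D J w z i j r d X C P ys ω))) ≤ ej :=
        (CH_mono_cond hp fun ω ω' _ _ e => (Prod.ext_iff.1 e).1).trans hej
      refine b1.trans (add_le_add b2 ?_)
      refine le_trans (CH_mono_left hp ?_) (xa_few (c := c) (gs := gs) H h (W := fun ω => (jq ω,
        (cb D J w i j r ω, (y0v (k0 := k0) (k1 := k1) D J w z i j r X C P ys ω,
          mv (k0 := k0) (k1 := k1) D J w z i j r d X C P ys ω))))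
        fun ω ω' _ _ e => (Prod.ext_iff.1 e).2)
      intro ω ω' _ _ e
      have e1 := Prod.ext_iff.1 e
      have e2 := Prod.ext_iff.1 e1.1
      exact Prod.ext e2.1 (Prod.ext (Prod.ext_iff.1 e1.2).1 e2.2)
    rw [Fintype.card_fin] at a1
    change _ ≤ CH p (fun ω => (qa (c := c) (k0 := k0) (k1 := k1) D J w z i j r d X C P S ys gs
        p ρ jq).y ((qa (c := c) (k0 := k0) (k1 := k1) D J w z i j r d X C P S ys gs p ρ jq).v ω))
          (qa (c := c) (k0 := k0) (k1 := k1) D J w z i j r d X C P S ys gs p ρ jq).b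
    linarith
  · -- the time
    have a1 := Prm.tf (S := S) (ys := ys) (gs := gs) h (b := (qa (c := c) (k0 := k0) (k1 := k1)
      D J w z i j r d X C P S ys gs p ρ jq).b) (Rv := Rv) hL h0 ht hej
    change _ ≤ CH p (fun ω => ((tq J w X (D.T ω) : ℕ) : ℤ))
          (qa (c := c) (k0 := k0) (k1 := k1) D J w z i j r d X C P S ys gs p ρ jq).b
    linarith

end

end Pool.TC
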