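import Pool.Agent.H48.TC.Fa
import Pool.Agent.H48.TC.Gqs
import Pool.Agent.H30.TC.Core
import Pool.Agent.H30.TC.End
import Pool.Agent.H35.TC.Main
import Pool.Agent.H25.TC.GtD
import Pool.Agent.H5.TT.Sid
import Pool.Agent.H12.AF.Cha
import Pool.Agent.H14.TT.Red

/-!
# TC: the end

`GeoQA`: the geometry at several places, affine frames. `tx2_of`: (T) in a cell with the additional
laws.
-/

set_option autoImplicit false

namespace Pool.TC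

open Finset Real MvPolynomial Matrix
open Pool.Agent.H49.Ent Pool.Agent.H32.Dense Pool.STK Pool.STAT Pool.MIC.Frm Pool.MIC7 Pool.FRM
open Pool.GSD Pool.TCO
open Pool.BFL (Pb)
open Pool.SLO (tup)
open Pool.P4 (t0 rt pp PthC FraC bb ze zt z0 cl1 dg dgp Ry cb LLC tq GoodS FrP err exp_mz GnL
  NewLabT NBT GoodU)
open Pool.STAT.Glu (kN)
open Pool.TC12 (YH hh yl Cy Shd)
open Pool.TT5 (visQ)

/-- **Slopes**: no coordinate is faster than the target, and the slopes `≥ 1` of the slower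
coordinates differ by less than one. -/
def TopM (n : ℕ) (gam : ℕ → ℝ) : Prop := TopQ n gam ∧
  ∀ l l', 1 ≤ l → l < n → 1 ≤ l' → l' < n → 1 ≤ gam l → 1 ≤ gam l' → gam l < gam n →
    gam l' < gam n → gam l < gam l' + 1

theorem topM_two {n : ℕ} {gam : ℕ → ℝ} (h : TopQ n gam) (h2 : gam n ≤ 2) : TopM n gam :=
  ⟨h, fun l l' _ _ _ _ _ h3 h4 _ => by linarith⟩

theorem topM_four {n l₀ : ℕ} {gam : ℕ → ℝ} (h : TopQ n gam) (hn : n ≤ 4) (h1 : gam 1 = 0)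
    (l1 : 1 ≤ l₀) (l2 : l₀ < n) (h2 : gam l₀ = gam n) (h3 : 0 < gam n) : TopM n gam := by
  refine ⟨h, fun l l' a1 a2 b1 b2 c1 c2 d1 d2 => ?_⟩
  have e0 : l₀ ≠ 1 := fun e => by
    rw [e] at h2
    linarith
  have e1 : l ≠ 1 := fun e => by
    rw [e] at c1
    linarith
  have e2 : l' ≠ 1 := fun e => by
    rw [e] at c2
    linarith
  have e3 : l ≠ l₀ := fun e => by
    rw [e] at d1
    linarith
  have e4 : l' ≠ l₀ := fun e => by
    rw [e] at d2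
    linarith
  have e5 : l = l' := by omega
  rw [e5]
  linarith

theorem pb_le {Ω : Type} [Fintype Ω] {p : Ω → ℝ} (hp : ∀ ω, 0 ≤ p ω) {A B : Ω → Prop}
    (h : ∀ ω, 0 < p ω → A ω → B ω) : Pb p A ≤ Pb p B := by
  classical
  unfold Pb
  refine Finset.sum_le_sum fun w _ => ?_
  have h0 := hp w
  by_cases hA : A w
  · rcases h0.lt_or_eq with h1 | h1
    · rw [if_pos hA, if_pos (h w h1 hA)]
    · rw [← h1]
      simp
  · rw [if_neg hA]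
    split_ifs
    · exact h0
    · exact le_rfl

/-- An affine difference in the time. -/
theorem shd_of {D : NDat2} {n i₀ i j r : ℕ} {q : D.Ω → ℝ} {E : D.Ω → Prop}
    {P P' : D.Γ × D.Γ → ℕ → PN} (h : ∀ ω, E ω → ∀ l, 1 ≤ l → ∃ A : PN, A.vars ⊆ {0} ∧
      P' (bb D i j r ω) l = P (bb D i₀ j r ω) l + A) : Shd D n i₀ i j r q E P P' := by
  intro ω _ hω l l1 _
  obtain ⟨A, hA, e⟩ := h ω hω l l1
  refine ⟨fun t => eval (fun _ => t) A, fun x => ?_⟩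
  rw [e, map_add]
  congr 1
  refine MvPolynomial.eval₂Hom_congr' rfl ?_ rfl
  intro k hk _
  have := Finset.mem_singleton.1 (hA hk)
  rw [this]

/-- **(T), in a cell with the additional laws.** -/
theorem tx2_of (hG : GeoQA) (n K A B : ℕ) (Tl R : ℕ → Prop) (gam : ℕ → ℝ) (C₁ CL h : ℝ)
    (hn : 1 ≤ n) (hB : 1 ≤ B) (hgam : ∀ l, 0 ≤ gam l) (hgn : 0 < gam n)
    (hTl : ∀ l, 1 ≤ l → l < n → (Tl l ↔ gam l = gam n)) (hQ : TopM n gam)
    (hC₁ : 1 ≤ C₁) (hh : 0 < h) (hh1 : h ≤ 1) : Pool.TC14.TX2 n K A B Tl R gam C₁ CL h := by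
  obtain ⟨htop, hmov⟩ := hQ
  obtain ⟨d, hd⟩ : ∃ d : ℕ, d = ⌈gam n⌉₊ + 1 := ⟨_, rfl⟩
  have hd1 : 1 ≤ d := by omega
  have hdg : gam n < d + 1 := by
    have h1 := Nat.le_ceil (gam n)
    rw [hd]
    push_cast
    linarith
  have hTl' : ∀ l, 1 ≤ l → l < n → (gam n ≤ gam l ↔ Tl l) := fun l l1 l2 => by
    rw [hTl l l1 l2]
    exact ⟨fun h3 => le_antisymm (htop l l1 l2) h3, fun h3 => h3.ge⟩
  have hle : ∀ l, 1 ≤ l → l ≤ n → gam l ≤ gam n := fun l l1 l2 => by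
    rcases Nat.lt_or_ge l n with h3 | h3
    · exact htop l l1 h3
    · rw [le_antisymm l2 h3]
  obtain ⟨c, k0, k1, ys, gs, hE⟩ := enu_ex (gam n) gam n
  obtain ⟨n₀, hn₀⟩ := hE.tgt hn le_rfl
  obtain ⟨K', C₀, hC₀, HG⟩ := hG n d K (gam n) gam C₁ hn hC₁ hgam
  obtain ⟨F, hF1, HL⟩ := end_lab Pool.TC25.gfT n d K K' c k0 k1 C₀ C₁ (gam n) gam (by linarith)
    (by linarith)
  obtain ⟨C, hCd⟩ : ∃ C : ℝ, C = max (max C₀ CL) F := ⟨_, rfl⟩
  have hCC : C₀ ≤ C := by rw [hCd]; exact (le_max_left _ _).trans (le_max_left _ _)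
  have hCL : CL ≤ C := by rw [hCd]; exact (le_max_right _ _).trans (le_max_left _ _)
  have hCF : F ≤ C := by rw [hCd]; exact le_max_right _ _
  have hC : 1 ≤ C := hC₀.trans hCC
  have hBr : (1 : ℝ) ≤ B := by exact_mod_cast hB
  obtain ⟨hc, hhc⟩ : ∃ hc : ℝ, hc = h / (2 * B) := ⟨_, rfl⟩
  have hc0 : 0 < hc := by rw [hhc]; positivity
  have hc1 : hc ≤ 1 := by
    rw [hhc, div_le_one (by positivity)]
    linarith
  obtain ⟨Np, m₁, γ, δ, δ₂, io, io', ϖ, hm₁, hγ, hδ, hδ₂, hio, hio', hϖ, HC⟩ :=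
    core hd1 (Pool.TC35.tc c k1 d) (Pool.TC35.tc c k0 (2 * d)) hc (hc / 4) (hc / 2) (1 / 4) 1
      hc0 hc1 (by positivity) (by positivity) (by linarith) (by norm_num) le_rfl
  obtain ⟨s', hs', HT⟩ := tm_stmt δ₂ hδ₂
  obtain ⟨s, hs⟩ : ∃ s : ℝ, s = min s' 1 := ⟨_, rfl⟩
  have hs0 : 0 < s := by rw [hs]; exact lt_min hs' one_pos
  have hs1 : s ≤ 1 := by rw [hs]; exact min_le_right _ _
  have hss : s ≤ s' := by rw [hs]; exact min_le_left _ _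
  obtain ⟨N, N₁, hN, hN₁, X0, HC⟩ := HC s hs0 hs1
  obtain ⟨κ₁, e₁, U₀, z₁, hκ₁, he₁, HS⟩ := Pool.TT5.sid_of Pool.AF12.chtAff n d K K' B c k0 k1 C₁ C
    h (hc / 4) ϖ γ io io' δ 1 hn hB hC₁ hC le_rfl hh (by positivity) hϖ hγ hio hio' hδ
  obtain ⟨X1, HS⟩ := HS N₁ (by linarith)
  obtain ⟨X2, HL⟩ := HL C hCF A (hc / 2) (by positivity) (by linarith)
  -- the digits
  obtain ⟨U', hU'⟩ : ∃ U' : ℕ, U' = U₀ + 1 + X2 := ⟨_, rfl⟩
  obtain ⟨x', hx'⟩ : ∃ x' : ℕ, x' = B * U' := ⟨_, rfl⟩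
  obtain ⟨U₁, hU₁⟩ : ∃ U₁ : ℕ, U₁ = m₁ * U' := ⟨_, rfl⟩
  have hUU : U' ≤ U₁ := by rw [hU₁]; exact Nat.le_mul_of_pos_left _ hm₁
  have hUx : U' ≤ x' := by rw [hx']; exact Nat.le_mul_of_pos_left _ hB
  have hx'1 : 1 ≤ x' := by omega
  have hxm : x' ≤ m₁ * x' := Nat.le_mul_of_pos_left _ hm₁
  -- the places
  obtain ⟨y, r, r2, r', r'', a, s₁, i₀, j, M₀, HN⟩ := nums_ex n d (gam n) gam hd1 hgn le_rfl
    (fun l l' a1 a2 => hmov l l' a1.1.1 a1.1.2.1 a2.1.1 a2.1.2.1 a1.2 a2.2 a1.1.2.2 a2.1.2.2)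
    (fun l l' a1 a2 => by
      have h3 := hle l a1.1 a1.2.1
      have h4 := a2.2.2
      linarith)
    (fun l l1 l2 => (hle l l1 l2).trans_lt hdg) C (Np + 2) (m₁ * x') 0 0
  obtain ⟨m2, hm2⟩ := exists_nat_ge ((U₁ : ℝ) / gam n)
  obtain ⟨M₁, hM₁⟩ : ∃ M₁ : ℕ, M₁ = M₀ + (i₀ + (Np + 2) * s₁ + 2 * (B * U₁)) +
    (j + 2 * (B * U₁)) + m2 + 1 := ⟨_, rfl⟩
  have hM₀ : M₀ ≤ M₁ := by omega
  have hMj : ∀ U : ℕ, U ≤ U₁ → (U : ℝ) ≤ gam n * (M₁ - j) := by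
    intro U hU
    have e1 : (m2 : ℝ) ≤ M₁ - j := by
      have : ((m2 + j : ℕ) : ℝ) ≤ M₁ := by exact_mod_cast (by omega : m2 + j ≤ M₁)
      push_cast at this
      linarith
    rw [div_le_iff₀ hgn] at hm2
    have e2 := mul_le_mul_of_nonneg_left e1 hgn.le
    have e3 : (U : ℝ) ≤ U₁ := by exact_mod_cast hU
    linarith
  have hBU : ∀ U : ℕ, U ≤ U₁ → B * U ≤ B * U₁ := fun U hU => Nat.mul_le_mul_left _ hU
  obtain ⟨e₂, he₂⟩ : ∃ e₂ : ℝ, e₂ = min e₁ (1 / 4) := ⟨_, rfl⟩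
  have he₂0 : 0 < e₂ := by rw [he₂]; exact lt_min he₁ (by norm_num)
  have he₂1 : e₂ ≤ e₁ := by rw [he₂]; exact min_le_left _ _
  have he₂2 : e₂ ≤ 1 / 4 := by rw [he₂]; exact min_le_right _ _
  obtain ⟨M, κ₂, z₂, hMM, hκ₂, HG⟩ := HG y r r2 r' r'' a M₁ e₂ he₂0
  obtain ⟨κ₃, z₃, hκ₃, HT⟩ := HT n K M₁ C₁
  obtain ⟨κ₄, z₄, hκ₄, HL⟩ := HL M₁ N (1 / 8) hN (by norm_num)
  obtain ⟨κ, hκ⟩ : ∃ κ : ℝ, κ = min (min κ₁ κ₂) (min κ₃ κ₄) := ⟨_, rfl⟩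
  have hκ0 : 0 < κ := by rw [hκ]; exact lt_min (lt_min hκ₁ hκ₂) (lt_min hκ₃ hκ₄)
  have c1 : κ ≤ κ₁ := by rw [hκ]; exact (min_le_left _ _).trans (min_le_left _ _)
  have c2 : κ ≤ κ₂ := by rw [hκ]; exact (min_le_left _ _).trans (min_le_right _ _)
  have c3 : κ ≤ κ₃ := by rw [hκ]; exact (min_le_right _ _).trans (min_le_left _ _)
  have c4 : κ ≤ κ₄ := by rw [hκ]; exact (min_le_right _ _).trans (min_le_right _ _)
  refine ⟨M, x', max (kN (max K K') (2 * d + 1)) 1, 1 / 4, κ, ϖ / 2,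
    z₁ + z₂ + z₃ + z₄ + X0 + X1 + 1, by norm_num, hκ0, half_pos hϖ, ?_⟩
  intro J a₀ w₀ z D q U hz hO hDM _ hLL hT hNF hSt hSl hNFt hNo hU
  have hTm : ∀ κ' : ℝ, κ ≤ κ' → D.TmU J w₀ z κ' q := by
    intro κ' h'
    unfold NDat2.TmU at hT ⊢
    have : κ * z ≤ κ' * z := mul_le_mul_of_nonneg_right h' (Nat.cast_nonneg z)
    linarith
  have hz1 : 1 ≤ z := by omega
  obtain ⟨pl, hpl⟩ : ∃ pl : ℕ → ℕ, ∀ m, pl m = i₀ + m * s₁ := ⟨_, fun _ => rfl⟩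
  have hpl1 : ∀ m, pl (m + 1) = pl m + s₁ := fun m => by
    rw [hpl, hpl]
    ring
  have hPlc : ∀ m ≤ Np + 2, Plc n d (gam n) gam y r r2 r' r'' a M₁ (pl m) j := fun m hm => by
    rw [hpl]
    exact HN.plc M₁ hM₀ m hm
  have hpl0 : ∀ m, pl 0 ≤ pl m := fun m => by
    rw [hpl, hpl]
    omega
  obtain ⟨E, P, V, hPE, -, hgd, hsh, hdeg, hgeo⟩ := HG J a₀ w₀ z j (Np + 2) pl D q (by omega)
    hPlc (fun m _ => hpl0 m) (hO.mono_κ c2) (hTm _ c2) hSt hSl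
    (hNo.mono (le_max_right _ _) le_rfl c2)
  -- the smaller cell
  have hO₁ := hO.subM hMM
  have hDM₁ := dma_subM hDM hMM
  have hLL₁ := llc_subM hLL hMM
  have hNF₁ := hNF.subM (hgam n) hMM
  have hSl₁ := slp_subM hSl hMM
  have hNFt₁ := nft_subM hNFt hMM
  have hU₂ := gnl_subM hU hMM
  have hq := hO.isLaw
  have hj2 := (hPlc 0 (Nat.zero_le _)).j2
  obtain ⟨w, w1, w2, hTM⟩ := HT D J a₀ w₀ z j (fun _ => 1) gam κ q c3 (by omega) (by omega)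
    hO₁ hT
  have HH : ∀ m ≤ Np + 2, Hyp D n d K K' J a₀ w₀ z M₁ w (pl m) j r r2 r' r'' y a (m₁ * x' * z)
      (gam n) (fun _ => 1) gam κ C₁ C q E (P m)
      ⟨Sm D n (pl 0) (pl m) j r (sl (gam n) gam n) E (P 0) V,
        Sm D n (pl 0) (pl m) j r (sl0 (gam n) gam n) E (P 0) V⟩ ys gs :=
    hyp_col hO₁ hDM₁ hLL₁ hT hn hC₁ hC₀ hCC hCL hκ0.le hz1 (fun _ _ _ => rfl) hgam hPlc w1 w2
      (by linarith) hgd hgeo rfl HN.hy (fun m hm => by rw [hpl]; exact HN.hxi M₁ hM₀ m hm)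
      (HN.hxj M₁ hM₀) hE
  obtain ⟨S, hS⟩ : ∃ S : ℕ → Slo D, ∀ m, S m =
      ⟨Sm D n (pl 0) (pl m) j r (sl (gam n) gam n) E (P 0) V,
        Sm D n (pl 0) (pl m) j r (sl0 (gam n) gam n) E (P 0) V⟩ := ⟨_, fun _ => rfl⟩
  have HH' : ∀ m ≤ Np + 2, Hyp D n d K K' J a₀ w₀ z M₁ w (pl m) j r r2 r' r'' y a (m₁ * x' * z)
      (gam n) (fun _ => 1) gam κ C₁ C q E (P m) (S m) ys gs := fun m hm => by
    rw [hS]
    exact HH m hm
  have hlow : ∀ m ≤ Np + 2, Hyp D n d K K' J a₀ w₀ z M₁ w (pl m) j r r2 r' r'' y a (x' * z)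
      (gam n) (fun _ => 1) gam κ C₁ C q E (P m) (S m) ys gs := fun m hm =>
    (HH' m hm).lowX rfl hxm
  have hXX : m₁ * x' * z = B * U₁ * z := by
    rw [hx', hU₁]
    ring
  have hrs := HN.rs
  have hCol : Col D n d K K' J a₀ w₀ z M₁ w j r r2 r' r'' y a (m₁ * x' * z) Np (gam n)
      (fun _ => 1) gam κ C₁ C q E (fun m => pl (m + 1)) (fun m => P (m + 1))
      (fun m => S (m + 1)) ys gs :=
    { hyp := fun m hm => HH' (m + 1) (by omega)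
      st := fun m hm => by
        show pl (m + 1) + r ≤ pl (m + 1 + 1) + 1
        rw [hpl1 (m + 1)]
        omega
      le := fun m hm => by
        show pl (m + 1) ≤ pl (m + 1 + 1)
        rw [hpl1 (m + 1)]
        omega
      dp := fun m hm => by
        show exp (C * z) * 2 ^ (m₁ * x' * z) ≤ (2 : ℝ) ^ ((pl (m + 1 + 1) - pl (m + 1)) * z)
        rw [hpl1 (m + 1), Nat.add_sub_cancel_left]
        exact exp_pow_le HN.hs
      iM := by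
        show pl (Np + 1 + 1) < M₁
        have := HN.hxi M₁ hM₀ (Np + 2) le_rfl
        rw [hpl]
        show i₀ + (Np + 2) * s₁ < M₁
        omega }
  have hYH : ∀ m ≤ Np, YH D n d K J a₀ w₀ z M₁ (pl 0) (pl (m + 1)) j r (fun _ => 1) gam κ C₁ C q
      E (P 0) ∧ Shd D n (pl 0) (pl (m + 1)) j r q E (P 0) (P (m + 1)) := by
    intro m hm
    have h0 := HH' 0 (Nat.zero_le _)
    have h1 : pl 0 + s₁ ≤ pl (m + 1) := by
      rw [hpl1]
      have := hpl0 m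
      omega
    have h2 := (hPlc (m + 1) (by omega)).i2
    refine ⟨⟨hO₁, fun _ _ _ => rfl, hC₁, by linarith, hz1, h0.i0, by omega, by omega, by omega,
      by omega, h0.j1, h0.dep⟩, shd_of (hsh (m + 1) (by omega))⟩
  have hchg : ∀ m m', m < m' → m' ≤ Np → pl (m + 1) ≤ pl (m' + 1) ∧ ∀ ω u k,
      (S (m' + 1)).S ω u k =
        rho (D.g (pl (m + 1)) j) (D.g (pl (m' + 1)) j) u /
          rho (D.g (pl (m + 1)) j) (D.g (pl (m' + 1)) j) k * (S (m + 1)).S ω u k := by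
    intro m m' h1 h2
    refine ⟨?_, fun ω u k => ?_⟩
    · rw [hpl, hpl]
      have := Nat.mul_le_mul_right s₁ (by omega : m + 1 ≤ m' + 1)
      omega
    · rw [hS, hS]
      exact Sm_chg D n (pl 0) (pl (m + 1)) (pl (m' + 1)) j r _ E (P 0) V ω u k
  have htm : ∀ X : ℕ, z ≤ X → X ≤ M₁ * z → ∀ (Λ : Type) (L : D.Ω → Λ),
      (∀ ω ω', 0 < q ω → 0 < q ω' → D.wn J w ω = D.wn J w ω' → L ω = L ω') →
      Pb (tup q L 1) (fun v => |(((tq J w X (D.T (v 0)) : ℤ) -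
        tq J w X (D.T (v 1)) : ℤ) : ℝ)| ≤ s * 2 ^ X) ≤ δ₂ := by
    intro X hX hX' Λ L hL
    refine le_trans ?_ (hTM X hX hX' Λ L hL)
    refine pb_le (Pool.SLO.tup_isLaw hq L 1).nonneg fun v _ hv => hv.trans ?_
    exact mul_le_mul_of_nonneg_right hss (by positivity)
  have hplM : ∀ m ≤ Np, ∀ U : ℕ, U ≤ U₁ → pl (m + 1) + 2 * (B * U) ≤ M₁ := by
    intro m hm U hU
    have h1 := hBU U hU
    have h2 := Nat.mul_le_mul_right s₁ (by omega : m + 1 ≤ Np + 2)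
    rw [hpl]
    omega
  have hsidU : ∀ U : ℕ, U₀ ≤ U → 1 ≤ U → U ≤ U₁ →
      (∀ m ≤ Np, Hyp D n d K K' J a₀ w₀ z M₁ w (pl (m + 1)) j r r2 r' r'' y a (B * U * z)
        (gam n) (fun _ => 1) gam κ C₁ C q E (P (m + 1)) (S (m + 1)) ys gs) →
      Sid D n d J w z j r M₁ (B * U * z) Np (gam n) gam C q E (fun m => pl (m + 1))
        (fun m => P (m + 1)) (fun m => S (m + 1)) ys gs
        (fun m => visQ D n (pl (m + 1)) j (yl D (pl 0) (pl (m + 1)) j r (P 0) q E) J w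
          (B * U * z) ys gs) (fun _ => id) 1 N₁ γ δ δ₂ io io' (h / (2 * B)) (hc / 4) ϖ s := by
    intro U h1 h2 h3 h4
    have h5 := hBU U h3
    have h6 : 1 ≤ B * U := Nat.one_le_iff_ne_zero.2 (by positivity)
    have h7 : z ≤ B * U * z := Nat.le_mul_of_pos_left z h6
    exact HS D _ J a₀ w₀ z M₁ w (pl 0) j r r2 r' r'' y a U d Np (gam n) (fun _ => 1) gam κ (ϖ / 2)
      δ₂ s q E (P 0) (fun m => pl (m + 1)) (fun m => P (m + 1)) (fun m => S (m + 1)) ys gs Tl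
      (by omega) h1 (by omega) hκ0 c1 (half_pos hϖ) (by linarith) h4 hSt hSl₁ hYH
      (fun m hm => hdeg (m + 1) (by omega)) hNF₁ (le_max_right _ _) hNFt₁ hTl'
      (fun m hm => hplM m hm U h3) (by omega) (hMj U h3) (hPE.trans he₂1)
      (htm _ h7 (Nat.mul_le_mul_right z (by omega))) hchg
  have hSid₁ := hsidU U₁ (by omega) (by omega) le_rfl fun m hm => by
    rw [← hXX]
    exact HH' (m + 1) (by omega)
  have hSid₂ := hsidU U' (by omega) (by omega) hUU fun m hm => by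
    rw [← hx']
    exact hlow (m + 1) (by omega)
  have hx'z : z ≤ x' * z := Nat.le_mul_of_pos_left z hx'1
  obtain ⟨m, hm, ep, Ev, hEv, hEvE, hline, hbd, happ⟩ := HC D n K K' J a₀ w₀ z M₁ w j r r2 r' r''
    y a x' (gam n) (fun _ => 1) gam κ C₁ C q E (fun m => pl (m + 1)) (fun m => P (m + 1))
    (fun m => S (m + 1)) ys gs (by omega) hCol (hPE.trans he₂2)
    (fun m => visQ D n (pl (m + 1)) j (yl D (pl 0) (pl (m + 1)) j r (P 0) q E) J w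
      (B * U₁ * z) ys gs)
    (fun m => visQ D n (pl (m + 1)) j (yl D (pl 0) (pl (m + 1)) j r (P 0) q E) J w
      (B * U' * z) ys gs) (fun _ => id) (fun _ => id)
    (by rw [hXX, hhc]; rw [hhc] at hSid₁; exact hSid₁)
    (by rw [hx', hhc]; rw [hhc] at hSid₂; exact hSid₂)
  obtain ⟨l, hl, hjM, hlab⟩ := HL D U R J a₀ w₀ z w (pl (m + 1)) j r r2 r' r'' y a x' x'
    (fun _ => 1) κ q E (P (m + 1)) (S (m + 1)) ys gs n₀ (by omega) c4 (by omega) le_rfl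
    (hlow (m + 1) (by omega)) (by rw [hS]; exact (hgeo (m + 1) (by omega)).1)
    (hgd (m + 1) (by omega)) hU₂ hn₀ (1 / 4) ep Ev (by linarith)
    (fun ω hω => (hEvE ω hω).2) hline hbd happ
  have hi : pl (m + 1) ≤ M := by
    have := (hPlc (m + 1) (by omega)).i2
    omega
  exact ⟨gs l, (hE.gs_gr l).1, (hE.gs_gr l).2.1, hl, pl (m + 1), hi, j + 1, by omega,
    Pool.STAT.newLabT_mono hq.nonneg le_rfl (le_max_left _ _) le_rfl hlab⟩

end Pool.TC
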